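import Pool.Agent.Q314.BE.Stmts

set_option autoImplicit false

/-! TaskExp (helper329). -/

namespace Pool.Agent.Q314.BE

open MeasureTheory Filter Topology Set

theorem act_sum (β x : ℝ) (hβ : 1 < β) (d : ℕ → ℕ) (n : ℕ) :
    x = ∑ i ∈ Finset.range n, (d i : ℝ) / β ^ (i + 1) +
      act β ((List.range n).map d) x / β ^ n := by
  have hβ0 : β ≠ 0 := by positivity
  induction n with
  | zero => simp [act_nil]
  | succ n ih =>
    rw [Finset.sum_range_succ, List.range_succ, List.map_append, act_append]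
    show x = ∑ i ∈ Finset.range n, (d i : ℝ) / β ^ (i + 1) + (d n : ℝ) / β ^ (n + 1) +
      (β * act β ((List.range n).map d) x - d n) / β ^ (n + 1)
    have h1 : (d n : ℝ) / β ^ (n + 1) +
        (β * act β ((List.range n).map d) x - d n) / β ^ (n + 1) =
        act β ((List.range n).map d) x / β ^ n := by
      rw [← add_div, add_sub_cancel, pow_succ, mul_comm (β ^ n) β]
      exact mul_div_mul_left _ _ hβ0
    rw [add_assoc, h1]
    exact ih

theorem length_ge (B : ℕ → List ℕ) (hB : ∀ i, B i ≠ []) (K : ℕ) :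
    K ≤ ((List.range K).map B).flatten.length := by
  induction K with
  | zero => exact Nat.zero_le _
  | succ K ih =>
    rw [List.range_succ, List.map_append, List.flatten_append, List.length_append]
    have h1 : 0 < (B K).length := List.length_pos_of_ne_nil (hB K)
    have h2 : (List.map B [K]).flatten.length = (B K).length := by simp
    omega

theorem taskExp (hP : TaskPrefix) : TaskExp := by
  intro β C x m B hβ hB hm hC
  obtain ⟨d, hd⟩ : ∃ d : ℕ → ℕ, d = flat 0 B := ⟨_, rfl⟩
  have hpre := hP ℕ 0 B hB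
  rw [← hd] at hpre ⊢
  have hle : ∀ i, d i ≤ m := by
    intro i
    have h1 := hpre (i + 1)
    have h2 := length_ge B hB (i + 1)
    have h3 : d i ∈ ((List.range (i + 1)).map B).flatten := by
      rw [← h1, List.mem_map]
      exact ⟨i, List.mem_range.mpr (by omega), rfl⟩
    obtain ⟨l, hl, h4⟩ := List.mem_flatten.mp h3
    obtain ⟨j, -, rfl⟩ := List.mem_map.mp hl
    exact hm j _ h4
  refine ⟨hle, ?_⟩
  have hβ0 : 0 < β := by linarith
  have hsum : Summable fun i : ℕ => (d i : ℝ) / β ^ (i + 1) := by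
    have hg : Summable fun i : ℕ => (m : ℝ) * (β⁻¹) ^ i :=
      (summable_geometric_of_lt_one (by positivity) (inv_lt_one_of_one_lt₀ hβ)).mul_left _
    refine Summable.of_nonneg_of_le (fun i => by positivity) (fun i => ?_) hg
    have h1 : (d i : ℝ) ≤ m := by exact_mod_cast hle i
    have h2 : β ^ i ≤ β ^ (i + 1) := pow_le_pow_right₀ hβ.le (Nat.le_succ i)
    rw [inv_pow, ← div_eq_mul_inv]
    exact div_le_div₀ (Nat.cast_nonneg m) h1 (by positivity) h2
  have hs := hsum.hasSum
  obtain ⟨s, hs'⟩ : ∃ s, s = ∑' i : ℕ, (d i : ℝ) / β ^ (i + 1) := ⟨_, rfl⟩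
  rw [← hs'] at hs
  have ht := hs.tendsto_sum_nat
  -- the subsequence
  choose K hK1 hK2 using hC
  obtain ⟨n, hn⟩ : ∃ n : ℕ → ℕ, n = fun j => ((List.range (K j)).map B).flatten.length :=
    ⟨_, rfl⟩
  have hnj : ∀ j, j ≤ n j := by
    intro j
    rw [hn]
    exact (hK1 j).trans (length_ge B hB (K j))
  have hnt : Tendsto n atTop atTop := tendsto_atTop_mono hnj tendsto_id
  have h1 : Tendsto (fun j => x - ∑ i ∈ Finset.range (n j), (d i : ℝ) / β ^ (i + 1)) atTop
      (𝓝 (x - s)) := (ht.comp hnt).const_sub x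
  have h2 : Tendsto (fun j => x - ∑ i ∈ Finset.range (n j), (d i : ℝ) / β ^ (i + 1)) atTop
      (𝓝 0) := by
    have h3 : Tendsto (fun j => C * (β⁻¹) ^ (n j)) atTop (𝓝 0) := by
      have h4 := (tendsto_pow_atTop_nhds_zero_of_lt_one (by positivity : (0 : ℝ) ≤ β⁻¹)
        (inv_lt_one_of_one_lt₀ hβ)).comp hnt
      have h5 := h4.const_mul C
      rw [mul_zero] at h5
      exact h5
    refine squeeze_zero_norm (fun j => ?_) h3
    have h4 := act_sum β x hβ d (n j)
    have h5 : x - ∑ i ∈ Finset.range (n j), (d i : ℝ) / β ^ (i + 1) =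
        act β ((List.range (n j)).map d) x / β ^ (n j) := by linarith
    have h6 : (List.range (n j)).map d = ((List.range (K j)).map B).flatten := by
      rw [hn]
      exact hpre (K j)
    rw [h5, h6, Real.norm_eq_abs, abs_div, abs_of_pos (by positivity : (0 : ℝ) < β ^ (n j)),
      inv_pow, ← div_eq_mul_inv]
    exact div_le_div_of_nonneg_right (hK2 j) (by positivity)
  have h7 := tendsto_nhds_unique h1 h2
  have h8 : s = x := by linarith
  rw [← h8]
  exact hs

end Pool.Agent.Q314.BE
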