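import Pool.Agent.Q314.BE.Stmts

set_option autoImplicit false

/-!
Initial pieces of an infinite concatenation.
-/

namespace Pool.Agent.Q314.BE

open MeasureTheory Filter Topology Set

/-- the product of the first `K` lists -/
def pre {α : Type} (L : ℕ → List α) (K : ℕ) : List α := ((List.range K).map L).flatten

theorem pre_succ {α : Type} (L : ℕ → List α) (K : ℕ) : pre L (K + 1) = pre L K ++ L K := by
  simp [pre, List.range_succ]

theorem pre_length_le {α : Type} {L : ℕ → List α} (hL : ∀ k, L k ≠ []) (K : ℕ) :
    K ≤ (pre L K).length := by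
  induction K with
  | zero => simp
  | succ K ih =>
    rw [pre_succ, List.length_append]
    have := List.length_pos_of_ne_nil (hL K)
    omega

theorem pre_getD {α : Type} (d : α) (L : ℕ → List α) {K n : ℕ} (hn : n < (pre L K).length)
    (j : ℕ) : (pre L (K + j)).getD n d = (pre L K).getD n d ∧ n < (pre L (K + j)).length := by
  induction j with
  | zero => exact ⟨rfl, hn⟩
  | succ j ih =>
    rw [← add_assoc, pre_succ]
    refine ⟨?_, ?_⟩
    · rw [List.getD_append _ _ _ _ ih.2]
      exact ih.1
    · rw [List.length_append]
      have := ih.2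
      omega

theorem flat_eq {α : Type} (d : α) {L : ℕ → List α} (hL : ∀ k, L k ≠ []) {K n : ℕ}
    (hn : n < (pre L K).length) : flat d L n = (pre L K).getD n d := by
  have h1 : n < (pre L (n + 1)).length :=
    lt_of_lt_of_le (Nat.lt_succ_self n) (pre_length_le hL (n + 1))
  change (pre L (n + 1)).getD n d = _
  rcases le_total K (n + 1) with h | h
  · obtain ⟨j, hj⟩ := Nat.exists_eq_add_of_le h
    rw [hj]
    exact (pre_getD d L hn j).1
  · obtain ⟨j, hj⟩ := Nat.exists_eq_add_of_le h
    rw [hj]
    exact (pre_getD d L h1 j).1.symm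

theorem taskPrefix : TaskPrefix := by
  intro α d L hL K
  change (List.range (pre L K).length).map (flat d L) = pre L K
  apply List.ext_getElem
  · simp
  · intro i h1 h2
    rw [List.getElem_map, List.getElem_range, flat_eq d hL h2, List.getD_eq_getElem _ _ h2]

end Pool.Agent.Q314.BE
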