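import Pool.Agent.Q314.BE.Stmts

set_option autoImplicit false

namespace Pool.Agent.Q314.BE

open MeasureTheory Filter Topology Set

/-- points whose orbit for some coins is in `B` at time `k` -/
def PB (g : ℕ → Bool → ℝ → ℝ) (k : ℕ) (B : Set ℝ) : Set ℝ := {x | ∃ ω, orb g ω k x ∈ B}

theorem PB_bound {μ : Measure ℝ} {g : ℕ → Bool → ℝ → ℝ} {D : ℕ → ℕ}
    (hg : ∀ k b, Measurable (g k b))
    (hD : ∀ k b B, MeasurableSet B → μ (g k b ⁻¹' B) ≤ (D k : ENNReal) * μ B) (k : ℕ) :
    ∀ B, MeasurableSet B →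
      μ (PB g k B) ≤ (2 : ENNReal) ^ k * (∏ i ∈ Finset.range k, (D i : ENNReal)) * μ B := by
  induction k with
  | zero =>
    intro B hB
    have : PB g 0 B = B := by
      ext x
      simp [PB, orb]
    rw [this]
    simp
  | succ k ih =>
    intro B hB
    have hsub : PB g (k + 1) B ⊆ PB g k (g k true ⁻¹' B ∪ g k false ⁻¹' B) := by
      rintro x ⟨ω, hx⟩
      refine ⟨ω, ?_⟩
      change g k (ω k) (orb g ω k x) ∈ B at hx
      cases h : ω k with
      | true => rw [h] at hx; exact Or.inl hx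
      | false => rw [h] at hx; exact Or.inr hx
    have hm : MeasurableSet (g k true ⁻¹' B ∪ g k false ⁻¹' B) :=
      (hg k true hB).union (hg k false hB)
    calc μ (PB g (k + 1) B) ≤ μ (PB g k (g k true ⁻¹' B ∪ g k false ⁻¹' B)) := measure_mono hsub
      _ ≤ (2 : ENNReal) ^ k * (∏ i ∈ Finset.range k, (D i : ENNReal)) *
          μ (g k true ⁻¹' B ∪ g k false ⁻¹' B) := ih _ hm
      _ ≤ (2 : ENNReal) ^ k * (∏ i ∈ Finset.range k, (D i : ENNReal)) *
          ((D k : ENNReal) * μ B + (D k : ENNReal) * μ B) := by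
          gcongr
          exact (measure_union_le _ _).trans (add_le_add (hD k true B hB) (hD k false B hB))
      _ = (2 : ENNReal) ^ (k + 1) * (∏ i ∈ Finset.range (k + 1), (D i : ENNReal)) * μ B := by
          rw [Finset.prod_range_succ, pow_succ]
          ring

theorem taskNull : TaskNull := by
  intro μ g D N hg hD hN
  rw [ae_all_iff]
  intro k
  have h1 := PB_bound hg hD k (toMeasurable μ N) (measurableSet_toMeasurable μ N)
  rw [measure_toMeasurable, hN, mul_zero, nonpos_iff_eq_zero] at h1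
  rw [ae_iff]
  refine measure_mono_null ?_ h1
  intro x hx
  simp only [mem_setOf_eq, not_forall, not_not] at hx
  obtain ⟨ω, hω⟩ := hx
  exact ⟨ω, subset_toMeasurable μ N hω⟩

theorem taskBC : TaskBC := by
  intro μ g D Bad hμ hg hD hB hle
  have h1 : ∀ k, μ (PB g k (Bad k)) ≤ (2 : ENNReal)⁻¹ ^ k := by
    intro k
    refine (PB_bound hg hD k (Bad k) (hB k)).trans ?_
    rw [← ENNReal.inv_pow, ENNReal.le_inv_iff_mul_le]
    refine le_trans (le_of_eq ?_) (hle k)
    have : (4 : ENNReal) ^ k = 2 ^ k * 2 ^ k := by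
      rw [← mul_pow]
      norm_num
    rw [this]
    ring
  have h2 : ∑' k, μ (PB g k (Bad k)) ≠ ⊤ := by
    refine ne_top_of_le_ne_top ?_ (ENNReal.tsum_le_tsum h1)
    rw [ENNReal.tsum_geometric, ENNReal.one_sub_inv_two, inv_inv]
    exact ENNReal.ofNat_ne_top
  filter_upwards [ae_eventually_notMem h2] with x hx
  obtain ⟨k0, hk0⟩ := eventually_atTop.1 hx
  exact ⟨k0, fun k hk ω hω => hk0 k hk ⟨ω, hω⟩⟩

end Pool.Agent.Q314.BE
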