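import Pool.Agent.Q314.BE.Stmts

set_option autoImplicit false

/-! TaskScale (helper329). -/

namespace Pool.Agent.Q314.BE

open MeasureTheory Filter Topology Set

theorem act_affine (β : ℝ) (w : List ℕ) : ∃ c : ℝ, ∀ x, act β w x = β ^ w.length * x + c := by
  induction w with
  | nil => exact ⟨0, fun x => by rw [act_nil]; simp⟩
  | cons e w ih =>
    obtain ⟨c, hc⟩ := ih
    refine ⟨c - β ^ w.length * e, fun x => ?_⟩
    rw [act_cons, hc, List.length_cons, pow_succ]
    ring

theorem taskScale : TaskScale := by
  intro β hβ w B hB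
  obtain ⟨c, hc⟩ := act_affine β w
  have hpos : (0 : ℝ) < β ^ w.length := by positivity
  have hset : {x | act β w x ∈ B} = (fun x => β ^ w.length * x) ⁻¹' ((fun y => y + c) ⁻¹' B) := by
    ext x
    simp only [mem_setOf_eq, mem_preimage, hc]
  have hm : MeasurableSet ((fun y : ℝ => y + c) ⁻¹' B) := (measurable_id.add_const c) hB
  rw [hset]
  refine ⟨(measurable_const_mul _) hm, ?_⟩
  rw [Real.volume_preimage_mul_left hpos.ne', measure_preimage_add_right,
    abs_of_pos (inv_pos.mpr hpos)]

end Pool.Agent.Q314.BE
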