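import Pool.Agent.Q314.BE.Stmts

set_option autoImplicit false

namespace Pool.Agent.Q314.BE

open MeasureTheory Filter Topology Set

theorem taskTail : TaskTail := by
  intro μ A hμ hA hae ε hε
  set B : ℕ → Set ℝ := fun L => {x | ∃ n ≥ L, x ∉ A n} with hB
  have hBm : ∀ L, MeasurableSet (B L) := by
    intro L
    have : B L = ⋃ n, ⋃ (_ : n ≥ L), (A n)ᶜ := by
      ext x
      simp [hB]
    rw [this]
    exact MeasurableSet.iUnion fun n => MeasurableSet.iUnion fun _ => (hA n).compl
  have hanti : Antitone B := by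
    intro L L' h x hx
    obtain ⟨n, hn, hx⟩ := hx
    exact ⟨n, le_trans h hn, hx⟩
  have hlim := tendsto_measure_iInter_atTop (μ := μ) (fun L => (hBm L).nullMeasurableSet) hanti
    ⟨0, measure_ne_top μ _⟩
  have hnull : μ (⋂ L, B L) = 0 := by
    refine measure_mono_null ?_ (ae_iff.1 hae)
    intro x hx
    simp only [mem_iInter] at hx
    simp only [mem_setOf_eq]
    rintro ⟨L, hL⟩
    obtain ⟨n, hn, hx'⟩ := hx L
    exact hx' (hL n hn)
  rw [hnull] at hlim
  have hpos : (0 : ENNReal) < ε := pos_iff_ne_zero.2 hε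
  have hev := hlim.eventually (gt_mem_nhds hpos)
  obtain ⟨L, hL⟩ := hev.exists
  exact ⟨L, hL.le⟩

end Pool.Agent.Q314.BE
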