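import Pool.Agent.Q314.BE.Stmts

set_option autoImplicit false

namespace Pool.Agent.Q314.BE

open MeasureTheory Filter Topology Set

/-! ### flat -/

theorem le_length_flatten {α : Type} (L : ℕ → List α) (hL : ∀ k, L k ≠ []) (K : ℕ) :
    K ≤ ((List.range K).map L).flatten.length := by
  induction K with
  | zero => simp
  | succ K ih =>
    rw [List.range_succ, List.map_append, List.flatten_append, List.length_append]
    have : 1 ≤ (List.map L [K]).flatten.length := by
      simp only [List.map_cons, List.map_nil, List.flatten_cons, List.flatten_nil,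
        List.append_nil]
      exact List.length_pos_iff.2 (hL K)
    omega

theorem flat_mem {α : Type} (d : α) (L : ℕ → List α) (hL : ∀ k, L k ≠ []) (n : ℕ) :
    ∃ k, flat d L n ∈ L k := by
  have h : n < ((List.range (n + 1)).map L).flatten.length :=
    lt_of_lt_of_le (Nat.lt_succ_self n) (le_length_flatten L hL (n + 1))
  have h1 : flat d L n = ((List.range (n + 1)).map L).flatten[n] := by
    unfold flat
    rw [List.getD_eq_getElem?_getD, List.getElem?_eq_getElem h, Option.getD_some]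
  have h2 : flat d L n ∈ ((List.range (n + 1)).map L).flatten := by
    rw [h1]; exact List.getElem_mem h
  rw [List.mem_flatten] at h2
  obtain ⟨l, hl, hm⟩ := h2
  rw [List.mem_map] at hl
  obtain ⟨k, _, rfl⟩ := hl
  exact ⟨k, hm⟩

/-! ### measurability -/

theorem meas_comp (β : ℝ) (hb : ∀ w, MeasurableSet (blk β ⁻¹' {w})) (f : List ℕ → ℝ) :
    Measurable (fun x => f (blk β x)) := by
  intro B _
  have : (fun x => f (blk β x)) ⁻¹' B = ⋃ w ∈ {w : List ℕ | f w ∈ B}, blk β ⁻¹' {w} := by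
    ext x
    simp
  rw [this]
  exact MeasurableSet.biUnion (Set.to_countable _) (fun w _ => hb w)

theorem meas_bsum (β : ℝ) (hb : ∀ w, MeasurableSet (blk β ⁻¹' {w})) (hS : Measurable (S β))
    (f : List ℕ → ℝ) (n : ℕ) : Measurable (bsum β f n) := by
  unfold bsum
  refine Finset.measurable_sum _ (fun i _ => ?_)
  exact (meas_comp β hb f).comp (hS.iterate i)

/-- the good averages -/
def A (β : ℝ) (k n : ℕ) : Set ℝ :=
  {x | ∀ e ≤ mm β, |bsum β (cnt e) n x - mean β e * n| ≤ (n : ℝ) / (k + 1)}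

theorem meas_A (β : ℝ) (hb : ∀ w, MeasurableSet (blk β ⁻¹' {w})) (hS : Measurable (S β))
    (k n : ℕ) : MeasurableSet (A β k n) := by
  have : A β k n = ⋂ e ∈ {e : ℕ | e ≤ mm β},
      {x | |bsum β (cnt e) n x - mean β e * n| ≤ (n : ℝ) / (k + 1)} := by
    ext x; simp [A]
  rw [this]
  refine MeasurableSet.biInter (Set.to_countable _) (fun e _ => ?_)
  exact measurableSet_le (((meas_bsum β hb hS (cnt e) n).sub_const _).abs) measurable_const

theorem ae_A (h7 : TaskSLLN) (β : ℝ) (hp : IsProbabilityMeasure (mu β))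
    (hb : ∀ w, MeasurableSet (blk β ⁻¹' {w})) (hmp : MeasurePreserving (S β) (mu β) (mu β))
    (hind : ∀ w B, MeasurableSet B →
      mu β (blk β ⁻¹' {w} ∩ S β ⁻¹' B) = mu β (blk β ⁻¹' {w}) * mu β B)
    (hint : ∀ e, Integrable (fun x => cnt e (blk β x)) (mu β)) :
    ∀ᵐ x ∂(mu β), ∀ k, ∃ L, ∀ n ≥ L, x ∈ A β k n := by
  have h1 : ∀ᵐ x ∂(mu β), ∀ e, Tendsto (fun n : ℕ => bsum β (cnt e) n x / n) atTop
      (𝓝 (mean β e)) := by
    rw [ae_all_iff]
    intro e
    exact h7 (mu β) (S β) (blk β) hp hmp hb hind (cnt e) (hint e)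
  filter_upwards [h1] with x hx k
  have h2 : ∀ e, ∀ᶠ n : ℕ in atTop, |bsum β (cnt e) n x - mean β e * n| ≤ (n : ℝ) / (k + 1) := by
    intro e
    have hk : (0 : ℝ) < 1 / (k + 1) := by positivity
    have := (hx e).eventually (Metric.closedBall_mem_nhds (mean β e) hk)
    filter_upwards [this, eventually_gt_atTop 0] with n hn hn0
    have hn0' : (0 : ℝ) < n := by exact_mod_cast hn0
    rw [Real.dist_eq] at hn
    have e1 : bsum β (cnt e) n x - mean β e * n = (bsum β (cnt e) n x / n - mean β e) * n := by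
      field_simp
    rw [e1, abs_mul, abs_of_pos hn0']
    calc _ ≤ 1 / ((k : ℝ) + 1) * n := by gcongr
      _ = _ := by ring
  have h3 : ∀ᶠ n : ℕ in atTop, ∀ e ∈ Finset.range (mm β + 1),
      |bsum β (cnt e) n x - mean β e * n| ≤ (n : ℝ) / (k + 1) :=
    (Finset.eventually_all _).2 (fun e _ => h2 e)
  obtain ⟨L, hL⟩ := eventually_atTop.1 h3
  exact ⟨L, fun n hn e he => hL n hn e (Finset.mem_range.2 (Nat.lt_succ_of_le he))⟩

/-- not entered `V` up to the time `W` -/
def NE (β : ℝ) (v : List ℕ) (W : ℕ) : Set ℝ := {x | ∀ j ≤ W, (S β)^[j] x ∉ V β v}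

theorem meas_V (h3 : TaskScale) (β : ℝ) (hβ : 1 < β) (v : List ℕ) : MeasurableSet (V β v) :=
  (h3 β hβ (1 :: v) (U β) measurableSet_Ico).1

theorem meas_NE (β : ℝ) (v : List ℕ) (hV : MeasurableSet (V β v)) (hS : Measurable (S β))
    (W : ℕ) : MeasurableSet (NE β v W) := by
  have : NE β v W = ⋂ j ∈ {j : ℕ | j ≤ W}, ((S β)^[j] ⁻¹' (V β v))ᶜ := by
    ext x; simp [NE]
  rw [this]
  exact MeasurableSet.biInter (Set.to_countable _) (fun j _ => ((hS.iterate j) hV).compl)

theorem exists_W (h15 : TaskTail) (β : ℝ) (v : List ℕ) (hp : IsProbabilityMeasure (mu β))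
    (hV : MeasurableSet (V β v)) (hS : Measurable (S β))
    (hent : ∀ᵐ x ∂(mu β), ∃ j, (S β)^[j] x ∈ V β v) (p : ℕ) :
    ∃ W, mu β (NE β v W) ≤ (2 * (p : ENNReal))⁻¹ := by
  have := h15 (mu β) (fun n => (NE β v n)ᶜ) hp (fun n => (meas_NE β v hV hS n).compl) (by
    filter_upwards [hent] with x hx
    obtain ⟨j, hj⟩ := hx
    exact ⟨j, fun n hn h => h j hn hj⟩) (2 * (p : ENNReal))⁻¹ (by
      rw [Ne, ENNReal.inv_eq_zero]
      exact ENNReal.mul_ne_top (by norm_num) (ENNReal.natCast_ne_top p))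
  obtain ⟨L, hL⟩ := this
  refine ⟨L, le_trans (measure_mono ?_) hL⟩
  intro x hx
  exact ⟨L, le_rfl, fun h => h hx⟩

theorem exists_L (h15 : TaskTail) (β : ℝ) (hp : IsProbabilityMeasure (mu β))
    (hb : ∀ w, MeasurableSet (blk β ⁻¹' {w})) (hS : Measurable (S β))
    (hA : ∀ᵐ x ∂(mu β), ∀ k, ∃ L, ∀ n ≥ L, x ∈ A β k n) (k p : ℕ) :
    ∃ L, mu β {x | ∃ n ≥ L, x ∉ A β k n} ≤ (2 * (p : ENNReal))⁻¹ := by
  refine h15 (mu β) (fun n => A β k n) hp (fun n => meas_A β hb hS k n) ?_ _ ?_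
  · filter_upwards [hA] with x hx using hx k
  · rw [Ne, ENNReal.inv_eq_zero]
    exact ENNReal.mul_ne_top (by norm_num) (ENNReal.natCast_ne_top p)

end Pool.Agent.Q314.BE
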