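import Pool.Agent.Q314.BE.Asm1

set_option autoImplicit false

namespace Pool.Agent.Q314.BE

open MeasureTheory Filter Topology Set

/-- the maps of the construction -/
noncomputable def gg (β : ℝ) (v : List ℕ) (M W : ℕ → ℕ) (k : ℕ) (b : Bool) : ℝ → ℝ :=
  G β v (M k) (W k) b

/-- the segments of the path with the coins `ω` -/
noncomputable def Ls (β : ℝ) (v : List ℕ) (M W : ℕ → ℕ) (ω : ℕ → Bool) (x : ℝ) (k : ℕ) :
    List (List ℕ) :=
  seg β v (M k) (W k) (ω k) (orb (gg β v M W) ω k x)

/-- the digits of the path with the coins `ω` -/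
noncomputable def dig (β : ℝ) (v : List ℕ) (M W : ℕ → ℕ) (ω : ℕ → Bool) (x : ℝ) : ℕ → ℕ :=
  flat 0 (flat [] (Ls β v M W ω x))

structure Good (β : ℝ) (v : List ℕ) (M W L : ℕ → ℕ) (k0 : ℕ) (x : ℝ) : Prop where
  inU : ∀ k ω, orb (gg β v M W) ω k x ∈ U β
  ne : ∀ k ω i, blk β ((S β)^[i] (orb (gg β v M W) ω k x)) ≠ []
  avg : ∀ k ≥ k0, ∀ ω, ∀ n ≥ L k, orb (gg β v M W) ω k x ∈ A β k n
  ent : ∀ k ≥ k0, ∀ ω, ∃ j ≤ W k, (S β)^[M k + j] (orb (gg β v M W) ω k x) ∈ V β v

theorem act_concat (β : ℝ) (v : List ℕ) (M W : ℕ → ℕ) (ω : ℕ → Bool) (x : ℝ) (K : ℕ) :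
    act β ((List.range K).map (Ls β v M W ω x)).flatten.flatten x = orb (gg β v M W) ω K x := by
  induction K with
  | zero => simp [act, orb]
  | succ K ih =>
    rw [List.range_succ, List.map_append, List.flatten_append, List.flatten_append, act_append, ih]
    simp only [List.map_cons, List.map_nil, List.flatten_cons, List.flatten_nil, List.append_nil]
    rfl

theorem seg_ne (β : ℝ) (v : List ℕ) (M W : ℕ) (b : Bool) (x : ℝ) : seg β v M W b x ≠ [] := by
  simp [seg]

theorem seg_ent (β : ℝ) (v : List ℕ) (M W : ℕ) (y : ℝ)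
    (h : ∃ j ≤ W, (S β)^[M + j] y ∈ V β v) :
    M ≤ wait β v M W y ∧ (S β)^[wait β v M W y] y ∈ V β v ∧
    ∀ b, seg β v M W b y = (List.range (wait β v M W y)).map (fun i => blk β ((S β)^[i] y)) ++
      [if b then 0 :: ret β (β * (S β)^[wait β v M W y] y) else 1 :: v] := by
  classical
  have h' : ∃ j, j ≤ W ∧ (S β)^[M + j] y ∈ V β v := h
  have hw : wait β v M W y = M + Nat.find h' := by
    unfold wait
    rw [dif_pos h']
  have hs := Nat.find_spec h'
  have h2 : (S β)^[wait β v M W y] y ∈ V β v := by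
    rw [hw]; exact hs.2
  refine ⟨by rw [hw]; exact Nat.le_add_right _ _, h2, fun b => ?_⟩
  unfold seg spec
  rw [if_pos h2]

theorem length_eq (m : ℕ) (u : List ℕ) (hu : ∀ e ∈ u, e ≤ m) :
    (u.length : ℝ) = ∑ e ∈ Finset.range (m + 1), cnt e u := by
  induction u with
  | nil => simp [cnt]
  | cons a u ih =>
    have ha : a ≤ m := hu a (by simp)
    have ih' := ih (fun e he => hu e (by simp [he]))
    have h1 : ∀ e, cnt e (a :: u) = cnt e u + (if a = e then 1 else 0) := by
      intro e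
      unfold cnt
      rw [List.count_cons]
      push_cast
      by_cases h : a = e <;> simp [h]
    simp only [h1, Finset.sum_add_distrib, ← ih', Finset.sum_ite_eq, Finset.mem_range]
    rw [if_pos (by omega)]
    push_cast
    simp

theorem good_bal (hDig : TaskMeanSym) (hLen : TaskMeanLen) (hRet : TaskRet) (hSeg : TaskSeg)
    (hFreq : TaskFreq) (hPre : TaskPrefix) (hExp : TaskExp) (hWords : TaskWords)
    (β : ℝ) (hβ : Ok β) (v : List ℕ) (hv : VOk β v) (M W L : ℕ → ℕ)
    (hLM : ∀ k, L k ≤ M k) (hM : ∀ k, (k + 1) * (L (k + 1) + 1) ≤ M k)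
    (k0 : ℕ) (x : ℝ) (hx : Good β v M W L k0 x) (ω : ℕ → Bool) :
    BalExp β x (dig β v M W ω x) := by
  have hne : ∀ k, Ls β v M W ω x k ≠ [] := fun k => seg_ne _ _ _ _ _ _
  have hwords : ∀ k, ∀ u ∈ Ls β v M W ω x k, u ≠ [] ∧ ∀ e ∈ u, e ≤ mm β := by
    intro k
    exact (hWords β hβ v hv (M k) (W k) (ω k) _ (hx.inU k ω) (hx.ne k ω)).1
  have hB : ∀ i, flat [] (Ls β v M W ω x) i ≠ [] ∧
      ∀ e ∈ flat [] (Ls β v M W ω x) i, e ≤ mm β := by
    intro i
    obtain ⟨k, hk⟩ := flat_mem [] (Ls β v M W ω x) hne i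
    exact hwords k _ hk
  -- expansion
  have hexp := hExp β (|cc β| + |cc β + 1|) x (mm β) (flat [] (Ls β v M W ω x))
    (by linarith [hβ.1]) (fun i => (hB i).1) (fun i => (hB i).2) (by
      intro K0
      refine ⟨((List.range K0).map (Ls β v M W ω x)).flatten.length,
        le_length_flatten _ hne K0, ?_⟩
      rw [hPre _ _ _ hne K0, act_concat]
      have h1 : orb (gg β v M W) ω K0 x ∈ Ico (cc β) (cc β + 1) := hx.inU K0 ω
      have h2 := h1.1
      have h3 := h1.2
      rcases abs_cases (orb (gg β v M W) ω K0 x) with ⟨ha, _⟩ | ⟨ha, _⟩ <;> rw [ha]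
      · have := le_abs_self (cc β + 1)
        have := abs_nonneg (cc β)
        linarith
      · have := neg_abs_le (cc β)
        have := abs_nonneg (cc β + 1)
        linarith)
  obtain ⟨hd, hsum⟩ := hexp
  -- averages
  obtain ⟨hfull, ⟨η, hη, hvη⟩, _⟩ := hv
  obtain ⟨J, hJ⟩ := hRet β hβ η hη
  have havg : ∀ e ≤ mm β, Tendsto (fun n : ℕ =>
      (∑ i ∈ Finset.range n, cnt e (flat [] (Ls β v M W ω x) i)) / n) atTop (𝓝 (mean β e)) := by
    intro e he
    refine hSeg [] (cnt e) (mean β e) ((v.length : ℝ) + J + 1) (Ls β v M W ω x) L M k0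
      (fun u => by unfold cnt; positivity) hne hLM hM ?_
    intro k hk
    obtain ⟨h1, h2, h3⟩ := seg_ent β v (M k) (W k) (orb (gg β v M W) ω k x) (hx.ent k hk ω)
    refine ⟨_, _, _, h3 (ω k), h1, ?_, ?_⟩
    · have hz : act β v (β * ((S β)^[wait β v (M k) (W k) (orb (gg β v M W) ω k x)]
          (orb (gg β v M W) ω k x)) - (1 : ℕ)) ∈ U β := h2
      obtain ⟨hz1, hz2⟩ := hvη _ hz
      have hr := hJ (β * ((S β)^[wait β v (M k) (W k) (orb (gg β v M W) ω k x)]
          (orb (gg β v M W) ω k x))) (by push_cast at hz1; linarith)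
          (by push_cast at hz2; linarith)
      have hr1 : ((ret β (β * ((S β)^[wait β v (M k) (W k) (orb (gg β v M W) ω k x)]
          (orb (gg β v M W) ω k x)))).length : ℝ) ≤ J := by exact_mod_cast hr.1
      unfold cnt
      by_cases hb : ω k = true
      · rw [if_pos hb]
        have : ((List.count e (0 :: ret β (β * ((S β)^[wait β v (M k) (W k)
          (orb (gg β v M W) ω k x)] (orb (gg β v M W) ω k x))))) : ℝ) ≤
          ((0 :: ret β (β * ((S β)^[wait β v (M k) (W k) (orb (gg β v M W) ω k x)]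
          (orb (gg β v M W) ω k x)))).length : ℝ) := by
          exact_mod_cast List.count_le_length
        rw [List.length_cons] at this
        push_cast at this
        have hvl : (0 : ℝ) ≤ v.length := by positivity
        linarith
      · rw [if_neg hb]
        have : ((List.count e (1 :: v)) : ℝ) ≤ ((1 :: v).length : ℝ) := by
          exact_mod_cast List.count_le_length
        rw [List.length_cons] at this
        push_cast at this
        have hJ0 : (0 : ℝ) ≤ J := by positivity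
        linarith
    · intro n hn _
      exact hx.avg k hk ω n hn e he
  have hlen : Tendsto (fun n : ℕ =>
      (∑ i ∈ Finset.range n, ((flat [] (Ls β v M W ω x) i).length : ℝ)) / n) atTop
      (𝓝 (∑ e ∈ Finset.range (mm β + 1), mean β e)) := by
    have h1 : Tendsto (fun n : ℕ => ∑ e ∈ Finset.range (mm β + 1),
        (∑ i ∈ Finset.range n, cnt e (flat [] (Ls β v M W ω x) i)) / n) atTop
        (𝓝 (∑ e ∈ Finset.range (mm β + 1), mean β e)) :=
      tendsto_finset_sum _ (fun e he => havg e (Nat.lt_succ_iff.1 (Finset.mem_range.1 he)))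
    refine h1.congr (fun n => ?_)
    rw [← Finset.sum_div, Finset.sum_comm]
    congr 1
    exact Finset.sum_congr rfl (fun i _ => (length_eq (mm β) _ (hB i).2).symm)
  obtain ⟨hl1, hl2⟩ := hLen β hβ
  rw [hl1] at hl2
  refine ⟨hd, hsum, fun e => mean β e / ∑ e ∈ Finset.range (mm β + 1), mean β e, ?_⟩
  intro e he
  refine ⟨?_, ?_⟩
  · show mean β e / _ = mean β (mm β - e) / _
    rw [hDig β hβ e he]
  · exact hFreq (flat [] (Ls β v M W ω x)) e (mean β e) _ (fun i => (hB i).1) hl2 (havg e he) hlen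

/-- coins which are free from `k0` on -/
def coin (k0 : ℕ) (τ : ℕ → Bool) (i : ℕ) : Bool := if i < k0 then false else τ (i - k0)

theorem orb_congr (g : ℕ → Bool → ℝ → ℝ) (ω ω' : ℕ → Bool) (k : ℕ)
    (h : ∀ j < k, ω j = ω' j) (x : ℝ) : orb g ω k x = orb g ω' k x := by
  induction k with
  | zero => rfl
  | succ k ih =>
    simp only [orb]
    rw [ih (fun j hj => h j (by omega)), h k (by omega)]

theorem good_inj (hInj : TaskInj) (hWords : TaskWords)
    (β : ℝ) (hβ : Ok β) (v : List ℕ) (hv : VOk β v) (M W L : ℕ → ℕ)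
    (k0 : ℕ) (x : ℝ) (hx : Good β v M W L k0 x) :
    Function.Injective (fun τ : ℕ → Bool => dig β v M W (coin k0 τ) x) := by
  have key : ∀ ω ω' : ℕ → Bool, ∀ k ≥ k0, (∀ j < k, ω j = ω' j) → ω k = false → ω' k = true →
      dig β v M W ω x ≠ dig β v M W ω' x := by
    intro ω ω' k hk hj h1 h2
    have ho := orb_congr (gg β v M W) ω ω' k hj x
    obtain ⟨_, _, h3⟩ := seg_ent β v (M k) (W k) (orb (gg β v M W) ω k x) (hx.ent k hk ω)
    refine hInj (Ls β v M W ω x) (Ls β v M W ω' x) k
      ((List.range (wait β v (M k) (W k) (orb (gg β v M W) ω k x))).map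
        (fun i => blk β ((S β)^[i] (orb (gg β v M W) ω k x)))) v
      (ret β (β * (S β)^[wait β v (M k) (W k) (orb (gg β v M W) ω k x)]
        (orb (gg β v M W) ω k x)))
      (fun i => ⟨seg_ne _ _ _ _ _ _, fun u hu =>
        ((hWords β hβ v hv (M i) (W i) (ω i) _ (hx.inU i ω) (hx.ne i ω)).1 u hu).1⟩)
      (fun i => ⟨seg_ne _ _ _ _ _ _, fun u hu =>
        ((hWords β hβ v hv (M i) (W i) (ω' i) _ (hx.inU i ω') (hx.ne i ω')).1 u hu).1⟩)
      ?_ ?_ ?_
    · intro j hjk
      show seg β v (M j) (W j) (ω j) (orb (gg β v M W) ω j x) =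
        seg β v (M j) (W j) (ω' j) (orb (gg β v M W) ω' j x)
      rw [hj j hjk, orb_congr (gg β v M W) ω ω' j (fun i hi => hj i (by omega)) x]
    · show seg β v (M k) (W k) (ω k) (orb (gg β v M W) ω k x) = _
      rw [h3 (ω k), h1]
      simp only [Bool.false_eq_true, if_false]
    · show seg β v (M k) (W k) (ω' k) (orb (gg β v M W) ω' k x) = _
      rw [← ho, h3 (ω' k), h2]
      simp only [if_true]
  intro τ τ' h
  by_contra hne
  have hex : ∃ n, τ n ≠ τ' n := by
    by_contra hcon
    push Not at hcon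
    exact hne (funext hcon)
  classical
  have hs := Nat.find_spec hex
  have hmin : ∀ j < Nat.find hex, τ j = τ' j := by
    intro j hj
    by_contra hc
    exact Nat.find_min hex hj hc
  set n := Nat.find hex with hn
  have hc : ∀ j < k0 + n, coin k0 τ j = coin k0 τ' j := by
    intro j hj
    unfold coin
    by_cases h1 : j < k0
    · rw [if_pos h1, if_pos h1]
    · rw [if_neg h1, if_neg h1, hmin _ (by omega)]
  have e1 : coin k0 τ (k0 + n) = τ n := by
    unfold coin
    rw [if_neg (by omega)]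
    congr 1; omega
  have e2 : coin k0 τ' (k0 + n) = τ' n := by
    unfold coin
    rw [if_neg (by omega)]
    congr 1; omega
  rcases Bool.eq_false_or_eq_true (τ n) with ht | ht
  · have ht' : τ' n = false := by
      rcases Bool.eq_false_or_eq_true (τ' n) with h' | h'
      · exact absurd (ht.trans h'.symm) hs
      · exact h'
    exact key (coin k0 τ') (coin k0 τ) (k0 + n) (by omega) (fun j hj => (hc j hj).symm)
      (e2.trans ht') (e1.trans ht) h.symm
  · have ht' : τ' n = true := by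
      rcases Bool.eq_false_or_eq_true (τ' n) with h' | h'
      · exact h'
      · exact absurd (ht.trans h'.symm) hs
    exact key (coin k0 τ) (coin k0 τ') (k0 + n) (by omega) hc (e1.trans ht) (e2.trans ht') h

theorem card_of_inj (β x : ℝ) (f : (ℕ → Bool) → (ℕ → ℕ)) (hf : Function.Injective f)
    (hb : ∀ τ, BalExp β x (f τ)) :
    Cardinal.mk {ε : ℕ → ℕ // BalExp β x ε} = Cardinal.continuum := by
  apply le_antisymm
  · calc Cardinal.mk {ε : ℕ → ℕ // BalExp β x ε} ≤ Cardinal.mk (ℕ → ℕ) :=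
        Cardinal.mk_subtype_le _
      _ = Cardinal.continuum := by simp
  · have h1 : Cardinal.mk (ℕ → Bool) = Cardinal.continuum := by simp
    rw [← h1]
    exact Cardinal.mk_le_of_injective (f := fun τ => (⟨f τ, hb τ⟩ : {ε // BalExp β x ε}))
      (fun a b h => hf (Subtype.ext_iff.1 h))

end Pool.Agent.Q314.BE
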