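import Pool.Agent.Q314.BE.Asm2

set_option autoImplicit false

namespace Pool.Agent.Q314.BE

open MeasureTheory Filter Topology Set

/-- the numbers `4^k ∏ D i` -/
def PP (fW : ℕ → ℕ) : ℕ → ℕ
  | 0 => 1
  | k + 1 => PP fW k * (4 * (2 * (fW (PP fW k) + 2)))

theorem PP_eq (fW : ℕ → ℕ) (k : ℕ) : ((PP fW k : ℕ) : ENNReal) =
    (4 : ENNReal) ^ k * ∏ i ∈ Finset.range k, ((2 * (fW (PP fW i) + 2) : ℕ) : ENNReal) := by
  induction k with
  | zero => simp [PP]
  | succ k ih =>
    rw [Finset.prod_range_succ, pow_succ]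
    show ((PP fW k * (4 * (2 * (fW (PP fW k) + 2))) : ℕ) : ENNReal) = _
    rw [Nat.cast_mul, ih, Nat.cast_mul 4]
    push_cast
    ring

theorem PP_pos (fW : ℕ → ℕ) (k : ℕ) : 0 < PP fW k := by
  induction k with
  | zero => simp [PP]
  | succ k ih =>
    show 0 < PP fW k * (4 * (2 * (fW (PP fW k) + 2)))
    positivity

theorem half_half (p : ℕ) (hp : 0 < p) :
    (p : ENNReal) * ((2 * (p : ENNReal))⁻¹ + (2 * (p : ENNReal))⁻¹) ≤ 1 := by
  have h1 : (2 * (p : ENNReal))⁻¹ + (2 * (p : ENNReal))⁻¹ = (p : ENNReal)⁻¹ := by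
    rw [ENNReal.mul_inv (Or.inl (by norm_num)) (Or.inl (by norm_num)), ← add_mul,
      ENNReal.inv_two_add_inv_two, one_mul]
  rw [h1, ENNReal.mul_inv_cancel (by exact_mod_cast hp.ne') (ENNReal.natCast_ne_top p)]

theorem main_U (hU : TaskUniq) (hSc : TaskScale) (hS : TaskS) (hSL : TaskSLLN) (hI : TaskInt)
    (hMS : TaskMeanSym) (hML : TaskMeanLen) (hRet : TaskRet) (hStep : TaskStep) (hBC : TaskBC)
    (hNull : TaskNull) (hTail : TaskTail) (hSeg : TaskSeg)
    (hFreq : TaskFreq) (hPre : TaskPrefix) (hExp : TaskExp) (hWords : TaskWords)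
    (hInj : TaskInj)
    (β : ℝ) (hβ : Ok β) (v : List ℕ) (hv : VOk β v) :
    ∀ᵐ x ∂(mu β), Cardinal.mk {ε : ℕ → ℕ // BalExp β x ε} = Cardinal.continuum := by
  obtain ⟨hp, hb, hSm, hmp, hind, hne, _⟩ := hS β hβ
  have hβ1 : 1 < β := by linarith [hβ.1]
  have hV := meas_V hSc β hβ1 v
  have hA := ae_A hSL β hp hb hmp hind (hI β hβ).2
  choose fW hfW using exists_W hTail β v hp hV hSm hv.2.2
  choose fL hfL using exists_L hTail β hp hb hSm hA
  set P := PP fW with hP
  let W : ℕ → ℕ := fun k => fW (P k)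
  let L : ℕ → ℕ := fun k => fL k (P k)
  let M : ℕ → ℕ := fun k => max (L k) ((k + 1) * (L (k + 1) + 1))
  let D : ℕ → ℕ := fun k => 2 * (W k + 2)
  let Bad : ℕ → Set ℝ := fun k => {x | ∃ n ≥ L k, x ∉ A β k n} ∪ (S β)^[M k] ⁻¹' (NE β v (W k))
  have hNEm : ∀ n, MeasurableSet (NE β v n) := fun n => meas_NE β v hV hSm n
  have hBadm : ∀ k, MeasurableSet (Bad k) := by
    intro k
    refine MeasurableSet.union ?_ ((hSm.iterate (M k)) (hNEm _))
    have : {x | ∃ n ≥ L k, x ∉ A β k n} = ⋃ n ∈ {n : ℕ | n ≥ L k}, (A β k n)ᶜ := by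
      ext x; simp
    rw [this]
    exact MeasurableSet.biUnion (Set.to_countable _) (fun n _ => (meas_A β hb hSm k n).compl)
  have hBadmu : ∀ k, mu β (Bad k) ≤ (2 * ((P k : ℕ) : ENNReal))⁻¹ + (2 * ((P k : ℕ) : ENNReal))⁻¹ := by
    intro k
    refine le_trans (measure_union_le _ _) (add_le_add (hfL k (P k)) ?_)
    rw [(hmp.iterate (M k)).measure_preimage (hNEm _).nullMeasurableSet]
    exact hfW (P k)
  have hstep := fun k b => hStep β hβ v hv (M k) (W k) b
  have hbound : ∀ k, ((4 : ENNReal) ^ k * ∏ i ∈ Finset.range k, (D i : ENNReal)) * mu β (Bad k)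
      ≤ 1 := by
    intro k
    have e1 : (4 : ENNReal) ^ k * ∏ i ∈ Finset.range k, (D i : ENNReal) = ((P k : ℕ) : ENNReal) :=
      (PP_eq fW k).symm
    rw [e1]
    exact le_trans (mul_le_mul_right (hBadmu k) _) (half_half (P k) (PP_pos fW k))
  have h1 := hBC (mu β) (gg β v M W) D Bad hp (fun k b => (hstep k b).1)
    (fun k b B hB => (hstep k b).2 B hB) hBadm hbound
  -- null set
  let N : Set ℝ := {x | x ∉ U β} ∪ ⋃ i : ℕ, (S β)^[i] ⁻¹' (blk β ⁻¹' {[]})
  have hN : mu β N = 0 := by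
    refine measure_union_null ?_ (measure_iUnion_null (fun i => ?_))
    · have : ∀ᵐ x ∂(mu β), x ∈ U β := ae_restrict_mem measurableSet_Ico
      exact this
    · have h0 : mu β (blk β ⁻¹' {[]}) = 0 := by
        have := hne
        rw [ae_iff] at this
        simpa [Set.preimage, Set.mem_singleton_iff] using this
      rw [(hmp.iterate i).measure_preimage (hb []).nullMeasurableSet]
      exact h0
  have h2 := hNull (mu β) (gg β v M W) D N (fun k b => (hstep k b).1)
    (fun k b B hB => (hstep k b).2 B hB) hN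
  filter_upwards [h1, h2] with x hx1 hx2
  obtain ⟨k0, hk0⟩ := hx1
  have hgood : Good β v M W L k0 x := by
    refine ⟨fun k ω => ?_, fun k ω i h => ?_, fun k hk ω n hn => ?_, fun k hk ω => ?_⟩
    · by_contra h
      exact hx2 k ω (Or.inl h)
    · exact hx2 k ω (Or.inr (mem_iUnion.2 ⟨i, h⟩))
    · by_contra h
      exact hk0 k hk ω (Or.inl ⟨n, hn, h⟩)
    · by_contra h
      push Not at h
      refine hk0 k hk ω (Or.inr ?_)
      intro j hj hmem
      refine h j hj ?_
      rw [add_comm, Function.iterate_add_apply]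
      exact hmem
  exact card_of_inj β x (fun τ => dig β v M W (coin k0 τ) x)
    (good_inj hInj hWords β hβ v hv M W L k0 x hgood)
    (fun τ => good_bal hMS hML hRet hSeg hFreq hPre hExp hWords β hβ v hv M W L
      (fun k => le_max_left _ _) (fun k => le_max_right _ _) k0 x hgood (coin k0 τ))

theorem exists_v (hO : TaskOne) (hF : TaskFullFlat) (hNear : TaskNear) (hE : TaskEntry)
    (β : ℝ) (hβ : Ok β) : ∃ v, VOk β v := by
  obtain ⟨L, hL, η, hη, h⟩ := hNear β hβ
  have h1 : ∀ u ∈ [1] :: L, FF β u := by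
    intro u hu
    rcases List.mem_cons.1 hu with rfl | hu
    · exact hO β hβ
    · exact hL u hu
  have e : ([1] :: L).flatten = 1 :: L.flatten := by simp
  refine ⟨L.flatten, ?_, ⟨η, hη, h⟩, ?_⟩
  · rw [← e]
    exact hF β _ (fun u hu => (h1 u hu).2.1)
  · have := hE β hβ ([1] :: L) h1
    rw [e] at this
    exact this

theorem final (hU : TaskUniq) (hSc : TaskScale) (hS : TaskS) (hSL : TaskSLLN) (hI : TaskInt)
    (hMS : TaskMeanSym) (hML : TaskMeanLen) (hRet : TaskRet) (hStep : TaskStep) (hBC : TaskBC)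
    (hNull : TaskNull) (hTail : TaskTail) (hSeg : TaskSeg)
    (hFreq : TaskFreq) (hPre : TaskPrefix) (hExp : TaskExp) (hWords : TaskWords)
    (hInj : TaskInj) (hO : TaskOne) (hF : TaskFullFlat) (hNear : TaskNear) (hE : TaskEntry)
    (hIb : TaskIbeta) (hPr : TaskPre) : Final := by
  intro β h2 hn
  have hβ : Ok β := ⟨h2, hn⟩
  obtain ⟨v, hv⟩ := exists_v hO hF hNear hE β hβ
  have h1 := main_U hU hSc hS hSL hI hMS hML hRet hStep hBC hNull hTail hSeg hFreq hPre hExp
    hWords hInj β hβ v hv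
  have h3 := hIb β hβ {x | Cardinal.mk {ε : ℕ → ℕ // BalExp β x ε} = Cardinal.continuum} h1
  filter_upwards [h3] with x hx
  obtain ⟨w, hw, hc⟩ := hx
  apply le_antisymm
  · calc Cardinal.mk {ε : ℕ → ℕ // BalExp β x ε} ≤ Cardinal.mk (ℕ → ℕ) :=
        Cardinal.mk_subtype_le _
      _ = Cardinal.continuum := by simp
  · have hc' : Cardinal.mk {ε : ℕ → ℕ // BalExp β (act β w x) ε} = Cardinal.continuum := hc
    rw [← hc']
    refine Cardinal.mk_le_of_injective (f := fun ε => (⟨_, hPr β (by linarith) w x hw ε.1 ε.2⟩ :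
      {ε : ℕ → ℕ // BalExp β x ε})) ?_
    intro a b hab
    apply Subtype.ext
    funext i
    have := congrFun (Subtype.ext_iff.1 hab) (i + w.length)
    simpa using this

end Pool.Agent.Q314.BE
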