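import Mathlib

set_option autoImplicit false

/-!
MP_d3ee63_an: continuum of balanced beta-expansions. Definitions.
-/

namespace Pool.Agent.Q314.BE

open MeasureTheory Filter Topology Set

/-- `β > 2` is not an integer. -/
def Ok (β : ℝ) : Prop := 2 < β ∧ ∀ k : ℕ, (k : ℝ) ≠ β

/-- the largest digit -/
noncomputable def mm (β : ℝ) : ℕ := ⌊β⌋₊

/-- `I_β = [0, 1 + 2c]` and `U = [c, c + 1)` is its middle -/
noncomputable def cc (β : ℝ) : ℝ := ((mm β : ℝ) / (β - 1) - 1) / 2

noncomputable def U (β : ℝ) : Set ℝ := Ico (cc β) (cc β + 1)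

/-- the point reached from `x` by reading the digits of `w` -/
noncomputable def act (β : ℝ) (w : List ℕ) (x : ℝ) : ℝ := w.foldl (fun y e => β * y - e) x

/-- the word `w` is full: its cylinder in `U` is mapped onto `U` -/
def Full (β : ℝ) (w : List ℕ) : Prop :=
  ∀ x, act β w x ∈ U β → ∀ p, p <+: w → act β p x ∈ U β

/-- a full word with no shorter full (nonempty) prefix -/
def FF (β : ℝ) (w : List ℕ) : Prop :=
  w ≠ [] ∧ Full β w ∧ ∀ p, p <+: w → p ≠ [] → Full β p → p = w

open Classical in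
/-- the first full block of `x` (empty if there is none) -/
noncomputable def blk (β : ℝ) (x : ℝ) : List ℕ :=
  if h : ∃ w, FF β w ∧ act β w x ∈ U β then Classical.choose h else []

/-- the map which removes the first block -/
noncomputable def S (β : ℝ) (x : ℝ) : ℝ := act β (blk β x) x

/-- Lebesgue measure on `U` -/
noncomputable def mu (β : ℝ) : Measure ℝ := volume.restrict (U β)

/-- the sum of `f` over the first `n` blocks of `x` -/
noncomputable def bsum (β : ℝ) (f : List ℕ → ℝ) (n : ℕ) (x : ℝ) : ℝ :=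
  ∑ i ∈ Finset.range n, f (blk β ((S β)^[i] x))

/-- number of digits `e` in `w` -/
def cnt (e : ℕ) (w : List ℕ) : ℝ := (w.count e : ℝ)

/-- mean number of digits `e` in a block -/
noncomputable def mean (β : ℝ) (e : ℕ) : ℝ := ∫ x, cnt e (blk β x) ∂(mu β)

open Classical in
/-- digits `m` which lead from `z ∈ [c + 1, 1 + 2c)` back to `U` -/
noncomputable def ret (β : ℝ) (z : ℝ) : List ℕ :=
  if h : ∃ j, act β (List.replicate j (mm β)) z ∈ U β then List.replicate (Nat.find h) (mm β)
  else []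

/-- the set where the alternative `0 ret` to the word `1 v` is used -/
def V (β : ℝ) (v : List ℕ) : Set ℝ := {y | act β (1 :: v) y ∈ U β}

/-- the properties of `v` -/
def VOk (β : ℝ) (v : List ℕ) : Prop :=
  Full β (1 :: v) ∧
  (∃ η > 0, ∀ y, act β v y ∈ U β → cc β ≤ y ∧ y ≤ 2 * cc β - η) ∧
  (∀ᵐ x ∂(mu β), ∃ j, (S β)^[j] x ∈ V β v)

open Classical in
/-- number of blocks read before the special word -/
noncomputable def wait (β : ℝ) (v : List ℕ) (M W : ℕ) (x : ℝ) : ℕ :=
  if h : ∃ j, j ≤ W ∧ (S β)^[M + j] x ∈ V β v then M + Nat.find h else M + W + 1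

open Classical in
/-- the last word of the segment: the special word if `V` has been entered -/
noncomputable def spec (β : ℝ) (v : List ℕ) (b : Bool) (y : ℝ) : List ℕ :=
  if y ∈ V β v then (if b then 0 :: ret β (β * y) else 1 :: v) else blk β y

/-- the list of the blocks in one segment -/
noncomputable def seg (β : ℝ) (v : List ℕ) (M W : ℕ) (b : Bool) (x : ℝ) : List (List ℕ) :=
  (List.range (wait β v M W x)).map (fun i => blk β ((S β)^[i] x)) ++
    [spec β v b ((S β)^[wait β v M W x] x)]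

/-- the point at the end of the segment -/
noncomputable def G (β : ℝ) (v : List ℕ) (M W : ℕ) (b : Bool) (x : ℝ) : ℝ :=
  act β (seg β v M W b x).flatten x

/-- orbit of `x` under the maps `g k (ω k)` -/
def orb (g : ℕ → Bool → ℝ → ℝ) (ω : ℕ → Bool) : ℕ → ℝ → ℝ
  | 0, x => x
  | k + 1, x => g k (ω k) (orb g ω k x)

/-- infinite concatenation of (nonempty) lists -/
def flat {α : Type} (d : α) (L : ℕ → List α) (n : ℕ) : α :=
  ((List.range (n + 1)).map L).flatten.getD n d

/-- number of `i < n` with `ε i = e` -/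
def num (ε : ℕ → ℕ) (e n : ℕ) : ℕ := ((Finset.range n).filter (fun i => ε i = e)).card

/-- `ε` is a balanced `β`-expansion of `x` -/
def BalExp (β : ℝ) (x : ℝ) (ε : ℕ → ℕ) : Prop :=
  (∀ i, ε i ≤ ⌊β⌋₊) ∧ HasSum (fun i => (ε i : ℝ) / β ^ (i + 1)) x ∧
  ∃ q : ℕ → ℝ, ∀ e ≤ ⌊β⌋₊, q e = q (⌊β⌋₊ - e) ∧
    Tendsto (fun n : ℕ => (num ε e n : ℝ) / n) atTop (𝓝 (q e))

end Pool.Agent.Q314.BE
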