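import Pool.Agent.Q314.BE.Defs

set_option autoImplicit false

/-!
MP_d3ee63_an: continuum of balanced beta-expansions. The lemmas (blueprint).
Prove `theorem taskX (hA : TaskA) ... : TaskX` in `Pool/Agent/Q314/BE/TaskX.lean`.
-/

namespace Pool.Agent.Q314.BE

open MeasureTheory Filter Topology Set

theorem act_nil (β x : ℝ) : act β [] x = x := rfl
theorem act_cons (β : ℝ) (e : ℕ) (w : List ℕ) (x : ℝ) :
    act β (e :: w) x = act β w (β * x - e) := rfl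
theorem act_append (β : ℝ) (u w : List ℕ) (x : ℝ) :
    act β (u ++ w) x = act β w (act β u x) := by simp [act, List.foldl_append]

/-- the first block is unique -/
def TaskUniq : Prop := ∀ β, Ok β → ∀ w w' x, FF β w → FF β w' → act β w x ∈ U β →
  act β w' x ∈ U β → w = w'

def TaskDigits : Prop := ∀ β, Ok β → ∀ w x, Full β w → act β w x ∈ U β → ∀ e ∈ w, e ≤ mm β

def TaskScale : Prop := ∀ β : ℝ, 1 < β → ∀ (w : List ℕ) (B : Set ℝ), MeasurableSet B →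
  MeasurableSet {x | act β w x ∈ B} ∧
  volume {x | act β w x ∈ B} = ENNReal.ofReal ((β ^ w.length)⁻¹) * volume B

/-- at most two children of a non-full cylinder are not full -/
def TaskCover : Prop := ∀ β, Ok β → ∀ n : ℕ,
  volume {x | x ∈ U β ∧ ∀ w, FF β w → w.length ≤ n → act β w x ∉ U β} ≤
    ENNReal.ofReal ((2 / β) ^ n)

/-- reflection of the digits -/
def TaskSym : Prop := ∀ β, Ok β → ∀ w, (∀ e ∈ w, e ≤ mm β) → FF β w →
  FF β (w.map (fun e => mm β - e))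

/-- the map `S`; from TaskUniq, TaskScale, TaskCover -/
def TaskS : Prop := ∀ β, Ok β → IsProbabilityMeasure (mu β) ∧
  (∀ w, MeasurableSet (blk β ⁻¹' {w})) ∧ Measurable (S β) ∧
  MeasurePreserving (S β) (mu β) (mu β) ∧
  (∀ w B, MeasurableSet B →
    mu β (blk β ⁻¹' {w} ∩ S β ⁻¹' B) = mu β (blk β ⁻¹' {w}) * mu β B) ∧
  (∀ᵐ x ∂(mu β), blk β x ≠ []) ∧
  (∀ w, FF β w → mu β (blk β ⁻¹' {w}) = ENNReal.ofReal ((β ^ w.length)⁻¹))

/-- strong law for the blocks: pairwise independence from the product rule, strong_law_ae_real -/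
def TaskSLLN : Prop := ∀ (μ : Measure ℝ) (T : ℝ → ℝ) (b : ℝ → List ℕ),
  IsProbabilityMeasure μ → MeasurePreserving T μ μ → (∀ w, MeasurableSet (b ⁻¹' {w})) →
  (∀ w B, MeasurableSet B → μ (b ⁻¹' {w} ∩ T ⁻¹' B) = μ (b ⁻¹' {w}) * μ B) →
  ∀ f : List ℕ → ℝ, Integrable (fun x => f (b x)) μ →
  ∀ᵐ x ∂μ, Tendsto (fun n : ℕ => (∑ i ∈ Finset.range n, f (b (T^[i] x))) / n) atTop
    (𝓝 (∫ x, f (b x) ∂μ))

/-- from TaskUniq, TaskCover, TaskS: the length of the block has tail `(2/β)^n` -/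
def TaskInt : Prop := ∀ β, Ok β → Integrable (fun x => ((blk β x).length : ℝ)) (mu β) ∧
  ∀ e, Integrable (fun x => cnt e (blk β x)) (mu β)

/-- from TaskUniq, TaskDigits, TaskSym, TaskS, TaskInt -/
def TaskMeanSym : Prop := ∀ β, Ok β → ∀ e ≤ mm β, mean β e = mean β (mm β - e)

/-- from TaskDigits, TaskS, TaskInt: mean length = sum of the means of the digits -/
def TaskMeanLen : Prop := ∀ β, Ok β →
  ∫ x, ((blk β x).length : ℝ) ∂(mu β) = ∑ e ∈ Finset.range (mm β + 1), mean β e ∧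
  0 < ∫ x, ((blk β x).length : ℝ) ∂(mu β)

def TaskOne : Prop := ∀ β, Ok β → FF β [1]

def TaskFullFlat : Prop := ∀ (β : ℝ) (L : List (List ℕ)), (∀ u ∈ L, Full β u) → Full β L.flatten

/-- from TaskUniq, TaskScale, TaskS: a small product of blocks near the left end of `U`
(almost every point of `(c, 2c)` has, for large `n`, the cylinder of its first `n` blocks
inside `(c, 2c)`) -/
def TaskNear : Prop := ∀ β, Ok β → ∃ L : List (List ℕ), (∀ u ∈ L, FF β u) ∧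
  ∃ η > 0, ∀ y, act β L.flatten y ∈ U β → cc β ≤ y ∧ y ≤ 2 * cc β - η

/-- from TaskUniq, TaskFullFlat, TaskS: every product of blocks occurs in almost every point.
With `r = L.length`, `V = {y | act L.flatten y ∈ U}`, `N` = points which never enter `V`:
`N ⊆ Vᶜ ∩ (S^[r])⁻¹ N`, independence gives `μ N ≤ (1 - μ V) μ N` -/
def TaskEntry : Prop := ∀ β, Ok β → ∀ L : List (List ℕ), (∀ u ∈ L, FF β u) →
  ∀ᵐ x ∂(mu β), ∃ j, act β L.flatten ((S β)^[j] x) ∈ U β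

/-- `z ↦ βz - m` fixes `1 + 2c = m/(β-1)`; `u = 1 + 2c - z ∈ (0, c]`, first `j` with `β^j u > c`;
`βc ≤ c + 1/2` -/
def TaskRet : Prop := ∀ β, Ok β → ∀ η > 0, ∃ J : ℕ, ∀ z, cc β + 1 ≤ z →
  z ≤ 1 + 2 * cc β - η → (ret β z).length ≤ J ∧ act β (ret β z) z ∈ U β

/-- from TaskScale, TaskS, TaskRet: density of the image of Lebesgue measure under one segment.
`G x = act (spec y) y`, `y = S^[t] x`, `t = wait x` in `M .. M + W + 1`; for every `t` the measure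
of `{y | act (spec y) y ∈ B}` is at most `2 μ B` -/
def TaskStep : Prop := ∀ β, Ok β → ∀ v, VOk β v → ∀ M W b, Measurable (G β v M W b) ∧
  ∀ B, MeasurableSet B →
    mu β (G β v M W b ⁻¹' B) ≤ ((2 * (W + 2) : ℕ) : ENNReal) * mu β B

/-- Borel-Cantelli, uniformly over the `2^k` words of coins -/
def TaskBC : Prop := ∀ (μ : Measure ℝ) (g : ℕ → Bool → ℝ → ℝ) (D : ℕ → ℕ) (Bad : ℕ → Set ℝ),
  IsProbabilityMeasure μ → (∀ k b, Measurable (g k b)) →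
  (∀ k b B, MeasurableSet B → μ (g k b ⁻¹' B) ≤ (D k : ENNReal) * μ B) →
  (∀ k, MeasurableSet (Bad k)) →
  (∀ k, ((4 : ENNReal) ^ k * ∏ i ∈ Finset.range k, (D i : ENNReal)) * μ (Bad k) ≤ 1) →
  ∀ᵐ x ∂μ, ∃ k0, ∀ k ≥ k0, ∀ ω, orb g ω k x ∉ Bad k

def TaskNull : Prop := ∀ (μ : Measure ℝ) (g : ℕ → Bool → ℝ → ℝ) (D : ℕ → ℕ) (N : Set ℝ),
  (∀ k b, Measurable (g k b)) →
  (∀ k b B, MeasurableSet B → μ (g k b ⁻¹' B) ≤ (D k : ENNReal) * μ B) →
  μ N = 0 → ∀ᵐ x ∂μ, ∀ k ω, orb g ω k x ∉ N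

def TaskTail : Prop := ∀ (μ : Measure ℝ) (A : ℕ → Set ℝ), IsProbabilityMeasure μ →
  (∀ n, MeasurableSet (A n)) → (∀ᵐ x ∂μ, ∃ L, ∀ n ≥ L, x ∈ A n) →
  ∀ ε : ENNReal, ε ≠ 0 → ∃ L : ℕ, μ {x | ∃ n ≥ L, x ∉ A n} ≤ ε

/-- deterministic: averages along a concatenation of segments -/
def TaskSeg : Prop := ∀ (d : List ℕ) (f : List ℕ → ℝ) (a C : ℝ) (Ls : ℕ → List (List ℕ))
  (Lk M : ℕ → ℕ) (k0 : ℕ), (∀ x, 0 ≤ f x) → (∀ k, Ls k ≠ []) →
  (∀ k, Lk k ≤ M k) → (∀ k, (k + 1) * (Lk (k + 1) + 1) ≤ M k) →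
  (∀ k ≥ k0, ∃ (N : ℕ) (u : ℕ → List ℕ) (s : List ℕ),
    Ls k = (List.range N).map u ++ [s] ∧ M k ≤ N ∧ f s ≤ C ∧
    ∀ n, Lk k ≤ n → n ≤ N → |∑ i ∈ Finset.range n, f (u i) - a * n| ≤ n / (k + 1)) →
  Tendsto (fun n : ℕ => (∑ i ∈ Finset.range n, f (flat d Ls i)) / n) atTop (𝓝 a)

/-- deterministic: digit frequencies from the averages over the words -/
def TaskFreq : Prop := ∀ (B : ℕ → List ℕ) (e : ℕ) (a l : ℝ), (∀ i, B i ≠ []) → 0 < l →
  Tendsto (fun n : ℕ => (∑ i ∈ Finset.range n, cnt e (B i)) / n) atTop (𝓝 a) →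
  Tendsto (fun n : ℕ => (∑ i ∈ Finset.range n, ((B i).length : ℝ)) / n) atTop (𝓝 l) →
  Tendsto (fun n : ℕ => (num (flat 0 B) e n : ℝ) / n) atTop (𝓝 (a / l))

/-- initial pieces of an infinite concatenation -/
def TaskPrefix : Prop := ∀ (α : Type) (d : α) (L : ℕ → List α), (∀ k, L k ≠ []) →
  ∀ K, (List.range ((List.range K).map L).flatten.length).map (flat d L) =
    ((List.range K).map L).flatten

/-- from TaskPrefix: the concatenation is an expansion of `x` -/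
def TaskExp : Prop := ∀ (β C x : ℝ) (m : ℕ) (B : ℕ → List ℕ), 1 < β → (∀ i, B i ≠ []) →
  (∀ i, ∀ e ∈ B i, e ≤ m) →
  (∀ K0, ∃ K ≥ K0, |act β ((List.range K).map B).flatten x| ≤ C) →
  (∀ i, flat 0 B i ≤ m) ∧ HasSum (fun i => ((flat (0 : ℕ) B i : ℕ) : ℝ) / β ^ (i + 1)) x

/-- from TaskPrefix: different coins give different digits -/
def TaskInj : Prop := ∀ (L L' : ℕ → List (List ℕ)) (k : ℕ) (P : List (List ℕ)) (v r : List ℕ),
  (∀ i, L i ≠ [] ∧ ∀ u ∈ L i, u ≠ []) → (∀ i, L' i ≠ [] ∧ ∀ u ∈ L' i, u ≠ []) →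
  (∀ j < k, L j = L' j) → L k = P ++ [1 :: v] → L' k = P ++ [0 :: r] →
  flat 0 (flat [] L) ≠ flat 0 (flat [] L')

/-- from TaskScale: almost every point of `I_β` is led to `U` by the digits `0` or `m` -/
def TaskIbeta : Prop := ∀ β, Ok β → ∀ Z : Set ℝ, (∀ᵐ x ∂(mu β), x ∈ Z) →
  ∀ᵐ x ∂(volume.restrict (Icc 0 ((mm β : ℝ) / (β - 1)))),
    ∃ w : List ℕ, (∀ e ∈ w, e ≤ mm β) ∧ act β w x ∈ Z

/-- finitely many digits in front -/
def TaskPre : Prop := ∀ (β : ℝ), 1 < β → ∀ (w : List ℕ) (x : ℝ), (∀ e ∈ w, e ≤ ⌊β⌋₊) →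
  ∀ ε, BalExp β (act β w x) ε →
    BalExp β x (fun i => if h : i < w.length then w[i] else ε (i - w.length))

/-- facts on one segment: from TaskUniq, TaskDigits, TaskRet. If all blocks on the way are
nonempty, the words are nonempty, have digits `≤ m`, the end of the segment is in `U`, and it is
the image of `x` -/
def TaskWords : Prop := ∀ β, Ok β → ∀ v, VOk β v → ∀ M W b x, x ∈ U β →
  (∀ i, blk β ((S β)^[i] x) ≠ []) →
  (∀ u ∈ seg β v M W b x, u ≠ [] ∧ ∀ e ∈ u, e ≤ mm β) ∧ G β v M W b x ∈ U β ∧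
  (∀ i, (S β)^[i] x ∈ U β)

/-- the theorem -/
def Final : Prop := ∀ β : ℝ, 2 < β → (∀ k : ℕ, (k : ℝ) ≠ β) →
  ∀ᵐ x ∂(volume.restrict (Icc 0 ((⌊β⌋₊ : ℝ) / (β - 1)))),
    Cardinal.mk {ε : ℕ → ℕ // BalExp β x ε} = Cardinal.continuum

end Pool.Agent.Q314.BE
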