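import Pool.Agent.Q314.BE.Stmts

set_option autoImplicit false

namespace Pool.Agent.Q314.BE.TaskCover

open MeasureTheory Filter Topology Set Pool.Agent.Q314.BE

/-- the cylinder of `w` in `J` is everything -/
def FullIn (β : ℝ) (J : Set ℝ) (w : List ℕ) : Prop :=
  ∀ y, act β w y ∈ U β → y ∈ J ∧ ∀ p, p <+: w → act β p y ∈ U β

def BadIn (β : ℝ) (J : Set ℝ) (n : ℕ) : Set ℝ :=
  {x | x ∈ J ∧ ∀ w : List ℕ, w ≠ [] → w.length ≤ n → (∀ p, p <+: w → act β p x ∈ U β) →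
    ¬ FullIn β J w}

theorem cc_pos {β : ℝ} (h : Ok β) : 0 ≤ β * cc β - cc β := by
  have h1 : β < (mm β : ℝ) + 1 := Nat.lt_floor_add_one β
  have h2 : (0 : ℝ) < β - 1 := by linarith [h.1]
  have h3 : β * cc β - cc β = ((mm β : ℝ) - (β - 1)) / 2 := by
    unfold cc; field_simp
  rw [h3]; linarith

theorem digit {β : ℝ} (h : Ok β) {x : ℝ} (hx : x ∈ U β) : ∃ e : ℕ, β * x - e ∈ U β := by
  have h1 := cc_pos h
  have h2 : cc β ≤ x := hx.1
  have hβ : (0 : ℝ) < β := by linarith [h.1]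
  have h3 : β * cc β ≤ β * x := mul_le_mul_of_nonneg_left h2 hβ.le
  have h4 : 0 ≤ β * x - cc β := by linarith
  refine ⟨⌊β * x - cc β⌋₊, ?_⟩
  have h5 := Nat.floor_le h4
  have h6 := Nat.lt_floor_add_one (β * x - cc β)
  constructor <;> linarith

/-- image of the child `e` of `J` -/
def Jc (β : ℝ) (J : Set ℝ) (e : ℕ) : Set ℝ := {y | y ∈ U β ∧ ∃ z ∈ J, β * z - e = y}

theorem child {β : ℝ} (hβ : 0 < β) {J : Set ℝ} (hJU : J ⊆ U β) {n : ℕ} {x : ℝ}
    (hx : x ∈ BadIn β J (n + 1)) {e : ℕ} (he : β * x - e ∈ U β) :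
    β * x - e ∈ BadIn β (Jc β J e) n := by
  refine ⟨⟨he, x, hx.1, rfl⟩, ?_⟩
  intro w hw hn hp hF
  refine hx.2 (e :: w) (by simp) (by simpa using hn) ?_ ?_
  · intro p hpw
    rcases p with _ | ⟨a, p⟩
    · exact hJU hx.1
    · obtain ⟨rfl, h2⟩ := List.cons_prefix_cons.1 hpw
      exact hp p h2
  · intro y hy
    obtain ⟨⟨h1, z, hz, hzy⟩, h2⟩ := hF (β * y - e) hy
    have hyz : z = y := by
      have : β * z = β * y := by linarith
      exact mul_left_cancel₀ hβ.ne' this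
    subst hyz
    refine ⟨hz, ?_⟩
    intro p hpw
    rcases p with _ | ⟨a, p⟩
    · exact hJU hz
    · obtain ⟨rfl, h3⟩ := List.cons_prefix_cons.1 hpw
      exact h2 p h3

theorem notfull {β : ℝ} {J : Set ℝ} (hJU : J ⊆ U β) {n : ℕ} {x : ℝ}
    (hx : x ∈ BadIn β J (n + 1)) {e : ℕ} (he : β * x - e ∈ U β) :
    ¬ ∀ y, β * y - e ∈ U β → y ∈ J := by
  intro h
  refine hx.2 [e] (by simp) (by simp) ?_ ?_
  · intro p hp
    rcases p with _ | ⟨a, p⟩
    · exact hJU hx.1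
    · obtain ⟨rfl, h2⟩ := List.cons_prefix_cons.1 hp
      have : p = [] := List.prefix_nil.1 h2
      subst this
      exact he
  · intro y hy
    refine ⟨h y hy, ?_⟩
    intro p hp
    rcases p with _ | ⟨a, p⟩
    · exact hJU (h y hy)
    · obtain ⟨rfl, h2⟩ := List.cons_prefix_cons.1 hp
      have : p = [] := List.prefix_nil.1 h2
      subst this
      exact hy

def E (β : ℝ) (J : Set ℝ) : Set ℕ :=
  {e | (∃ x ∈ J, β * x - e ∈ U β) ∧ ¬ ∀ y, β * y - e ∈ U β → y ∈ J}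

theorem E_three {β : ℝ} (hβ : 0 < β) {J : Set ℝ} (hJ : J.OrdConnected) {a b c : ℕ}
    (ha : a ∈ E β J) (hb : b ∈ E β J) (hc : c ∈ E β J) (hab : a < b) (hbc : b < c) : False := by
  obtain ⟨⟨x, hx, hxa⟩, -⟩ := ha
  obtain ⟨⟨z, hz, hzc⟩, -⟩ := hc
  refine hb.2 ?_
  intro y hy
  have hab' : (a : ℝ) + 1 ≤ b := by exact_mod_cast hab
  have hbc' : (b : ℝ) + 1 ≤ c := by exact_mod_cast hbc
  have h1 := hxa.2
  have h2 := hy.1
  have h3 := hy.2
  have h4 := hzc.1
  refine hJ.out hx hz ⟨?_, ?_⟩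
  · have : β * x ≤ β * y := by linarith
    exact le_of_mul_le_mul_left this hβ
  · have : β * y ≤ β * z := by linarith
    exact le_of_mul_le_mul_left this hβ

theorem E_two {β : ℝ} (hβ : 0 < β) {J : Set ℝ} (hJ : J.OrdConnected) :
    ∃ a b : ℕ, ∀ e ∈ E β J, e = a ∨ e = b := by
  classical
  by_cases h : ∃ e, e ∈ E β J
  · by_cases h' : ∃ e, e ∈ E β J ∧ e ≠ Nat.find h
    · refine ⟨Nat.find h, Nat.find h', ?_⟩
      intro e he
      by_contra hcon
      push Not at hcon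
      have h1 : Nat.find h ≤ Nat.find h' := Nat.find_min' h (Nat.find_spec h').1
      have h2 : Nat.find h < Nat.find h' := lt_of_le_of_ne h1 (Ne.symm (Nat.find_spec h').2)
      have h3 : Nat.find h' ≤ e := Nat.find_min' h' ⟨he, hcon.1⟩
      have h4 : Nat.find h' < e := lt_of_le_of_ne h3 (Ne.symm hcon.2)
      exact E_three hβ hJ (Nat.find_spec h) (Nat.find_spec h').1 he h2 h4
    · push Not at h'
      exact ⟨Nat.find h, Nat.find h, fun e he => Or.inl (h' e he)⟩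
  · push Not at h
    exact ⟨0, 0, fun e he => (h e he).elim⟩

theorem ordc_Jc {β : ℝ} (hβ : 0 < β) {J : Set ℝ} (hJ : J.OrdConnected) (e : ℕ) :
    (Jc β J e).OrdConnected := by
  refine ⟨?_⟩
  rintro x ⟨hx, z, hz, rfl⟩ y ⟨hy, w, hw, rfl⟩ t ⟨h1, h2⟩
  refine ⟨⟨le_trans hx.1 h1, lt_of_le_of_lt h2 hy.2⟩, (t + e) / β, ?_, by field_simp; ring⟩
  refine hJ.out hz hw ⟨?_, ?_⟩
  · rw [le_div_iff₀ hβ]; linarith
  · rw [div_le_iff₀ hβ]; linarith

theorem vol_pre {β : ℝ} (hβ : 0 < β) (e : ℕ) (B : Set ℝ) :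
    volume {x | β * x - e ∈ B} = ENNReal.ofReal (β⁻¹) * volume B := by
  have h1 : {x | β * x - e ∈ B} = (fun x => β * x) ⁻¹' ((fun x => x + (-(e : ℝ))) ⁻¹' B) := by
    ext x; simp [sub_eq_add_neg]
  rw [h1]
  have h2 := Real.volume_preimage_mul_left hβ.ne' ((fun x => x + (-(e : ℝ))) ⁻¹' B)
  rw [h2, measure_preimage_add_right, abs_of_pos (inv_pos.2 hβ)]

theorem main_bound {β : ℝ} (h : Ok β) (n : ℕ) : ∀ J : Set ℝ, J ⊆ U β → J.OrdConnected →
    volume (BadIn β J n) ≤ ENNReal.ofReal ((2 / β) ^ n) := by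
  have hβ : (0 : ℝ) < β := by linarith [h.1]
  induction n with
  | zero =>
    intro J hJ _
    calc volume (BadIn β J 0) ≤ volume (U β) := measure_mono (fun x hx => hJ hx.1)
      _ = ENNReal.ofReal ((2 / β) ^ 0) := by
        simp [U, Real.volume_Ico]
  | succ n ih =>
    intro J hJ hJo
    obtain ⟨a, b, hab⟩ := E_two hβ hJo
    have hsub : BadIn β J (n + 1) ⊆ {x | β * x - a ∈ BadIn β (Jc β J a) n} ∪
        {x | β * x - b ∈ BadIn β (Jc β J b) n} := by
      intro x hx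
      obtain ⟨e, he⟩ := digit h (hJ hx.1)
      have heE : e ∈ E β J := ⟨⟨x, hx.1, he⟩, notfull hJ hx he⟩
      rcases hab e heE with rfl | rfl
      · exact Or.inl (child hβ hJ hx he)
      · exact Or.inr (child hβ hJ hx he)
    have hk : ∀ e : ℕ, volume {x | β * x - e ∈ BadIn β (Jc β J e) n} ≤
        ENNReal.ofReal (β⁻¹ * (2 / β) ^ n) := by
      intro e
      rw [vol_pre hβ, ENNReal.ofReal_mul (inv_pos.2 hβ).le]
      gcongr
      exact ih (Jc β J e) (fun y hy => hy.1) (ordc_Jc hβ hJo e)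
    calc volume (BadIn β J (n + 1)) ≤ volume {x | β * x - a ∈ BadIn β (Jc β J a) n} +
        volume {x | β * x - b ∈ BadIn β (Jc β J b) n} :=
          le_trans (measure_mono hsub) (measure_union_le _ _)
      _ ≤ ENNReal.ofReal (β⁻¹ * (2 / β) ^ n) + ENNReal.ofReal (β⁻¹ * (2 / β) ^ n) :=
          add_le_add (hk a) (hk b)
      _ = ENNReal.ofReal ((2 / β) ^ (n + 1)) := by
          rw [← ENNReal.ofReal_add (by positivity) (by positivity)]
          congr 1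
          rw [pow_succ]; field_simp; ring

theorem main : Pool.Agent.Q314.BE.TaskCover := by
  classical
  intro β h n
  refine le_trans (measure_mono ?_) (main_bound h n (U β) (subset_refl _) ordConnected_Ico)
  rintro x ⟨hx, hw⟩
  refine ⟨hx, ?_⟩
  intro w hw0 hwn hp hF
  have hFull : Full β w := fun y hy p hpw => (hF y hy).2 p hpw
  have hex : ∃ k, ∃ p, p <+: w ∧ p ≠ [] ∧ Full β p ∧ p.length = k :=
    ⟨w.length, w, List.prefix_refl w, hw0, hFull, rfl⟩
  obtain ⟨p, hpw, hp0, hpF, hpl⟩ := Nat.find_spec hex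
  refine hw p ⟨hp0, hpF, ?_⟩ (le_trans hpw.length_le hwn) (hp p hpw)
  intro q hqp hq0 hqF
  have h1 : Nat.find hex ≤ q.length := Nat.find_min' hex ⟨q, hqp.trans hpw, hq0, hqF, rfl⟩
  exact hqp.eq_of_length (le_antisymm hqp.length_le (hpl ▸ h1))

end Pool.Agent.Q314.BE.TaskCover

namespace Pool.Agent.Q314.BE

theorem taskCover : TaskCover := TaskCover.main

end Pool.Agent.Q314.BE
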