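import Pool.Agent.Q314.BE.Stmts

set_option autoImplicit false

namespace Pool.Agent.Q314.BE

open MeasureTheory Filter Topology Set

theorem taskDigits : TaskDigits := by
  intro β hβ w x hF hx e he
  obtain ⟨p, s, rfl⟩ := List.append_of_mem he
  have h1 : act β p x ∈ U β := hF x hx p ⟨e :: s, rfl⟩
  have h2 : act β (p ++ [e]) x ∈ U β := hF x hx (p ++ [e]) ⟨s, by simp⟩
  rw [act_append, act_cons, act_nil] at h2
  set y := act β p x with hy
  have hb := hβ.1
  have h3 : cc β * (β - 1) = ((mm β : ℝ) - (β - 1)) / 2 := by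
    unfold cc
    have : β - 1 ≠ 0 := by linarith
    field_simp
  have h4 : β < (mm β : ℝ) + 1 := Nat.lt_floor_add_one β
  have h5 := h1.2
  have h6 := h2.1
  have h7 : (e : ℝ) < (mm β : ℝ) + 1 := by
    have : β * y < β * (cc β + 1) := mul_lt_mul_of_pos_left h5 (by linarith)
    nlinarith
  have h8 : e < mm β + 1 := by exact_mod_cast h7
  omega

end Pool.Agent.Q314.BE
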