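import Pool.Agent.Q314.BE.Stmts

set_option autoImplicit false

/-!
MP_d3ee63_an: every product of blocks occurs in almost every point.
-/

namespace Pool.Agent.Q314.BE

open MeasureTheory Filter Topology Set

theorem entry_blk (β : ℝ) (w : List ℕ) (hw : w ≠ []) (x : ℝ) (h : blk β x = w) :
    act β w x ∈ U β ∧ S β x = act β w x := by
  have hS : S β x = act β w x := by simp only [S, h]
  refine ⟨?_, hS⟩
  unfold blk at h
  split_ifs at h with h'
  · have := (Classical.choose_spec h').2
    rwa [h] at this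
  · exact absurd h.symm hw

/-- the points whose first blocks are the words of `L`, and which are then in `B` -/
def PS (β : ℝ) : List (List ℕ) → Set ℝ → Set ℝ
  | [], B => B
  | u :: L, B => blk β ⁻¹' {u} ∩ S β ⁻¹' (PS β L B)

theorem PS_mono (β : ℝ) (L : List (List ℕ)) {A B : Set ℝ} (h : A ⊆ B) : PS β L A ⊆ PS β L B := by
  induction L with
  | nil => exact h
  | cons u L ih => exact inter_subset_inter_right _ (preimage_mono ih)

theorem PS_iter (β : ℝ) (L : List (List ℕ)) (B : Set ℝ) :
    ∀ x ∈ PS β L B, (S β)^[L.length] x ∈ B := by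
  induction L with
  | nil => intro x hx; exact hx
  | cons u L ih =>
    intro x hx
    rw [List.length_cons, Function.iterate_succ_apply]
    exact ih _ hx.2

theorem PS_act (β : ℝ) (L : List (List ℕ)) (hL : ∀ u ∈ L, u ≠ []) (B : Set ℝ) :
    ∀ x ∈ U β, x ∈ PS β L B → act β L.flatten x ∈ U β := by
  induction L with
  | nil => intro x hx _; exact hx
  | cons u L ih =>
    intro x hx hx'
    obtain ⟨h1, h2⟩ := entry_blk β u (hL u (by simp)) x hx'.1
    have h3 := ih (fun v hv => hL v (by simp [hv])) (S β x) (by rw [h2]; exact h1) hx'.2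
    rw [List.flatten_cons, act_append, ← h2]
    exact h3

theorem PS_meas (β : ℝ) (h1 : ∀ w, MeasurableSet (blk β ⁻¹' {w})) (h2 : Measurable (S β))
    (L : List (List ℕ)) (B : Set ℝ) (hB : MeasurableSet B) : MeasurableSet (PS β L B) := by
  induction L with
  | nil => exact hB
  | cons u L ih => exact (h1 u).inter (h2 ih)

theorem PS_mu (β : ℝ) (h1 : ∀ w, MeasurableSet (blk β ⁻¹' {w})) (h2 : Measurable (S β))
    (h3 : ∀ w B, MeasurableSet B →
      mu β (blk β ⁻¹' {w} ∩ S β ⁻¹' B) = mu β (blk β ⁻¹' {w}) * mu β B)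
    (L : List (List ℕ)) (B : Set ℝ) (hB : MeasurableSet B) :
    mu β (PS β L B) = (L.map (fun u => mu β (blk β ⁻¹' {u}))).prod * mu β B := by
  induction L with
  | nil => simp [PS]
  | cons u L ih =>
    have : PS β (u :: L) B = blk β ⁻¹' {u} ∩ S β ⁻¹' (PS β L B) := rfl
    rw [this, h3 u _ (PS_meas β h1 h2 L B hB), ih, List.map_cons, List.prod_cons, mul_assoc]

theorem taskEntry (_hU : TaskUniq) (_hF : TaskFullFlat) (hS : TaskS) : TaskEntry := by
  intro β hβ L hL
  obtain ⟨hprob, hbm, hSm, hmp, hind, -, hmass⟩ := hS β hβ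
  have hβ0 : 0 < β := by linarith [hβ.1]
  have hLne : ∀ u ∈ L, u ≠ [] := fun u hu => (hL u hu).1
  set P : Set ℝ := PS β L univ with hP
  have hPm : MeasurableSet P := PS_meas β hbm hSm L univ MeasurableSet.univ
  set N : Set ℝ := {x | ∀ j, (S β)^[j] x ∉ P} with hN
  have hNm : MeasurableSet N := by
    have : N = ⋂ j, ((S β)^[j] ⁻¹' P)ᶜ := by ext x; simp [hN]
    rw [this]
    exact MeasurableSet.iInter fun j => ((hSm.iterate j) hPm).compl
  have hmpr := hmp.iterate L.length
  have hsub : N ∪ PS β L N ⊆ (S β)^[L.length] ⁻¹' N := by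
    rintro x (hx | hx)
    · intro j
      rw [← Function.iterate_add_apply]
      exact hx _
    · exact PS_iter β L N x hx
  have hdisj : Disjoint N (PS β L N) := by
    rw [Set.disjoint_left]
    intro x hx hx'
    exact hx 0 (PS_mono β L (subset_univ N) hx')
  have hle : mu β N + mu β (PS β L N) ≤ mu β N := by
    rw [← measure_union hdisj (PS_meas β hbm hSm L N hNm)]
    calc mu β (N ∪ PS β L N) ≤ mu β ((S β)^[L.length] ⁻¹' N) := measure_mono hsub
      _ = mu β N := hmpr.measure_preimage hNm.nullMeasurableSet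
  have hfin : mu β N ≠ ⊤ := measure_ne_top _ _
  have hz : mu β (PS β L N) = 0 := by
    have : mu β N + mu β (PS β L N) ≤ mu β N + 0 := by simpa using hle
    exact le_antisymm ((ENNReal.add_le_add_iff_left hfin).1 this) zero_le
  rw [PS_mu β hbm hSm hind L N hNm] at hz
  have hq : (L.map (fun u => mu β (blk β ⁻¹' {u}))).prod ≠ 0 := by
    rw [Ne, List.prod_eq_zero_iff]
    intro h0
    obtain ⟨u, hu, hu0⟩ := List.mem_map.1 h0
    rw [hmass u (hL u hu)] at hu0
    have : 0 < (β ^ u.length)⁻¹ := by positivity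
    exact absurd hu0 (by simpa using this)
  have hN0 : mu β N = 0 := (mul_eq_zero.1 hz).resolve_left hq
  have hU : ∀ᵐ x ∂(mu β), x ∈ U β := ae_restrict_mem measurableSet_Ico
  have hUall : ∀ᵐ x ∂(mu β), ∀ j : ℕ, (S β)^[j] x ∈ U β := by
    rw [ae_all_iff]
    intro j
    exact (hmp.iterate j).quasiMeasurePreserving.ae hU
  have hNae : ∀ᵐ x ∂(mu β), x ∉ N := measure_eq_zero_iff_ae_notMem.1 hN0
  filter_upwards [hUall, hNae] with x hx1 hx2
  simp only [hN, mem_setOf_eq, not_forall, not_not] at hx2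
  obtain ⟨j, hj⟩ := hx2
  exact ⟨j, PS_act β L hLne univ _ (hx1 j) hj⟩

end Pool.Agent.Q314.BE
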