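import Pool.Agent.Q314.BE.TaskPrefix

set_option autoImplicit false

/-!
Digit frequencies of an infinite concatenation from the averages over the words.
-/

namespace Pool.Agent.Q314.BE

open MeasureTheory Filter Topology Set

theorem num_eq (ε : ℕ → ℕ) (e n : ℕ) : num ε e n = ((List.range n).map ε).count e := by
  induction n with
  | zero => simp [num]
  | succ n ih =>
    rw [List.range_succ, List.map_append, List.count_append, ← ih]
    unfold num
    rw [Finset.range_add_one, Finset.filter_insert]
    by_cases h : ε n = e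
    · rw [if_pos h, Finset.card_insert_of_notMem (by simp)]
      simp [h]
    · rw [if_neg h]
      simp [h]

theorem num_mono (ε : ℕ → ℕ) (e : ℕ) {n m : ℕ} (h : n ≤ m) : num ε e n ≤ num ε e m := by
  unfold num
  apply Finset.card_le_card
  apply Finset.filter_subset_filter
  exact Finset.range_mono h

theorem num_pre {B : ℕ → List ℕ} (hB : ∀ i, B i ≠ []) (e K : ℕ) :
    num (flat 0 B) e (pre B K).length = (pre B K).count e := by
  rw [num_eq]
  have h := taskPrefix ℕ 0 B hB K
  change (List.range (pre B K).length).map (flat 0 B) = pre B K at h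
  rw [h]

theorem pre_count (B : ℕ → List ℕ) (e K : ℕ) :
    ((pre B K).count e : ℝ) = ∑ i ∈ Finset.range K, cnt e (B i) := by
  induction K with
  | zero => simp [pre]
  | succ K ih =>
    rw [pre_succ, List.count_append, Nat.cast_add, ih, Finset.sum_range_succ]
    rfl

theorem pre_len (B : ℕ → List ℕ) (K : ℕ) :
    ((pre B K).length : ℝ) = ∑ i ∈ Finset.range K, ((B i).length : ℝ) := by
  induction K with
  | zero => simp [pre]
  | succ K ih =>
    rw [pre_succ, List.length_append, Nat.cast_add, ih, Finset.sum_range_succ]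

theorem taskFreq : TaskFreq := by
  intro B e a l hB hl ha hlen
  -- the lengths and the counts
  obtain ⟨len, hlend⟩ : ∃ len : ℕ → ℕ, ∀ K, len K = (pre B K).length := ⟨_, fun _ => rfl⟩
  obtain ⟨c, hc⟩ : ∃ c : ℕ → ℕ, ∀ K, c K = (pre B K).count e := ⟨_, fun _ => rfl⟩
  have hlK : ∀ K, K ≤ len K := fun K => by rw [hlend]; exact pre_length_le hB K
  have hmono : Monotone len := by
    apply monotone_nat_of_le_succ
    intro K
    rw [hlend, hlend, pre_succ, List.length_append]
    omega
  have h1 : Tendsto (fun K : ℕ => (len K : ℝ) / K) atTop (𝓝 l) := by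
    refine hlen.congr fun K => ?_
    rw [hlend, pre_len]
  have h2 : Tendsto (fun K : ℕ => (c K : ℝ) / K) atTop (𝓝 a) := by
    refine ha.congr fun K => ?_
    rw [hc, pre_count]
  have h3 : Tendsto (fun K : ℕ => ((K + 1 : ℕ) : ℝ) / K) atTop (𝓝 1) := by
    have h := tendsto_one_div_atTop_nhds_zero_nat.const_add (1 : ℝ)
    rw [add_zero] at h
    refine h.congr' ?_
    filter_upwards [eventually_ge_atTop 1] with K hK
    have : (K : ℝ) ≠ 0 := by positivity
    push_cast
    field_simp
  have h1' : Tendsto (fun K : ℕ => (len (K + 1) : ℝ) / K) atTop (𝓝 l) := by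
    have h := ((tendsto_add_atTop_iff_nat 1).2 h1).mul h3
    rw [mul_one] at h
    refine h.congr' ?_
    filter_upwards [eventually_ge_atTop 1] with K hK
    have : (K : ℝ) ≠ 0 := by positivity
    have h' : ((K + 1 : ℕ) : ℝ) ≠ 0 := by positivity
    field_simp
  have h2' : Tendsto (fun K : ℕ => (c (K + 1) : ℝ) / K) atTop (𝓝 a) := by
    have h := ((tendsto_add_atTop_iff_nat 1).2 h2).mul h3
    rw [mul_one] at h
    refine h.congr' ?_
    filter_upwards [eventually_ge_atTop 1] with K hK
    have : (K : ℝ) ≠ 0 := by positivity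
    have h' : ((K + 1 : ℕ) : ℝ) ≠ 0 := by positivity
    field_simp
  have g1 : Tendsto (fun K : ℕ => (c K : ℝ) / len (K + 1)) atTop (𝓝 (a / l)) := by
    refine (h2.div h1' hl.ne').congr' ?_
    filter_upwards [eventually_ge_atTop 1] with K hK
    have : (K : ℝ) ≠ 0 := by positivity
    simp only [Pi.div_apply]
    rw [div_div_div_cancel_right₀ this]
  have g2 : Tendsto (fun K : ℕ => (c (K + 1) : ℝ) / len K) atTop (𝓝 (a / l)) := by
    refine (h2'.div h1 hl.ne').congr' ?_
    filter_upwards [eventually_ge_atTop 1] with K hK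
    have : (K : ℝ) ≠ 0 := by positivity
    simp only [Pi.div_apply]
    rw [div_div_div_cancel_right₀ this]
  -- the index of the word
  have hex : ∀ n : ℕ, ∃ K, n < len (K + 1) := fun n => ⟨n, by have := hlK (n + 1); omega⟩
  obtain ⟨κ, hκ1, hκ2⟩ : ∃ κ : ℕ → ℕ, (∀ n, n < len (κ n + 1)) ∧ ∀ n, len (κ n) ≤ n := by
    refine ⟨fun n => Nat.find (hex n), fun n => Nat.find_spec (hex n), fun n => ?_⟩
    change len (Nat.find (hex n)) ≤ n
    by_contra hcon
    rcases Nat.eq_zero_or_pos (Nat.find (hex n)) with h0 | h0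
    · rw [h0, hlend] at hcon
      simp [pre] at hcon
    · have h5 := Nat.find_min (hex n) (m := Nat.find (hex n) - 1) (by omega)
      apply h5
      rw [Nat.sub_add_cancel h0]
      omega
  have hκ : Tendsto κ atTop atTop := by
    rw [tendsto_atTop]
    intro b
    filter_upwards [eventually_ge_atTop (len b)] with n hn
    by_contra hcon
    have h5 : κ n + 1 ≤ b := by omega
    have h6 := hmono h5
    have h7 := hκ1 n
    omega
  have hnum1 : ∀ n, c (κ n) ≤ num (flat 0 B) e n := by
    intro n
    rw [hc, ← num_pre hB]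
    apply num_mono
    rw [← hlend]
    exact hκ2 n
  have hnum2 : ∀ n, num (flat 0 B) e n ≤ c (κ n + 1) := by
    intro n
    rw [hc, ← num_pre hB]
    apply num_mono
    rw [← hlend]
    exact (hκ1 n).le
  refine tendsto_of_tendsto_of_tendsto_of_le_of_le' (g1.comp hκ) (g2.comp hκ) ?_ ?_
  · filter_upwards [eventually_ge_atTop 1] with n hn
    simp only [Function.comp_apply]
    have h5 : (0 : ℝ) < n := by exact_mod_cast hn
    have h6 : (n : ℝ) ≤ len (κ n + 1) := by exact_mod_cast (hκ1 n).le
    have h7 : (c (κ n) : ℝ) ≤ num (flat 0 B) e n := by exact_mod_cast hnum1 n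
    exact div_le_div₀ (Nat.cast_nonneg _) h7 h5 h6
  · filter_upwards [hκ.eventually_ge_atTop 1] with n hn
    simp only [Function.comp_apply]
    have h8 : 1 ≤ len (κ n) := le_trans hn (hlK _)
    have h5 : (0 : ℝ) < len (κ n) := by exact_mod_cast h8
    have h6 : (len (κ n) : ℝ) ≤ n := by exact_mod_cast hκ2 n
    have h7 : (num (flat 0 B) e n : ℝ) ≤ c (κ n + 1) := by exact_mod_cast hnum2 n
    exact div_le_div₀ (Nat.cast_nonneg _) h7 h5 h6

end Pool.Agent.Q314.BE
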