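import Pool.Agent.Q314.BE.TaskRet

set_option autoImplicit false

namespace Pool.Agent.Q314.BE

open MeasureTheory Filter Topology Set

namespace IbetaAux

theorem act_zero (β : ℝ) (j : ℕ) (z : ℝ) : act β (List.replicate j 0) z = β ^ j * z := by
  have := RetAux.act_replicate β 0 0 (by simp) j z
  rw [this]; ring

/-- every interior point is led to `U` -/
theorem exists_word (β : ℝ) (h : Ok β) (x : ℝ) (h0 : 0 < x) (h1 : x < 1 + 2 * cc β) :
    ∃ w : List ℕ, (∀ e ∈ w, e ≤ mm β) ∧ act β w x ∈ U β := by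
  obtain ⟨hc, hb, hF, -⟩ := RetAux.cc_facts β h
  by_cases hx1 : cc β + 1 ≤ x
  · obtain ⟨J, hJ⟩ := RetAux.exists_ret β h (1 + 2 * cc β - x) (by linarith)
    obtain ⟨j, -, hj⟩ := hJ x hx1 (by linarith)
    refine ⟨List.replicate j (mm β), ?_, hj⟩
    intro e he
    rw [List.eq_of_mem_replicate he]
  by_cases hx2 : cc β ≤ x
  · refine ⟨[], by simp, ?_⟩
    rw [act_nil]
    exact ⟨hx2, not_le.1 hx1⟩
  · obtain ⟨J, hJ⟩ := pow_unbounded_of_one_lt (cc β / x) (show (1 : ℝ) < β by linarith [h.1])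
    rw [div_lt_iff₀ h0] at hJ
    obtain ⟨j, -, hj1, hj2⟩ := RetAux.first_pow β h x J (not_le.1 hx2).le hJ
    refine ⟨List.replicate j 0, ?_, ?_⟩
    · intro e he
      rw [List.eq_of_mem_replicate he]
      exact Nat.zero_le _
    · rw [act_zero]
      exact ⟨hj1.le, by linarith⟩

end IbetaAux

theorem taskIbeta (hScale : TaskScale) : TaskIbeta := by
  intro β h Z hZ
  obtain ⟨hc, hb, hF, he⟩ := RetAux.cc_facts β h
  have hβ : (1 : ℝ) < β := by linarith [h.1]
  -- the exceptional set in `U`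
  have hN : volume (U β ∩ Zᶜ) = 0 := by
    unfold mu at hZ
    rw [ae_restrict_iff' (by unfold U; exact measurableSet_Ico)] at hZ
    rw [ae_iff] at hZ
    refine measure_mono_null ?_ hZ
    rintro x ⟨hx1, hx2⟩
    simp only [Set.mem_setOf_eq, not_forall]
    exact ⟨hx1, hx2⟩
  have hall : ∀ w : List ℕ, ∀ᵐ x ∂(volume : Measure ℝ), act β w x ∉ U β ∩ Zᶜ := by
    intro w
    rw [ae_iff]
    have hM := hScale β hβ w (toMeasurable volume (U β ∩ Zᶜ)) (measurableSet_toMeasurable _ _)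
    refine measure_mono_null ?_ (show volume {x | act β w x ∈ toMeasurable volume (U β ∩ Zᶜ)} = 0
      from ?_)
    · intro x hx
      simp only [Set.mem_setOf_eq, not_not] at hx ⊢
      exact subset_toMeasurable _ _ hx
    · rw [hM.2, measure_toMeasurable, hN, mul_zero]
  have hall2 : ∀ᵐ x ∂(volume : Measure ℝ), ∀ w : List ℕ, act β w x ∉ U β ∩ Zᶜ :=
    ae_all_iff.2 hall
  have h0 : ∀ᵐ x ∂(volume : Measure ℝ), x ≠ 0 := by
    rw [ae_iff]; simp
  have h1 : ∀ᵐ x ∂(volume : Measure ℝ), x ≠ 1 + 2 * cc β := by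
    rw [ae_iff]; simp
  rw [he]
  rw [ae_restrict_iff' measurableSet_Icc]
  filter_upwards [hall2, h0, h1] with x hx hx0 hx1 hxI
  obtain ⟨w, hw1, hw2⟩ := IbetaAux.exists_word β h x (lt_of_le_of_ne hxI.1 (Ne.symm hx0))
    (lt_of_le_of_ne hxI.2 hx1)
  refine ⟨w, hw1, ?_⟩
  by_contra hcon
  exact hx w ⟨hw2, hcon⟩

end Pool.Agent.Q314.BE
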