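import Pool.Agent.Q314.BE.Stmts

set_option autoImplicit false

namespace Pool.Agent.Q314.BE

theorem flat_get (hP : TaskPrefix) {α : Type} (d : α) (L : ℕ → List α) (hL : ∀ k, L k ≠ [])
    (K i : ℕ) (l : List α) (hl : ((List.range K).map L).flatten = l) (hi : i < l.length) :
    flat d L i = l[i] := by
  have h := hP α d L hL K
  rw [hl] at h
  have h2 : ((List.range l.length).map (flat d L))[i]? = l[i]? := by rw [h]
  rw [List.getElem?_map, List.getElem?_range hi, List.getElem?_eq_getElem hi] at h2
  simpa using h2

theorem length_ge {α : Type} (L : ℕ → List α) (hL : ∀ k, L k ≠ []) (K : ℕ) :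
    K ≤ ((List.range K).map L).flatten.length := by
  induction K with
  | zero => simp
  | succ K ih =>
    rw [List.range_succ, List.map_append, List.flatten_append, List.length_append]
    have : 0 < (L K).length := List.length_pos_of_ne_nil (hL K)
    simp
    simp at ih
    omega

theorem taskInj (hP : TaskPrefix) : TaskInj := by
  intro L L' k P v r hL hL' hj hk hk' heq
  have hne : ∀ (M : ℕ → List (List ℕ)), (∀ i, M i ≠ [] ∧ ∀ u ∈ M i, u ≠ []) →
      ∀ i, flat [] M i ≠ [] := by
    intro M hM i
    have hlen := length_ge M (fun k => (hM k).1) (i + 1)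
    have hi : i < ((List.range (i + 1)).map M).flatten.length := by omega
    rw [flat_get hP [] M (fun k => (hM k).1) (i + 1) i _ rfl hi]
    have hmem := List.getElem_mem hi
    rw [List.mem_flatten] at hmem
    obtain ⟨l, hl, hmem⟩ := hmem
    rw [List.mem_map] at hl
    obtain ⟨j, -, rfl⟩ := hl
    exact (hM j).2 _ hmem
  have hB := hne L hL
  have hB' := hne L' hL'
  set B := flat [] L with hBdef
  set B' := flat [] L' with hB'def
  set Q := ((List.range k).map L).flatten with hQ
  have hQ' : ((List.range k).map L').flatten = Q := by
    rw [hQ]
    congr 1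
    apply List.map_congr_left
    intro j hjk
    exact (hj j (List.mem_range.1 hjk)).symm
  have h1 : ((List.range (k + 1)).map L).flatten = (Q ++ P) ++ [1 :: v] := by
    rw [List.range_succ, List.map_append, List.flatten_append, ← hQ]
    simp [hk]
  have h1' : ((List.range (k + 1)).map L').flatten = (Q ++ P) ++ [0 :: r] := by
    rw [List.range_succ, List.map_append, List.flatten_append, hQ']
    simp [hk']
  set N := (Q ++ P).length with hN
  have hBi : ∀ i < N, B i = B' i := by
    intro i hi
    have hlt : i < ((Q ++ P) ++ [1 :: v]).length := by
      rw [List.length_append]; omega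
    have hlt' : i < ((Q ++ P) ++ [0 :: r]).length := by
      rw [List.length_append]; omega
    rw [hBdef, hB'def, flat_get hP [] L (fun k => (hL k).1) (k + 1) i _ h1 hlt,
      flat_get hP [] L' (fun k => (hL' k).1) (k + 1) i _ h1' hlt',
      List.getElem_append_left hi, List.getElem_append_left hi]
  have hBN : B N = 1 :: v := by
    have hlt : N < ((Q ++ P) ++ [1 :: v]).length := by
      rw [List.length_append, List.length_singleton]; omega
    rw [hBdef, flat_get hP [] L (fun k => (hL k).1) (k + 1) N _ h1 hlt]
    rw [List.getElem_append_right (le_refl _)]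
    simp
  have hBN' : B' N = 0 :: r := by
    have hlt : N < ((Q ++ P) ++ [0 :: r]).length := by
      rw [List.length_append, List.length_singleton]; omega
    rw [hB'def, flat_get hP [] L' (fun k => (hL' k).1) (k + 1) N _ h1' hlt]
    rw [List.getElem_append_right (le_refl _)]
    simp
  set W := ((List.range N).map B).flatten with hW
  have hW' : ((List.range N).map B').flatten = W := by
    rw [hW]
    congr 1
    apply List.map_congr_left
    intro j hjk
    exact (hBi j (List.mem_range.1 hjk)).symm
  have h2 : ((List.range (N + 1)).map B).flatten = W ++ (1 :: v) := by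
    rw [List.range_succ, List.map_append, List.flatten_append, ← hW]
    simp [hBN]
  have h2' : ((List.range (N + 1)).map B').flatten = W ++ (0 :: r) := by
    rw [List.range_succ, List.map_append, List.flatten_append, hW']
    simp [hBN']
  have hlt : W.length < (W ++ (1 :: v)).length := by
    rw [List.length_append, List.length_cons]; omega
  have hlt' : W.length < (W ++ (0 :: r)).length := by
    rw [List.length_append, List.length_cons]; omega
  have e1 := flat_get hP 0 B hB (N + 1) W.length _ h2 hlt
  have e2 := flat_get hP 0 B' hB' (N + 1) W.length _ h2' hlt'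
  rw [List.getElem_append_right (le_refl _)] at e1 e2
  simp at e1 e2
  rw [heq, e2] at e1
  exact absurd e1 (by norm_num)

end Pool.Agent.Q314.BE
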