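import Pool.Agent.Q314.BE.Stmts

set_option autoImplicit false

/-!
MP_d3ee63_an: the length of the first block is integrable.
-/

namespace Pool.Agent.Q314.BE

open MeasureTheory Filter Topology Set

/-- if a first full word of length at most `n` fits, the block has length at most `n` -/
theorem blk_length_le (hUniq : TaskUniq) {β : ℝ} (hβ : Ok β) {x : ℝ} {w : List ℕ} (hw : FF β w)
    (hx : act β w x ∈ U β) : blk β x = w := by
  classical
  have h : ∃ w, FF β w ∧ act β w x ∈ U β := ⟨w, hw, hx⟩
  have hb : blk β x = Classical.choose h := by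
    unfold blk
    rw [dif_pos h]
  have hc := Classical.choose_spec h
  rw [hb]
  exact hUniq β hβ _ _ x hc.1 hw hc.2 hx

theorem measurable_blk (hS : TaskS) {β : ℝ} (hβ : Ok β) (f : List ℕ → ℝ) :
    Measurable (fun x => f (blk β x)) := by
  have h1 := (hS β hβ).2.1
  letI : MeasurableSpace (List ℕ) := ⊤
  have h2 : Measurable (blk β) := measurable_to_countable' h1
  exact (measurable_from_top (f := f)).comp h2

theorem tail_le (hUniq : TaskUniq) (hCover : TaskCover) {β : ℝ} (hβ : Ok β) (n : ℕ) :
    mu β {x | n < (blk β x).length} ≤ ENNReal.ofReal ((2 / β) ^ n) := by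
  refine le_trans ?_ (hCover β hβ n)
  unfold mu
  have hU : MeasurableSet (U β) := by unfold U; exact measurableSet_Ico
  rw [Measure.restrict_apply' hU]
  refine measure_mono ?_
  rintro x ⟨hx, hxU⟩
  refine ⟨hxU, fun w hw hwn hwx => ?_⟩
  rw [mem_setOf_eq, blk_length_le hUniq hβ hw hwx] at hx
  omega

theorem taskInt (hUniq : TaskUniq) (hCover : TaskCover) (hS : TaskS) : TaskInt := by
  intro β hβ
  have hint : Integrable (fun x => ((blk β x).length : ℝ)) (mu β) := by
    refine ⟨(measurable_blk hS hβ fun w => (w.length : ℝ)).aestronglyMeasurable, ?_⟩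
    unfold HasFiniteIntegral
    have e1 : ∀ x, ‖((blk β x).length : ℝ)‖ₑ =
        ∑' n : ℕ, {x | n < (blk β x).length}.indicator (fun _ => (1 : ENNReal)) x := by
      intro x
      rw [tsum_eq_sum (s := Finset.range (blk β x).length)]
      · rw [Finset.sum_congr rfl (g := fun _ => (1 : ENNReal))]
        · simp
        · intro n hn
          rw [Finset.mem_range] at hn
          exact indicator_of_mem (by exact hn) _
      · intro n hn
        rw [Finset.mem_range] at hn
        exact indicator_of_notMem (by exact hn) _
    have hm : ∀ n : ℕ, MeasurableSet {x | n < (blk β x).length} := by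
      intro n
      have := measurable_blk hS hβ fun w => (w.length : ℝ)
      have h2 : {x | n < (blk β x).length} = (fun x => ((blk β x).length : ℝ)) ⁻¹' Ioi (n : ℝ) := by
        ext x
        simp
      rw [h2]
      exact this measurableSet_Ioi
    have hβ2 : 2 < β := hβ.1
    have hr : ENNReal.ofReal (2 / β) < 1 := by
      rw [ENNReal.ofReal_lt_one]
      rw [div_lt_one (by linarith)]
      exact hβ2
    calc ∫⁻ x, ‖((blk β x).length : ℝ)‖ₑ ∂(mu β)
        = ∫⁻ x, ∑' n : ℕ, {x | n < (blk β x).length}.indicator (fun _ => (1 : ENNReal)) x ∂(mu β) :=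
          lintegral_congr e1
      _ = ∑' n : ℕ, ∫⁻ x, {x | n < (blk β x).length}.indicator (fun _ => (1 : ENNReal)) x ∂(mu β) := by
          refine lintegral_tsum fun n => ?_
          exact (measurable_const.indicator (hm n)).aemeasurable
      _ = ∑' n : ℕ, mu β {x | n < (blk β x).length} := by
          refine tsum_congr fun n => ?_
          rw [lintegral_indicator (hm n)]
          simp
      _ ≤ ∑' n : ℕ, ENNReal.ofReal (2 / β) ^ n := by
          refine ENNReal.tsum_le_tsum fun n => ?_
          rw [← ENNReal.ofReal_pow (by positivity)]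
          exact tail_le hUniq hCover hβ n
      _ = (1 - ENNReal.ofReal (2 / β))⁻¹ := ENNReal.tsum_geometric _
      _ < ⊤ := by
          rw [ENNReal.inv_lt_top]
          exact tsub_pos_of_lt hr
  refine ⟨hint, fun e => ?_⟩
  refine hint.mono' (measurable_blk hS hβ fun w => cnt e w).aestronglyMeasurable ?_
  refine Eventually.of_forall fun x => ?_
  unfold cnt
  rw [Real.norm_of_nonneg (Nat.cast_nonneg _)]
  exact_mod_cast List.count_le_length

end Pool.Agent.Q314.BE
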