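import Pool.Agent.Q314.BE.Stmts

set_option autoImplicit false

namespace Pool.Agent.Q314.BE

open MeasureTheory Filter Topology Set

theorem MeanLen.len_sum (m : ℕ) : ∀ w : List ℕ, (∀ e ∈ w, e ≤ m) →
    (w.length : ℝ) = ∑ e ∈ Finset.range (m + 1), cnt e w := by
  intro w
  induction w with
  | nil => intro _; simp [cnt]
  | cons a w ih =>
    intro h
    have h1 := ih (fun e he => h e (List.mem_cons_of_mem _ he))
    have h2 : a ≤ m := h a (by simp)
    have h3 : ∀ e, cnt e (a :: w) = cnt e w + if a = e then 1 else 0 := by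
      intro e
      unfold cnt
      rw [List.count_cons]
      by_cases hae : a = e <;> simp [hae]
    simp only [h3, Finset.sum_add_distrib, Finset.sum_ite_eq, Finset.mem_range]
    rw [if_pos (by omega), ← h1]
    simp

theorem taskMeanLen (hD : TaskDigits) (hS : TaskS) (hI : TaskInt) : TaskMeanLen := by
  intro β hβ
  obtain ⟨hP, -, -, -, -, hne, -⟩ := hS β hβ
  obtain ⟨hi1, hi2⟩ := hI β hβ
  have hdig : ∀ x, ∀ e ∈ blk β x, e ≤ mm β := by
    intro x
    unfold blk
    split_ifs with h
    · have h1 := Classical.choose_spec h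
      exact hD β hβ _ x h1.1.2.1 h1.2
    · intro e he
      simp at he
  constructor
  · have h1 : ∀ x, ((blk β x).length : ℝ) =
        ∑ e ∈ Finset.range (mm β + 1), cnt e (blk β x) := fun x =>
      MeanLen.len_sum (mm β) _ (hdig x)
    simp only [h1]
    rw [integral_finsetSum _ (fun e _ => hi2 e)]
    rfl
  · have h1 : ∫ _x, (1 : ℝ) ∂(mu β) ≤ ∫ x, ((blk β x).length : ℝ) ∂(mu β) := by
      apply integral_mono_ae (integrable_const _) hi1
      filter_upwards [hne] with x hx
      have h2 : 1 ≤ (blk β x).length := List.length_pos_iff.2 hx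
      exact_mod_cast h2
    rw [integral_const] at h1
    simp at h1
    linarith

end Pool.Agent.Q314.BE
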