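import Pool.Agent.Q314.BE.Stmts

set_option autoImplicit false

/-!
MP_d3ee63_an: the mean numbers of the digits `e` and `m - e` in a block are equal.
-/

namespace Pool.Agent.Q314.BE.TMeanSym

open MeasureTheory Filter Topology Set

theorem act_surj {β : ℝ} (hβ : β ≠ 0) (w : List ℕ) : ∀ y, ∃ x, act β w x = y := by
  induction w with
  | nil => exact fun y => ⟨y, rfl⟩
  | cons e w ih =>
    intro y
    obtain ⟨z, hz⟩ := ih y
    refine ⟨(z + e) / β, ?_⟩
    rw [act_cons, mul_div_cancel₀ _ hβ, add_sub_cancel_right, hz]

theorem map_map_self (m : ℕ) (w : List ℕ) (h : ∀ e ∈ w, e ≤ m) :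
    (w.map (fun e => m - e)).map (fun e => m - e) = w := by
  induction w with
  | nil => rfl
  | cons a w ih =>
    have h1 : a ≤ m := h a (by simp)
    have h2 := ih fun e he => h e (by simp [he])
    simp only [List.map_cons]
    rw [h2]
    congr 1
    omega

theorem count_map_self (m e : ℕ) (he : e ≤ m) (w : List ℕ) (h : ∀ e ∈ w, e ≤ m) :
    (w.map (fun a => m - a)).count e = w.count (m - e) := by
  induction w with
  | nil => rfl
  | cons a w ih =>
    have h1 : a ≤ m := h a (by simp)
    have h2 := ih fun e he => h e (by simp [he])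
    simp only [List.map_cons, List.count_cons, h2]
    congr 1
    have : (m - a == e) = (a == m - e) := by
      rw [Bool.eq_iff_iff, beq_iff_eq, beq_iff_eq]
      omega
    rw [this]

end Pool.Agent.Q314.BE.TMeanSym

namespace Pool.Agent.Q314.BE

open MeasureTheory Filter Topology Set TMeanSym

theorem taskMeanSym (hD : TaskDigits) (hSy : TaskSym) (hS : TaskS) (hI : TaskInt) :
    TaskMeanSym := by
  intro β hβ e he
  classical
  obtain ⟨hprob, hmeas, -, -, -, hne, hval⟩ := hS β hβ
  letI : MeasurableSpace (List ℕ) := ⊤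
  haveI : MeasurableSingletonClass (List ℕ) := ⟨fun _ => trivial⟩
  have hb : Measurable (blk β) := measurable_to_countable' fun w => hmeas w
  have hform : ∀ e, mean β e = ∑' w : List ℕ, (mu β).real (blk β ⁻¹' {w}) * cnt e w := by
    intro e
    have hcm : Measurable (cnt e) := fun _ _ => trivial
    have h1 : mean β e = ∫ w, cnt e w ∂((mu β).map (blk β)) := by
      rw [integral_map hb.aemeasurable hcm.aestronglyMeasurable]
      rfl
    have h2 : Integrable (cnt e) ((mu β).map (blk β)) :=
      (integrable_map_measure hcm.aestronglyMeasurable hb.aemeasurable).2 ((hI β hβ).2 e)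
    rw [h1, integral_countable' h2]
    refine tsum_congr fun w => ?_
    rw [map_measureReal_apply hb (measurableSet_singleton w), smul_eq_mul]
  -- words which are not first full blocks
  have hzero : ∀ w, ¬ FF β w → (mu β).real (blk β ⁻¹' {w}) = 0 := by
    intro w hw
    by_cases hw0 : w = []
    · subst hw0
      have h1 : (mu β) (blk β ⁻¹' {[]}) = 0 := by
        rw [ae_iff] at hne
        refine measure_mono_null (fun x hx => ?_) hne
        simpa using hx
      rw [measureReal_def, h1]
      rfl
    · have h1 : blk β ⁻¹' {w} = ∅ := by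
        rw [Set.eq_empty_iff_forall_notMem]
        intro x hx
        rw [Set.mem_preimage, Set.mem_singleton_iff] at hx
        unfold blk at hx
        split_ifs at hx with h
        · exact hw (hx ▸ (Classical.choose_spec h).1)
        · exact hw0 hx.symm
      rw [h1]
      simp
  have hβ0 : β ≠ 0 := by
    have := hβ.1
    linarith
  have hdig : ∀ w, FF β w → ∀ e ∈ w, e ≤ mm β := by
    intro w hw
    obtain ⟨x, hx⟩ := act_surj hβ0 w (cc β)
    exact hD β hβ w x hw.2.1 (by
      rw [hx]
      exact ⟨le_rfl, by linarith⟩)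
  let R : {w // FF β w} ≃ {w // FF β w} :=
    { toFun := fun w => ⟨w.1.map (fun e => mm β - e), hSy β hβ w.1 (hdig w.1 w.2) w.2⟩
      invFun := fun w => ⟨w.1.map (fun e => mm β - e), hSy β hβ w.1 (hdig w.1 w.2) w.2⟩
      left_inv := fun w => Subtype.ext (map_map_self _ _ (hdig w.1 w.2))
      right_inv := fun w => Subtype.ext (map_map_self _ _ (hdig w.1 w.2)) }
  have hsub : ∀ e, mean β e = ∑' w : {w // FF β w}, (mu β).real (blk β ⁻¹' {w.1}) * cnt e w.1 := by
    intro e
    rw [hform e]
    symm
    refine tsum_subtype_eq_of_support_subset (s := {w | FF β w})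
      (f := fun w => (mu β).real (blk β ⁻¹' {w}) * cnt e w) ?_
    intro w hw
    by_contra hcon
    apply hw
    show (mu β).real (blk β ⁻¹' {w}) * cnt e w = 0
    rw [hzero w hcon, zero_mul]
  rw [hsub e, hsub (mm β - e)]
  rw [← R.tsum_eq]
  refine tsum_congr fun w => ?_
  show (mu β).real (blk β ⁻¹' {(R w).1}) * cnt e (R w).1 = _
  have h1 : (mu β).real (blk β ⁻¹' {(R w).1}) = (mu β).real (blk β ⁻¹' {w.1}) := by
    rw [measureReal_def, measureReal_def, hval _ (R w).2, hval _ w.2]
    have : (R w).1.length = w.1.length := List.length_map _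
    rw [this]
  have h2 : cnt e (R w).1 = cnt (mm β - e) w.1 := by
    unfold cnt
    exact_mod_cast congrArg (Nat.cast : ℕ → ℝ) (count_map_self (mm β) e he w.1 (hdig w.1 w.2))
  rw [h1, h2]

end Pool.Agent.Q314.BE
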