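import Pool.Agent.Q314.BE.Stmts

set_option autoImplicit false

/-!
MP_d3ee63_an: a product of blocks whose cylinder lies in `[c, 2c - η]`.
-/

namespace Pool.Agent.Q314.BE

open MeasureTheory Filter Topology Set

namespace TN

theorem act_sub (β : ℝ) (w : List ℕ) (x y : ℝ) :
    act β w x - act β w y = β ^ w.length * (x - y) := by
  induction w generalizing x y with
  | nil => simp [act_nil]
  | cons e w ih =>
    rw [act_cons, act_cons, ih, List.length_cons, pow_succ]
    ring

theorem blk_spec {β x : ℝ} (h : blk β x ≠ []) : FF β (blk β x) ∧ act β (blk β x) x ∈ U β := by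
  unfold blk at h ⊢
  split_ifs at h ⊢ with h1
  · exact Classical.choose_spec h1
  · exact absurd rfl h

theorem act_flat (β x : ℝ) (n : ℕ) :
    act β ((List.range n).map (fun i => blk β ((S β)^[i] x))).flatten x = (S β)^[n] x := by
  induction n with
  | zero => simp [act_nil]
  | succ n ih =>
    rw [List.range_succ, List.map_append, List.flatten_append, act_append, ih,
      Function.iterate_succ_apply']
    simp [S]

theorem len_flat (L : List (List ℕ)) (h : ∀ u ∈ L, u ≠ []) : L.length ≤ L.flatten.length := by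
  induction L with
  | nil => simp
  | cons a L ih =>
    have h1 : a ≠ [] := h a (by simp)
    have h2 := ih (fun u hu => h u (by simp [hu]))
    have h3 : 1 ≤ a.length := List.length_pos_iff.mpr h1
    simp only [List.flatten_cons, List.length_append, List.length_cons]
    omega

theorem cc_pos {β : ℝ} (h : Ok β) : 0 < cc β ∧ cc β < 1 := by
  obtain ⟨h2, hk⟩ := h
  have hb : (0 : ℝ) < β - 1 := by linarith
  have h1 : (mm β : ℝ) ≤ β := Nat.floor_le (by linarith)
  have h3 : β < (mm β : ℝ) + 1 := Nat.lt_floor_add_one β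
  constructor
  · have : 1 < (mm β : ℝ) / (β - 1) := by
      rw [lt_div_iff₀ hb]; linarith
    unfold cc; linarith
  · have : (mm β : ℝ) / (β - 1) < 3 := by
      rw [div_lt_iff₀ hb]; linarith
    unfold cc; linarith

end TN

open TN in
theorem taskNear (hS : TaskS) : TaskNear := by
  intro β hβ
  obtain ⟨hc0, hc1⟩ := cc_pos hβ
  obtain ⟨hP, -, hSm, hmp, -, hne, -⟩ := hS β hβ
  have h2 : (2 : ℝ) < β := hβ.1
  -- almost every point has nonempty blocks
  have hall : ∀ᵐ x ∂(mu β), ∀ i : ℕ, blk β ((S β)^[i] x) ≠ [] := by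
    rw [ae_all_iff]
    intro i
    exact (hmp.iterate i).quasiMeasurePreserving.ae hne
  have hsub : Ioo (cc β) (2 * cc β) ⊆ U β := by
    intro x hx
    exact ⟨hx.1.le, by linarith [hx.2]⟩
  have hpos : mu β (Ioo (cc β) (2 * cc β)) ≠ 0 := by
    unfold mu
    rw [Measure.restrict_apply measurableSet_Ioo, inter_eq_self_of_subset_left hsub,
      Real.volume_Ioo]
    simp only [ne_eq, ENNReal.ofReal_eq_zero, not_le]
    linarith
  obtain ⟨x, hxI, hx⟩ : ∃ x, x ∈ Ioo (cc β) (2 * cc β) ∧ ∀ i : ℕ, blk β ((S β)^[i] x) ≠ [] := by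
    by_contra hcon
    push Not at hcon
    apply hpos
    refine measure_mono_null ?_ hall
    intro x hx
    simp only [mem_compl_iff, mem_setOf_eq, not_forall, not_not]
    exact hcon x hx
  obtain ⟨n, hn⟩ : ∃ n : ℕ, (1 / β) ^ n < min (x - cc β) ((2 * cc β - x) / 2) := by
    apply exists_pow_lt_of_lt_one
    · rw [lt_min_iff]; exact ⟨by linarith [hxI.1], by linarith [hxI.2]⟩
    · rw [div_lt_one (by linarith)]; linarith
  rw [lt_min_iff] at hn
  set L : List (List ℕ) := (List.range (n + 1)).map (fun i => blk β ((S β)^[i] x)) with hL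
  have hLF : ∀ u ∈ L, FF β u := by
    intro u hu
    rw [hL, List.mem_map] at hu
    obtain ⟨i, -, rfl⟩ := hu
    exact (blk_spec (hx i)).1
  have hlen : n + 1 ≤ L.flatten.length := by
    have := len_flat L (fun u hu => (hLF u hu).1)
    simpa [hL] using this
  refine ⟨L, hLF, (2 * cc β - x) / 2, by linarith [hxI.2], ?_⟩
  intro y hy
  have hxy := act_sub β L.flatten x y
  have hxU : act β L.flatten x ∈ U β := by
    rw [hL, act_flat, Function.iterate_succ_apply']
    exact (blk_spec (hx n)).2
  have hpw : (0 : ℝ) < β ^ L.flatten.length := by positivity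
  have hle : (1 / β) ^ L.flatten.length ≤ (1 / β) ^ n := by
    apply pow_le_pow_of_le_one (by positivity)
    · rw [div_le_one (by linarith)]; linarith
    · omega
  have habs : |x - y| ≤ (1 / β) ^ L.flatten.length := by
    have h3 : |act β L.flatten x - act β L.flatten y| ≤ 1 := by
      rw [abs_le]
      constructor <;> linarith [hxU.1, hxU.2, hy.1, hy.2]
    rw [hxy, abs_mul, abs_of_pos hpw] at h3
    rw [one_div, inv_pow, ← one_div, le_div_iff₀ hpw]
    linarith
  have h5 := abs_le.mp (habs.trans hle)
  constructor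
  · linarith [hn.1]
  · linarith [hn.2]

end Pool.Agent.Q314.BE
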