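import Pool.Agent.Q314.BE.Stmts

set_option autoImplicit false

namespace Pool.Agent.Q314.BE

open MeasureTheory Filter Topology Set

theorem taskOne : TaskOne := by
  intro β hβ
  obtain ⟨h2, -⟩ := hβ
  have hm1 : (mm β : ℝ) ≤ β := Nat.floor_le (by linarith)
  have hm2 : (2 : ℝ) ≤ mm β := by
    have : 2 ≤ mm β := Nat.le_floor (by push_cast; linarith)
    exact_mod_cast this
  have hc : cc β * (β - 1) = ((mm β : ℝ) - (β - 1)) / 2 := by
    unfold cc
    have : β - 1 ≠ 0 := by linarith
    field_simp
  refine ⟨by simp, ?_, ?_⟩
  · intro x hx p hp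
    have hp' : p = [] ∨ p = [1] := by
      rw [List.prefix_cons_iff] at hp
      rcases hp with h | ⟨t, rfl, ht⟩
      · exact Or.inl h
      · right
        rw [List.prefix_nil] at ht
        rw [ht]
    rcases hp' with rfl | rfl
    · rw [act_nil]
      rw [act_cons, act_nil] at hx
      obtain ⟨h3, h4⟩ := hx
      push_cast at h3 h4
      constructor
      · by_contra hcon
        push Not at hcon
        nlinarith
      · by_contra hcon
        push Not at hcon
        nlinarith
    · exact hx
  · intro p hp hne _
    rw [List.prefix_cons_iff] at hp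
    rcases hp with h | ⟨t, rfl, ht⟩
    · exact absurd h hne
    · rw [List.prefix_nil] at ht
      rw [ht]

theorem full_append {β : ℝ} {u w : List ℕ} (hu : Full β u) (hw : Full β w) :
    Full β (u ++ w) := by
  intro x hx p hp
  rw [act_append] at hx
  have h1 : act β u x ∈ U β := hw _ hx [] List.nil_prefix
  obtain ⟨q, hq⟩ := hp
  rw [List.append_eq_append_iff] at hq
  rcases hq with ⟨a, ha, -⟩ | ⟨a, ha, hb⟩
  · exact hu x h1 p ⟨a, ha.symm⟩
  · rw [ha, act_append]
    exact hw _ hx a ⟨q, hb.symm⟩

theorem taskFullFlat : TaskFullFlat := by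
  intro β L
  induction L with
  | nil =>
    intro _ x hx p hp
    rw [List.flatten_nil, List.prefix_nil] at hp
    rw [hp]
    exact hx
  | cons u L ih =>
    intro h
    rw [List.flatten_cons]
    exact full_append (h u (by simp)) (ih fun v hv => h v (by simp [hv]))

end Pool.Agent.Q314.BE
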