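import Pool.Agent.Q314.BE.Stmts

set_option autoImplicit false

namespace Pool.Agent.Q314.BE

open MeasureTheory Filter Topology Set

/-- prepend one digit -/
def cns (d : ℕ) (ε : ℕ → ℕ) (i : ℕ) : ℕ := if i = 0 then d else ε (i - 1)

theorem num_cns (d : ℕ) (ε : ℕ → ℕ) (e n : ℕ) :
    num (cns d ε) e (n + 1) = num ε e n + (if d = e then 1 else 0) := by
  unfold num
  rw [Finset.card_filter, Finset.card_filter, Finset.sum_range_succ']
  simp [cns]

theorem pre_one (β : ℝ) (hβ : 1 < β) (d : ℕ) (x : ℝ) (hd : d ≤ ⌊β⌋₊) (ε : ℕ → ℕ)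
    (h : BalExp β (β * x - d) ε) : BalExp β x (cns d ε) := by
  obtain ⟨h1, h2, q, h3⟩ := h
  have hβ0 : β ≠ 0 := by positivity
  refine ⟨?_, ?_, q, fun e he => ⟨(h3 e he).1, ?_⟩⟩
  · intro i
    unfold cns
    split_ifs
    · exact hd
    · exact h1 _
  · have h4 : HasSum (fun i => ((cns d ε (i + 1) : ℕ) : ℝ) / β ^ (i + 1 + 1)) ((β * x - d) / β) := by
      have h5 := h2.div_const β
      have h5' : (fun i => ((cns d ε (i + 1) : ℕ) : ℝ) / β ^ (i + 1 + 1)) =
          fun i => (ε i : ℝ) / β ^ (i + 1) / β := by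
        funext i
        have : cns d ε (i + 1) = ε i := by simp [cns]
        rw [this, pow_succ, div_div]
      rw [h5']
      exact h5
    have h6 := (hasSum_nat_add_iff (f := fun i => ((cns d ε i : ℕ) : ℝ) / β ^ (i + 1)) 1).1 h4
    have h9 : (β * x - d) / β + ∑ i ∈ Finset.range 1, ((cns d ε i : ℕ) : ℝ) / β ^ (i + 1) = x := by
      rw [Finset.sum_range_one]
      have : cns d ε 0 = d := by simp [cns]
      rw [this, zero_add, pow_one]
      field_simp
      ring
    rw [h9] at h6
    exact h6
  · have h7 := (h3 e he).2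
    rw [← tendsto_add_atTop_iff_nat 1]
    have h8 : Tendsto (fun n : ℕ => (num ε e n : ℝ) / n * ((n : ℝ) / (n + 1)) +
        (if d = e then (1 : ℝ) else 0) / ((n : ℝ) + 1)) atTop (𝓝 (q e * 1 + 0)) := by
      refine (h7.mul ?_).add ?_
      · exact tendsto_natCast_div_add_atTop (1 : ℝ)
      · have := (tendsto_one_div_add_atTop_nhds_zero_nat (𝕜 := ℝ)).const_mul
          (if d = e then (1 : ℝ) else 0)
        rw [mul_zero] at this
        refine this.congr fun n => ?_
        rw [mul_one_div]
    rw [mul_one, add_zero] at h8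
    refine h8.congr' ?_
    filter_upwards [eventually_gt_atTop 0] with n hn
    have hn0 : (n : ℝ) ≠ 0 := by positivity
    rw [num_cns]
    push_cast
    field_simp

theorem taskPre : TaskPre := by
  intro β hβ w
  induction w with
  | nil =>
    intro x _ ε h
    simpa [act] using h
  | cons d w ih =>
    intro x hw ε h
    rw [act_cons] at h
    have h1 := ih (β * x - d) (fun e he => hw e (List.mem_cons_of_mem _ he)) ε h
    have h2 := pre_one β hβ d x (hw d List.mem_cons_self) _ h1
    convert h2 using 1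
    funext i
    rcases i with _ | i
    · simp [cns]
    · simp only [cns, Nat.add_eq_zero_iff, one_ne_zero, and_false, if_false, Nat.add_sub_cancel,
        List.length_cons, Nat.add_lt_add_iff_right, List.getElem_cons_succ, Nat.add_sub_add_right]

end Pool.Agent.Q314.BE
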