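import Pool.Agent.Q314.BE.Stmts

set_option autoImplicit false

namespace Pool.Agent.Q314.BE

open MeasureTheory Filter Topology Set

namespace RetAux

theorem cc_facts (β : ℝ) (h : Ok β) : 0 < cc β ∧ β * cc β ≤ cc β + 1 / 2 ∧
    β * (1 + 2 * cc β) - mm β = 1 + 2 * cc β ∧ (mm β : ℝ) / (β - 1) = 1 + 2 * cc β := by
  obtain ⟨h2, hk⟩ := h
  have h1 : (0 : ℝ) < β - 1 := by linarith
  have hm : (mm β : ℝ) ≤ β := Nat.floor_le (by linarith)
  have hm' : β < (mm β : ℝ) + 1 := Nat.lt_floor_add_one β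
  have e : (mm β : ℝ) / (β - 1) = 1 + 2 * cc β := by unfold cc; ring
  have e2 : (mm β : ℝ) = (1 + 2 * cc β) * (β - 1) := by rw [← e]; field_simp
  have h3 : cc β * (β - 1) = (mm β - (β - 1)) / 2 := by linarith
  refine ⟨?_, ?_, ?_, e⟩
  · by_contra hc
    have : cc β * (β - 1) ≤ 0 := mul_nonpos_of_nonpos_of_nonneg (not_lt.1 hc) h1.le
    linarith
  · linarith
  · linarith

theorem act_replicate (β F : ℝ) (m : ℕ) (hF : β * F - m = F) (j : ℕ) :
    ∀ z, act β (List.replicate j m) z = F - β ^ j * (F - z) := by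
  induction j with
  | zero => intro z; simp [act]
  | succ j ih =>
    intro z
    rw [List.replicate_succ, act_cons, ih]
    have : F - (β * z - m) = β * (F - z) := by linarith
    rw [this]; ring

/-- the first power that exceeds `c` -/
theorem first_pow (β : ℝ) (h : Ok β) (u : ℝ) (J : ℕ) (hu : u ≤ cc β)
    (hJ : cc β < β ^ J * u) : ∃ j ≤ J, cc β < β ^ j * u ∧ β ^ j * u ≤ cc β + 1 / 2 := by
  classical
  obtain ⟨hc, hb, hF, -⟩ := cc_facts β h
  have hP : ∃ j, cc β < β ^ j * u := ⟨J, hJ⟩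
  refine ⟨Nat.find hP, Nat.find_min' hP hJ, Nat.find_spec hP, ?_⟩
  obtain ⟨k, hk⟩ : ∃ k, Nat.find hP = k + 1 := by
    refine Nat.exists_eq_succ_of_ne_zero ?_
    intro h0
    have := Nat.find_spec hP
    rw [h0, pow_zero, one_mul] at this
    linarith
  have hk2 : β ^ k * u ≤ cc β := not_lt.1 (Nat.find_min hP (by omega))
  rw [hk, pow_succ]
  have hβ : 0 ≤ β := by linarith [h.1]
  calc β ^ k * β * u = β * (β ^ k * u) := by ring
    _ ≤ β * cc β := mul_le_mul_of_nonneg_left hk2 hβ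
    _ ≤ cc β + 1 / 2 := hb

theorem exists_ret (β : ℝ) (h : Ok β) (η : ℝ) (hη : 0 < η) : ∃ J : ℕ, ∀ z, cc β + 1 ≤ z →
    z ≤ 1 + 2 * cc β - η → ∃ j ≤ J, act β (List.replicate j (mm β)) z ∈ U β := by
  obtain ⟨hc, hb, hF, -⟩ := cc_facts β h
  have hβ : 0 < β := by linarith [h.1]
  obtain ⟨J, hJ⟩ := pow_unbounded_of_one_lt (cc β / η) (show (1 : ℝ) < β by linarith [h.1])
  rw [div_lt_iff₀ hη] at hJ
  refine ⟨J, fun z hz1 hz2 => ?_⟩
  have h1 : η ≤ 1 + 2 * cc β - z := by linarith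
  have h2 : 1 + 2 * cc β - z ≤ cc β := by linarith
  have h3 : cc β < β ^ J * (1 + 2 * cc β - z) :=
    lt_of_lt_of_le hJ (mul_le_mul_of_nonneg_left h1 (pow_nonneg hβ.le J))
  obtain ⟨j, hj, hj1, hj2⟩ := first_pow β h _ J h2 h3
  refine ⟨j, hj, ?_⟩
  rw [act_replicate β _ (mm β) hF]
  unfold U
  rw [Set.mem_Ico]
  constructor <;> linarith

end RetAux

theorem taskRet : TaskRet := by
  intro β h η hη
  obtain ⟨J, hJ⟩ := RetAux.exists_ret β h η hη
  refine ⟨J, fun z hz1 hz2 => ?_⟩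
  obtain ⟨j, hj, hj2⟩ := hJ z hz1 hz2
  have hex : ∃ j, act β (List.replicate j (mm β)) z ∈ U β := ⟨j, hj2⟩
  classical
  unfold ret
  rw [dif_pos hex]
  refine ⟨?_, ?_⟩
  · rw [List.length_replicate]
    exact (Nat.find_min' hex hj2).trans hj
  · exact Nat.find_spec hex

end Pool.Agent.Q314.BE
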