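import Pool.Agent.Q314.BE.Stmts

set_option autoImplicit false

namespace Pool.Agent.Q314.BE

open MeasureTheory Filter Topology Set

section TaskSaux

variable {β : ℝ}

theorem blk_spec_aux {x : ℝ} (h : ∃ w, FF β w ∧ act β w x ∈ U β) :
    FF β (blk β x) ∧ act β (blk β x) x ∈ U β := by
  unfold blk
  rw [dif_pos h]
  exact Classical.choose_spec h

theorem blk_nil_aux {x : ℝ} (h : ¬ ∃ w, FF β w ∧ act β w x ∈ U β) : blk β x = [] := by
  unfold blk
  rw [dif_neg h]

theorem blk_preimage_FF (hU : TaskUniq) (hβ : Ok β) {w : List ℕ} (hw : FF β w) :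
    blk β ⁻¹' {w} = {x | act β w x ∈ U β} := by
  ext x
  simp only [mem_preimage, mem_singleton_iff, mem_ofPred_eq]
  constructor
  · intro h
    by_cases hx : ∃ w, FF β w ∧ act β w x ∈ U β
    · have := (blk_spec_aux hx).2
      rwa [h] at this
    · rw [blk_nil_aux hx] at h
      exact absurd h.symm hw.1
  · intro h
    have hx : ∃ w, FF β w ∧ act β w x ∈ U β := ⟨w, hw, h⟩
    have hs := blk_spec_aux hx
    exact hU β hβ _ _ x hs.1 hw hs.2 h

theorem blk_preimage_nil :
    blk β ⁻¹' {[]} = (⋃ w ∈ {w : List ℕ | FF β w}, {x | act β w x ∈ U β})ᶜ := by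
  ext x
  simp only [mem_preimage, mem_singleton_iff, mem_compl_iff, mem_iUnion, mem_ofPred_eq,
    exists_prop]
  constructor
  · intro h hx
    have hx' : ∃ w, FF β w ∧ act β w x ∈ U β := hx
    exact (blk_spec_aux hx').1.1 h
  · intro h
    exact blk_nil_aux h

theorem blk_preimage_other {w : List ℕ} (h0 : w ≠ []) (hw : ¬ FF β w) : blk β ⁻¹' {w} = ∅ := by
  ext x
  simp only [mem_preimage, mem_singleton_iff, mem_empty_iff_false, iff_false]
  intro h
  by_cases hx : ∃ w, FF β w ∧ act β w x ∈ U β
  · have := (blk_spec_aux hx).1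
    rw [h] at this
    exact hw this
  · rw [blk_nil_aux hx] at h
    exact h0 h.symm

theorem cyl_sub {w : List ℕ} (hw : Full β w) {x : ℝ} (hx : act β w x ∈ U β) : x ∈ U β := by
  have := hw x hx [] (List.nil_prefix)
  simpa [act] using this

end TaskSaux

theorem taskS (hU : TaskUniq) (hSc : TaskScale) (hC : TaskCover) : TaskS := by
  intro β hβ
  have hβ2 : 2 < β := hβ.1
  have hβ1 : 1 < β := by linarith
  have hUm : MeasurableSet (U β) := measurableSet_Ico
  have hvolU : volume (U β) = 1 := by
    unfold U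
    rw [Real.volume_Ico]
    simp
  have hprob : IsProbabilityMeasure (mu β) := by
    constructor
    unfold mu
    rw [Measure.restrict_apply_univ, hvolU]
  have hmeas : ∀ w, MeasurableSet (blk β ⁻¹' {w}) := by
    intro w
    by_cases h0 : w = []
    · rw [h0, blk_preimage_nil]
      apply MeasurableSet.compl
      apply MeasurableSet.biUnion (to_countable _)
      intro w _
      exact (hSc β hβ1 w (U β) hUm).1
    · by_cases hw : FF β w
      · rw [blk_preimage_FF hU hβ hw]
        exact (hSc β hβ1 w (U β) hUm).1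
      · rw [blk_preimage_other h0 hw]
        exact MeasurableSet.empty
  have hinter : ∀ (w : List ℕ) (B : Set ℝ),
      blk β ⁻¹' {w} ∩ S β ⁻¹' B = blk β ⁻¹' {w} ∩ {x | act β w x ∈ B} := by
    intro w B
    ext x
    simp only [mem_inter_iff, mem_preimage, mem_singleton_iff, mem_ofPred_eq]
    constructor
    · rintro ⟨h1, h2⟩
      refine ⟨h1, ?_⟩
      unfold S at h2
      rwa [h1] at h2
    · rintro ⟨h1, h2⟩
      refine ⟨h1, ?_⟩
      unfold S
      rwa [h1]
  have hSmeas : Measurable (S β) := by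
    intro B hB
    have e : S β ⁻¹' B = ⋃ w : List ℕ, (blk β ⁻¹' {w} ∩ {x | act β w x ∈ B}) := by
      ext x
      simp only [mem_iUnion]
      constructor
      · intro h
        refine ⟨blk β x, ?_⟩
        rw [← hinter]
        exact ⟨rfl, h⟩
      · rintro ⟨w, h⟩
        rw [← hinter] at h
        exact h.2
    rw [e]
    exact MeasurableSet.iUnion fun w => (hmeas w).inter (hSc β hβ1 w B hB).1
  -- (7)
  have hmuC : ∀ w, FF β w → ∀ B, MeasurableSet B →
      mu β {x | act β w x ∈ U β ∩ B} = ENNReal.ofReal ((β ^ w.length)⁻¹) * mu β B := by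
    intro w hw B hB
    have hm := hSc β hβ1 w (U β ∩ B) (hUm.inter hB)
    unfold mu
    rw [Measure.restrict_apply hm.1, Measure.restrict_apply hB]
    have e : {x | act β w x ∈ U β ∩ B} ∩ U β = {x | act β w x ∈ U β ∩ B} := by
      apply inter_eq_left.2
      intro x hx
      exact cyl_sub hw.2.1 hx.1
    rw [e, hm.2, inter_comm B]
  have h7 : ∀ w, FF β w → mu β (blk β ⁻¹' {w}) = ENNReal.ofReal ((β ^ w.length)⁻¹) := by
    intro w hw
    have h := hmuC w hw univ MeasurableSet.univ
    rw [inter_univ] at h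
    rw [blk_preimage_FF hU hβ hw, h, hprob.measure_univ, mul_one]
  -- (6)
  have h6 : mu β (blk β ⁻¹' {[]}) = 0 := by
    have hle : ∀ n : ℕ, mu β (blk β ⁻¹' {[]}) ≤ ENNReal.ofReal ((2 / β) ^ n) := by
      intro n
      refine le_trans ?_ (hC β hβ n)
      unfold mu
      rw [Measure.restrict_apply (hmeas [])]
      apply measure_mono
      rintro x ⟨hx, hxU⟩
      rw [blk_preimage_nil] at hx
      refine ⟨hxU, ?_⟩
      intro w hw _ hact
      apply hx
      simp only [mem_iUnion, mem_ofPred_eq, exists_prop]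
      exact ⟨w, hw, hact⟩
    have hlim : Tendsto (fun n : ℕ => ENNReal.ofReal ((2 / β) ^ n)) atTop (𝓝 0) := by
      have h1 : Tendsto (fun n : ℕ => (2 / β) ^ n) atTop (𝓝 0) := by
        apply tendsto_pow_atTop_nhds_zero_of_lt_one (by positivity)
        rw [div_lt_one (by linarith)]
        exact hβ2
      have h2 := ENNReal.tendsto_ofReal h1
      rwa [ENNReal.ofReal_zero] at h2
    exact le_antisymm (ge_of_tendsto' hlim hle) bot_le
  -- (5)
  have h5 : ∀ w B, MeasurableSet B →
      mu β (blk β ⁻¹' {w} ∩ S β ⁻¹' B) = mu β (blk β ⁻¹' {w}) * mu β B := by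
    intro w B hB
    by_cases h0 : w = []
    · rw [h0, h6, zero_mul]
      exact measure_mono_null inter_subset_left h6
    · by_cases hw : FF β w
      · rw [hinter, h7 w hw, blk_preimage_FF hU hβ hw, ← hmuC w hw B hB]
        rfl
      · rw [blk_preimage_other h0 hw]
        simp
  have hdisj : Pairwise (Function.onFun Disjoint fun w : List ℕ => blk β ⁻¹' {w}) := by
    intro w w' hww
    rw [Function.onFun, disjoint_left]
    intro x hx hx'
    exact hww (hx.symm.trans hx')
  have hcov : ⋃ w : List ℕ, blk β ⁻¹' {w} = univ := by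
    ext x
    simp
  have h4 : MeasurePreserving (S β) (mu β) (mu β) := by
    refine ⟨hSmeas, ?_⟩
    ext B hB
    rw [Measure.map_apply hSmeas hB]
    have e : S β ⁻¹' B = ⋃ w : List ℕ, (blk β ⁻¹' {w} ∩ S β ⁻¹' B) := by
      rw [← iUnion_inter, hcov, univ_inter]
    rw [e, measure_iUnion]
    · simp only [h5 _ B hB]
      rw [ENNReal.tsum_mul_right, ← measure_iUnion hdisj hmeas, hcov, hprob.measure_univ, one_mul]
    · intro w w' hww
      exact (hdisj hww).mono inter_subset_left inter_subset_left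
    · intro w
      exact (hmeas w).inter (hSmeas hB)
  refine ⟨hprob, hmeas, hSmeas, h4, h5, ?_, h7⟩
  rw [ae_iff]
  have e : {x | ¬ blk β x ≠ []} = blk β ⁻¹' {[]} := by
    ext x; simp
  rw [e, h6]

end Pool.Agent.Q314.BE
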