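import Mathlib
import Pool.Agent.Q314.BE.Stmts

set_option autoImplicit false

namespace Pool.Agent.Q314.BE

open MeasureTheory Filter Topology Set ProbabilityTheory

section

variable {μ : Measure ℝ} {T : ℝ → ℝ} {b : ℝ → List ℕ}

theorem slln_meas_pre (hb : ∀ w, MeasurableSet (b ⁻¹' {w})) (W : Set (List ℕ)) :
    MeasurableSet (b ⁻¹' W) := by
  have : b ⁻¹' W = ⋃ w ∈ W, b ⁻¹' {w} := by
    ext x; simp
  rw [this]
  exact MeasurableSet.biUnion (Set.to_countable W) (fun w _ => hb w)

theorem slln_prod (hb : ∀ w, MeasurableSet (b ⁻¹' {w})) (hT : Measurable T)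
    (hp : ∀ w B, MeasurableSet B → μ (b ⁻¹' {w} ∩ T ⁻¹' B) = μ (b ⁻¹' {w}) * μ B)
    (W : Set (List ℕ)) (B : Set ℝ) (hB : MeasurableSet B) :
    μ (b ⁻¹' W ∩ T ⁻¹' B) = μ (b ⁻¹' W) * μ B := by
  have h1 : b ⁻¹' W = ⋃ w ∈ W, b ⁻¹' {w} := by
    ext x; simp
  have h2 : b ⁻¹' W ∩ T ⁻¹' B = ⋃ w ∈ W, (b ⁻¹' {w} ∩ T ⁻¹' B) := by
    ext x; simp
  have hd : W.PairwiseDisjoint (fun w => b ⁻¹' {w}) := by
    intro w _ w' _ hne
    rw [Function.onFun, Set.disjoint_left]
    intro x hx hx'
    exact hne (by rw [← (hx : b x = w), ← (hx' : b x = w')])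
  have hd2 : W.PairwiseDisjoint (fun w => b ⁻¹' {w} ∩ T ⁻¹' B) := by
    intro w hw w' hw' hne
    exact (hd hw hw' hne).mono inter_subset_left inter_subset_left
  rw [h2, measure_biUnion (Set.to_countable W) hd2
    (fun w _ => (hb w).inter (hT hB)), h1, measure_biUnion (Set.to_countable W) hd
    (fun w _ => hb w)]
  simp_rw [hp _ B hB]
  rw [ENNReal.tsum_mul_right]

end

theorem taskSLLN : TaskSLLN := by
  intro μ T b hμ hT hb hp f hf
  have hfb : Measurable (fun x => f (b x)) := by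
    intro A _
    exact slln_meas_pre hb (f ⁻¹' A)
  set X : ℕ → ℝ → ℝ := fun i x => f (b (T^[i] x)) with hX
  have hTi : ∀ i, MeasurePreserving (T^[i]) μ μ := fun i => hT.iterate i
  have hXm : ∀ i, Measurable (X i) := fun i => hfb.comp (hTi i).measurable
  have hid : ∀ i, IdentDistrib (X i) (X 0) μ μ := by
    intro i
    refine ⟨(hXm i).aemeasurable, (hXm 0).aemeasurable, ?_⟩
    have h1 : Measure.map (X i) μ = Measure.map (fun x => f (b x)) (Measure.map (T^[i]) μ) := by
      rw [Measure.map_map hfb (hTi i).measurable]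
      rfl
    rw [h1, (hTi i).map_eq]
    rfl
  have hind' : ∀ i k, IndepFun (X i) (X (i + k + 1)) μ := by
    intro i k
    rw [indepFun_iff_measure_inter_preimage_eq_mul]
    intro s t hs ht
    have e1 : X i ⁻¹' s = T^[i] ⁻¹' (b ⁻¹' (f ⁻¹' s)) := rfl
    have e2 : X (i + k + 1) ⁻¹' t = T^[i] ⁻¹' (T ⁻¹' (X k ⁻¹' t)) := by
      ext x
      simp only [hX, mem_preimage]
      rw [show i + k + 1 = k + 1 + i from by ring, Function.iterate_add_apply,
        Function.iterate_succ_apply]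
    have hms : MeasurableSet (b ⁻¹' (f ⁻¹' s)) := slln_meas_pre hb _
    have hmt : MeasurableSet (X k ⁻¹' t) := hXm k ht
    have hmt2 : MeasurableSet (T ⁻¹' (X k ⁻¹' t)) := hT.measurable hmt
    rw [e1, e2, ← preimage_inter,
      (hTi i).measure_preimage (hms.inter hmt2).nullMeasurableSet,
      (hTi i).measure_preimage hms.nullMeasurableSet,
      (hTi i).measure_preimage hmt2.nullMeasurableSet,
      hT.measure_preimage hmt.nullMeasurableSet]
    exact slln_prod hb hT.measurable hp _ _ hmt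
  have hind : Pairwise (Function.onFun (fun f g => IndepFun f g μ) X) := by
    intro i j hij
    rcases lt_or_gt_of_ne hij with h | h
    · obtain ⟨k, rfl⟩ := Nat.exists_eq_add_of_lt h
      exact hind' i k
    · obtain ⟨k, rfl⟩ := Nat.exists_eq_add_of_lt h
      exact (hind' j k).symm
  exact strong_law_ae_real X hf hind hid

end Pool.Agent.Q314.BE
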