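import Mathlib
import Pool.Agent.Q314.BE.Stmts

set_option autoImplicit false

namespace Pool.Agent.Q314.BE

open MeasureTheory Filter Topology Set

theorem seg_P_succ {α : Type} (L : ℕ → List α) (K : ℕ) :
    ((List.range (K + 1)).map L).flatten = ((List.range K).map L).flatten ++ L K := by
  rw [List.range_succ, List.map_append, List.flatten_append]
  simp

theorem seg_len_ge {α : Type} (L : ℕ → List α) (h : ∀ k, L k ≠ []) (K : ℕ) :
    K ≤ ((List.range K).map L).flatten.length := by
  induction K with
  | zero => simp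
  | succ K ih =>
    rw [seg_P_succ, List.length_append]
    have := List.length_pos_iff.2 (h K)
    omega

theorem seg_len_mono {α : Type} (L : ℕ → List α) (K j : ℕ) :
    ((List.range K).map L).flatten.length ≤ ((List.range (K + j)).map L).flatten.length := by
  induction j with
  | zero => exact le_refl _
  | succ j ih =>
    rw [← Nat.add_assoc, seg_P_succ, List.length_append]
    omega

theorem seg_getD_mono {α : Type} (L : ℕ → List α) (d : α) (K j i : ℕ)
    (hi : i < ((List.range K).map L).flatten.length) :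
    ((List.range (K + j)).map L).flatten.getD i d = ((List.range K).map L).flatten.getD i d := by
  induction j with
  | zero => rfl
  | succ j ih =>
    rw [← Nat.add_assoc, seg_P_succ,
      List.getD_append _ _ _ _ (lt_of_lt_of_le hi (seg_len_mono L K j)), ih]

theorem seg_flat {α : Type} (L : ℕ → List α) (d : α) (h : ∀ k, L k ≠ []) (K r : ℕ)
    (hr : r < (L K).length) :
    flat d L (((List.range K).map L).flatten.length + r) = (L K).getD r d := by
  have h1 := seg_len_ge L h K
  obtain ⟨j, hj⟩ : ∃ j, ((List.range K).map L).flatten.length + r + 1 = (K + 1) + j :=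
    ⟨((List.range K).map L).flatten.length + r + 1 - (K + 1), by omega⟩
  unfold flat
  rw [hj, seg_getD_mono L d (K + 1) j _ (by rw [seg_P_succ, List.length_append]; omega),
    seg_P_succ, List.getD_append_right _ _ _ _ (by omega)]
  congr 1
  omega

theorem taskSeg : TaskSeg := by
  intro d f a C Ls Lk M k0 h0 h1 h2 h3 h4
  set T : ℕ → ℕ := fun K => ((List.range K).map Ls).flatten.length with hT
  set w : ℕ → List ℕ := flat d Ls with hw
  set E : ℕ → ℝ := fun n => ∑ i ∈ Finset.range n, f (w i) - a * n with hE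
  have hTs : ∀ K, T (K + 1) = T K + (Ls K).length := by
    intro K
    simp only [hT]
    rw [seg_P_succ, List.length_append]
  have hTge : ∀ K, K ≤ T K := fun K => seg_len_ge Ls h1 K
  have hwf : ∀ K r, r < (Ls K).length → w (T K + r) = (Ls K).getD r d := fun K r hr =>
    seg_flat Ls d h1 K r hr
  have hEadd : ∀ n r : ℕ, E (n + r) - E n = ∑ i ∈ Finset.range r, f (w (n + i)) - a * r := by
    intro n r
    simp only [hE]
    rw [Finset.sum_range_add]
    push_cast
    ring
  set C' : ℝ := |C| + |a| with hC'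
  have hC'0 : 0 ≤ C' := by positivity
  -- inside the segment `k ≥ k0`
  have hseg : ∀ k, k0 ≤ k → ∃ N : ℕ, M k ≤ N ∧ T (k + 1) = T k + N + 1 ∧
      (∀ r : ℕ, r ≤ N → |E (T k + r) - E (T k)| ≤ r / (k + 1) + (2 * |a| + 1) * Lk k) ∧
      |E (T (k + 1)) - E (T k)| ≤ N / (k + 1) + C' := by
    intro k hk
    obtain ⟨N, u, s, hLs, hMN, hs, hdev⟩ := h4 k hk
    have hlen : (Ls k).length = N + 1 := by rw [hLs]; simp
    have hu : ∀ i, i < N → w (T k + i) = u i := by
      intro i hi
      rw [hwf k i (by rw [hlen]; omega), hLs, List.getD_append _ _ _ _ (by simpa using hi)]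
      rw [List.getD_eq_getElem _ _ (by simpa using hi)]
      simp
    have hws : w (T k + N) = s := by
      rw [hwf k N (by rw [hlen]; omega), hLs, List.getD_append_right _ _ _ _ (by simp)]
      simp
    have hk1 : (0 : ℝ) < (k : ℝ) + 1 := by positivity
    have hsum : ∀ r, r ≤ N → E (T k + r) - E (T k) = ∑ i ∈ Finset.range r, f (u i) - a * r := by
      intro r hr
      rw [hEadd]
      congr 1
      refine Finset.sum_congr rfl fun i hi => ?_
      rw [hu i (lt_of_lt_of_le (Finset.mem_range.1 hi) hr)]
    refine ⟨N, hMN, by rw [hTs, hlen]; ring, ?_, ?_⟩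
    · intro r hr
      rw [hsum r hr]
      have hrk : (0 : ℝ) ≤ r / (k + 1) := by positivity
      have ha0 := abs_nonneg a
      rcases le_or_gt (Lk k) r with h | h
      · have := hdev r h hr
        have h5 : 0 ≤ (2 * |a| + 1) * (Lk k : ℝ) := by positivity
        linarith
      · have h5 := hdev (Lk k) le_rfl ((h2 k).trans hMN)
        have h6 : (0 : ℝ) ≤ ∑ i ∈ Finset.range r, f (u i) :=
          Finset.sum_nonneg fun i _ => h0 _
        have h7 : ∑ i ∈ Finset.range r, f (u i) ≤ ∑ i ∈ Finset.range (Lk k), f (u i) :=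
          Finset.sum_le_sum_of_subset_of_nonneg (Finset.range_mono h.le) fun i _ _ => h0 _
        have h8 : ((Lk k : ℕ) : ℝ) / (k + 1) ≤ Lk k := by
          rw [div_le_iff₀ hk1]
          have : (0 : ℝ) ≤ Lk k := by positivity
          have : (0 : ℝ) ≤ (Lk k : ℝ) * k := by positivity
          linarith
        have h9 : (r : ℝ) ≤ Lk k := by exact_mod_cast h.le
        have h10 : |a * (r : ℝ)| ≤ |a| * Lk k := by
          rw [abs_mul, abs_of_nonneg (show (0 : ℝ) ≤ r by positivity)]
          exact mul_le_mul_of_nonneg_left h9 ha0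
        have h11 : |a * (Lk k : ℝ)| ≤ |a| * Lk k := by
          rw [abs_mul, abs_of_nonneg (show (0 : ℝ) ≤ Lk k by positivity)]
        rw [abs_le] at h5 h10 h11 ⊢
        constructor
        · linarith
        · linarith
    · have e1 : E (T (k + 1)) - E (T k) = (∑ i ∈ Finset.range N, f (u i) - a * N) + (f s - a) := by
        have : T (k + 1) = T k + (N + 1) := by rw [hTs, hlen]
        rw [this, hEadd, Finset.sum_range_succ, hws]
        have : ∑ i ∈ Finset.range N, f (w (T k + i)) = ∑ i ∈ Finset.range N, f (u i) :=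
          Finset.sum_congr rfl fun i hi => by rw [hu i (Finset.mem_range.1 hi)]
        rw [this]
        push_cast
        ring
      rw [e1]
      have e2 := hdev N ((h2 k).trans hMN) le_rfl
      have e3 : |f s - a| ≤ C' := by
        have := h0 s
        have := le_abs_self C
        have := abs_le.1 (le_refl |a|)
        rw [abs_le]
        constructor
        · rw [hC']
          have := abs_nonneg C
          linarith
        · rw [hC']
          linarith
      exact (abs_add_le _ _).trans (add_le_add e2 e3)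
  -- the epsilon argument
  have hmain : ∀ ε : ℝ, 0 < ε → ∃ (B : ℝ) (n0 : ℕ), ∀ n, n0 ≤ n → |E n| ≤ B + ε * n := by
    intro ε hε
    set A : ℝ := 2 * |a| + 2 + C' with hA
    have hA0 : 0 < A := by positivity
    obtain ⟨K1, hK1⟩ := exists_nat_gt (2 * A / ε)
    set K := max K1 (k0 + 1) with hK
    have hKk0 : k0 + 1 ≤ K := le_max_right _ _
    have hAK : ∀ j : ℕ, K ≤ j → A ≤ ε / 2 * j := by
      intro j hj
      have : (K1 : ℝ) ≤ j := by exact_mod_cast (le_max_left K1 (k0 + 1)).trans hj
      have h5 : 2 * A / ε < j := hK1.trans_le this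
      rw [div_lt_iff₀ hε] at h5
      nlinarith
    have hstep : ∀ j, K ≤ j → |E (T (j + 1)) - E (T j)| ≤ ε / 2 * ((T (j + 1) : ℝ) - T j) := by
      intro j hj
      obtain ⟨N, hMN, hTj, -, hd⟩ := hseg j (by omega)
      have h5 : (j : ℝ) + 1 ≤ N := by
        have := h3 j
        have h6 : (j + 1) * 1 ≤ (j + 1) * (Lk (j + 1) + 1) := Nat.mul_le_mul_left _ (by omega)
        have : j + 1 ≤ N := by omega
        exact_mod_cast this
      have h6 : (T (j + 1) : ℝ) - T j = N + 1 := by
        rw [hTj]; push_cast; ring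
      rw [h6]
      refine hd.trans ?_
      have hj1 : (0 : ℝ) < (j : ℝ) + 1 := by positivity
      have h7 := hAK j hj
      have h8 : (N : ℝ) / (j + 1) + C' ≤ A / (j + 1) * (N + 1) := by
        rw [div_mul_eq_mul_div, div_add' _ _ _ hj1.ne', div_le_div_iff_of_pos_right hj1]
        have : C' * (j + 1) ≤ C' * (N + 1) := mul_le_mul_of_nonneg_left (by linarith) hC'0
        have h9 : (0 : ℝ) ≤ N + 1 := by positivity
        have h10 : 0 ≤ (2 * |a| + 1) * ((N : ℝ) + 1) := by positivity
        rw [hA]
        nlinarith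
      have h9 : A / (j + 1) ≤ ε / 2 := by
        rw [div_le_iff₀ hj1]
        nlinarith
      exact h8.trans (mul_le_mul_of_nonneg_right h9 (by positivity))
    have hcum : ∀ m, |E (T (K + m))| ≤ |E (T K)| + ε / 2 * T (K + m) := by
      intro m
      have h5 : |E (T (K + m))| ≤ |E (T K)| + ε / 2 * ((T (K + m) : ℝ) - T K) := by
        induction m with
        | zero => simp
        | succ m ih =>
          have h6 := hstep (K + m) (by omega)
          have h7 : |E (T (K + m + 1))| ≤ |E (T (K + m))| + |E (T (K + m + 1)) - E (T (K + m))| := by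
            have := abs_add_le (E (T (K + m))) (E (T (K + m + 1)) - E (T (K + m)))
            rwa [add_sub_cancel] at this
          rw [← Nat.add_assoc]
          nlinarith
      have h6 : (0 : ℝ) ≤ ε / 2 * T K := by positivity
      nlinarith
    refine ⟨|E (T K)|, T K, ?_⟩
    intro n hn
    -- find the segment
    have hex : ∃ m, n < T (K + m + 1) := ⟨n, by have := hTge (K + n + 1); omega⟩
    obtain ⟨m, hm1, hm2⟩ : ∃ m, T (K + m) ≤ n ∧ n < T (K + m + 1) := by
      classical
      refine ⟨Nat.find hex, ?_, Nat.find_spec hex⟩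
      rcases Nat.eq_zero_or_pos (Nat.find hex) with h | h
      · rw [h]; exact hn
      · have := Nat.find_min hex (m := Nat.find hex - 1) (by omega)
        have h5 : K + (Nat.find hex - 1) + 1 = K + Nat.find hex := by omega
        rw [h5] at this
        omega
    obtain ⟨N, hMN, hTj, hr, -⟩ := hseg (K + m) (by omega)
    obtain ⟨r, rfl⟩ := Nat.exists_eq_add_of_le hm1
    have hrN : r ≤ N := by omega
    have h5 := hr r hrN
    have h6 := hcum m
    -- `Lk (K + m)` is small
    have h7 : ((K + m : ℕ) : ℝ) * Lk (K + m) ≤ T (K + m) := by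
      obtain ⟨k, hk⟩ : ∃ k, K + m = k + 1 := ⟨K + m - 1, by omega⟩
      rw [hk]
      obtain ⟨N', hMN', hTj', -, -⟩ := hseg k (by omega)
      have h8 := h3 k
      have h9 : (k + 1) * Lk (k + 1) ≤ (k + 1) * (Lk (k + 1) + 1) :=
        Nat.mul_le_mul_left _ (by omega)
      have h10 : (k + 1) * Lk (k + 1) ≤ T (k + 1) := by omega
      exact_mod_cast h10
    have hKm := hAK (K + m) (by omega)
    have hKpos : (0 : ℝ) < ((K + m : ℕ) : ℝ) := by
      have : 0 < K + m := by omega
      exact_mod_cast this
    have h8 : (r : ℝ) / (((K + m : ℕ) : ℝ) + 1) + (2 * |a| + 1) * Lk (K + m) ≤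
        ε / 2 * ((T (K + m) : ℝ) + r) := by
      have h9 : (r : ℝ) / (((K + m : ℕ) : ℝ) + 1) ≤ r / ((K + m : ℕ) : ℝ) := by
        apply div_le_div_of_nonneg_left (by positivity) hKpos
        linarith
      have h10 : ((Lk (K + m) : ℕ) : ℝ) ≤ T (K + m) / ((K + m : ℕ) : ℝ) := by
        rw [le_div_iff₀ hKpos, mul_comm]
        exact h7
      have h11 : (r : ℝ) / ((K + m : ℕ) : ℝ) + (2 * |a| + 1) * (T (K + m) / ((K + m : ℕ) : ℝ)) ≤
          A / ((K + m : ℕ) : ℝ) * ((T (K + m) : ℝ) + r) := by
        have e : A / ((K + m : ℕ) : ℝ) * ((T (K + m) : ℝ) + r) -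
            ((r : ℝ) / ((K + m : ℕ) : ℝ) + (2 * |a| + 1) * (T (K + m) / ((K + m : ℕ) : ℝ))) =
            ((2 * |a| + 1 + C') * r + (1 + C') * T (K + m)) / ((K + m : ℕ) : ℝ) := by
          rw [hA]
          field_simp
          ring
        have : 0 ≤ ((2 * |a| + 1 + C') * r + (1 + C') * T (K + m)) / ((K + m : ℕ) : ℝ) := by
          positivity
        linarith
      have h12 : A / ((K + m : ℕ) : ℝ) ≤ ε / 2 := by
        rw [div_le_iff₀ hKpos]
        exact hKm
      have h13 : (2 * |a| + 1) * ((Lk (K + m) : ℕ) : ℝ) ≤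
          (2 * |a| + 1) * (T (K + m) / ((K + m : ℕ) : ℝ)) :=
        mul_le_mul_of_nonneg_left h10 (by positivity)
      have h14 : A / ((K + m : ℕ) : ℝ) * ((T (K + m) : ℝ) + r) ≤ ε / 2 * ((T (K + m) : ℝ) + r) :=
        mul_le_mul_of_nonneg_right h12 (by positivity)
      linarith
    have h9 : |E (T (K + m) + r)| ≤ |E (T (K + m))| + |E (T (K + m) + r) - E (T (K + m))| := by
      have := abs_add_le (E (T (K + m))) (E (T (K + m) + r) - E (T (K + m)))
      rwa [add_sub_cancel] at this
    push_cast at h5 h6 h8 h9 ⊢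
    have h10 : (0 : ℝ) ≤ ε / 2 * r := by positivity
    nlinarith
  -- conclusion
  rw [Metric.tendsto_atTop]
  intro ε hε
  obtain ⟨B, n0, hB⟩ := hmain (ε / 2) (by positivity)
  obtain ⟨n1, hn1⟩ := exists_nat_gt (2 * B / ε)
  refine ⟨max (max n0 n1) 1, fun n hn => ?_⟩
  have hn0 : n0 ≤ n := (le_max_left _ _).trans ((le_max_left _ _).trans hn)
  have hn1' : (n1 : ℝ) ≤ n := by
    exact_mod_cast (le_max_right n0 n1).trans ((le_max_left _ _).trans hn)
  have hnpos : (0 : ℝ) < n := by
    have : 1 ≤ n := (le_max_right _ _).trans hn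
    exact_mod_cast this
  rw [Real.dist_eq]
  have e1 : (∑ i ∈ Finset.range n, f (w i)) / n - a = E n / n := by
    simp only [hE]
    field_simp
  rw [e1, abs_div, abs_of_pos hnpos, div_lt_iff₀ hnpos]
  have e2 := hB n hn0
  have e3 : 2 * B / ε < n := hn1.trans_le hn1'
  rw [div_lt_iff₀ hε] at e3
  nlinarith

end Pool.Agent.Q314.BE
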