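import Pool.Agent.Q314.BE.Stmts

set_option autoImplicit false

/-!
MP_d3ee63_an: the density of the image of Lebesgue measure under one segment.
-/

namespace Pool.Agent.Q314.BE

open MeasureTheory Filter Topology Set

namespace Step

theorem act_blocks (β x : ℝ) (t : ℕ) :
    act β ((List.range t).map (fun i => blk β ((S β)^[i] x))).flatten x = (S β)^[t] x := by
  induction t with
  | zero => simp [act_nil]
  | succ t ih =>
    rw [List.range_succ, List.map_append, List.flatten_append, act_append, ih,
      Function.iterate_succ_apply']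
    simp [S]

/-- the last step of a segment -/
noncomputable def K (β : ℝ) (v : List ℕ) (b : Bool) (y : ℝ) : ℝ := act β (spec β v b y) y

theorem G_eq (β : ℝ) (v : List ℕ) (M W : ℕ) (b : Bool) (x : ℝ) :
    G β v M W b x = K β v b ((S β)^[wait β v M W x] x) := by
  unfold G seg K
  rw [List.flatten_append, act_append, act_blocks]
  simp

theorem continuous_act (β : ℝ) (w : List ℕ) : Continuous (act β w) := by
  induction w with
  | nil => exact continuous_id
  | cons e w ih => exact ih.comp ((continuous_const.mul continuous_id).sub continuous_const)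

theorem measurable_find (P : ℕ → ℝ → Prop) (hP : ∀ j, MeasurableSet {x | P j x})
    (f : ℕ → ℝ → ℝ) (g : ℝ → ℝ) (hf : ∀ j, Measurable (f j)) (hg : Measurable g) (F : ℝ → ℝ)
    (h1 : ∀ x j, P j x → (∀ i < j, ¬ P i x) → F x = f j x)
    (h2 : ∀ x, (¬ ∃ j, P j x) → F x = g x) : Measurable F := by
  classical
  intro B hB
  have e : F ⁻¹' B = (⋃ j, (({x | P j x} ∩ ⋂ i ∈ {i | i < j}, {x | P i x}ᶜ) ∩ f j ⁻¹' B)) ∪
      ((⋂ j, {x | P j x}ᶜ) ∩ g ⁻¹' B) := by
    ext x
    simp only [mem_preimage, mem_union, mem_iUnion, mem_inter_iff, mem_ofPred_eq, mem_iInter,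
      mem_compl_iff]
    by_cases h : ∃ j, P j x
    · constructor
      · intro hx
        refine Or.inl ⟨Nat.find h, ⟨Nat.find_spec h, fun i hi => Nat.find_min h hi⟩, ?_⟩
        rwa [← h1 x (Nat.find h) (Nat.find_spec h) (fun i hi => Nat.find_min h hi)]
      · rintro (⟨j, ⟨hj, hmin⟩, hx⟩ | ⟨hn, -⟩)
        · rwa [h1 x j hj hmin]
        · exact absurd h (fun ⟨j, hj⟩ => hn j hj)
    · constructor
      · intro hx
        refine Or.inr ⟨fun j hj => h ⟨j, hj⟩, ?_⟩
        rwa [← h2 x h]
      · rintro (⟨j, ⟨hj, hmin⟩, hx⟩ | ⟨hn, hx⟩)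
        · exact absurd ⟨j, hj⟩ h
        · rwa [h2 x h]
  rw [e]
  refine (MeasurableSet.iUnion fun j => ?_).union ?_
  · exact ((hP j).inter (MeasurableSet.biInter (Set.to_countable _) fun i _ =>
      (hP i).compl)).inter (hf j hB)
  · exact (MeasurableSet.iInter fun j => (hP j).compl).inter (hg hB)

/-- the point reached with `ret` -/
noncomputable def R (β : ℝ) (z : ℝ) : ℝ := act β (ret β z) z

theorem ret_of (β z : ℝ) (j : ℕ) (h : act β (List.replicate j (mm β)) z ∈ U β)
    (hm : ∀ i < j, act β (List.replicate i (mm β)) z ∉ U β) :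
    ret β z = List.replicate j (mm β) := by
  classical
  have hex : ∃ j, act β (List.replicate j (mm β)) z ∈ U β := ⟨j, h⟩
  unfold ret
  rw [dif_pos hex]
  congr 1
  exact (Nat.find_eq_iff hex).2 ⟨h, hm⟩

theorem measurable_R (β : ℝ) : Measurable (R β) := by
  refine measurable_find (fun j z => act β (List.replicate j (mm β)) z ∈ U β) ?_
    (fun j z => act β (List.replicate j (mm β)) z) (fun z => z) ?_ measurable_id (R β) ?_ ?_
  · intro j
    exact (continuous_act β _).measurable measurableSet_Ico
  · intro j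
    exact (continuous_act β _).measurable
  · intro x j h1 h2
    unfold R
    rw [ret_of β x j h1 h2]
  · intro x hx
    unfold R ret
    rw [dif_neg hx]
    rfl

theorem measurableSet_V (β : ℝ) (v : List ℕ) : MeasurableSet (V β v) :=
  (continuous_act β _).measurable measurableSet_Ico

theorem K_V_true (β : ℝ) (v : List ℕ) (y : ℝ) (h : y ∈ V β v) :
    K β v true y = R β (β * y) := by
  unfold K spec R
  rw [if_pos h, if_pos rfl, act_cons]
  simp

theorem K_V_false (β : ℝ) (v : List ℕ) (y : ℝ) (h : y ∈ V β v) :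
    K β v false y = act β (1 :: v) y := by
  unfold K spec
  rw [if_pos h]
  simp

theorem K_not (β : ℝ) (v : List ℕ) (b : Bool) (y : ℝ) (h : y ∉ V β v) :
    K β v b y = S β y := by
  unfold K spec S
  rw [if_neg h]

theorem measurable_K (β : ℝ) (v : List ℕ) (b : Bool) (hS : Measurable (S β)) :
    Measurable (K β v b) := by
  classical
  cases b with
  | true =>
    have e : K β v true = (V β v).piecewise (fun y => R β (β * y)) (S β) := by
      funext y
      by_cases h : y ∈ V β v
      · rw [Set.piecewise_eq_of_mem _ _ _ h, K_V_true β v y h]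
      · rw [Set.piecewise_eq_of_notMem _ _ _ h, K_not β v _ y h]
    rw [e]
    exact Measurable.piecewise (measurableSet_V β v)
      ((measurable_R β).comp (measurable_const.mul measurable_id)) hS
  | false =>
    have e : K β v false = (V β v).piecewise (act β (1 :: v)) (S β) := by
      funext y
      by_cases h : y ∈ V β v
      · rw [Set.piecewise_eq_of_mem _ _ _ h, K_V_false β v y h]
      · rw [Set.piecewise_eq_of_notMem _ _ _ h, K_not β v _ y h]
    rw [e]
    exact Measurable.piecewise (measurableSet_V β v) (continuous_act β _).measurable hS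

theorem wait_of (β : ℝ) (v : List ℕ) (M W : ℕ) (x : ℝ) (j : ℕ)
    (h : j ≤ W ∧ (S β)^[M + j] x ∈ V β v)
    (hm : ∀ i < j, ¬ (i ≤ W ∧ (S β)^[M + i] x ∈ V β v)) : wait β v M W x = M + j := by
  classical
  have hex : ∃ j, j ≤ W ∧ (S β)^[M + j] x ∈ V β v := ⟨j, h⟩
  unfold wait
  rw [dif_pos hex]
  congr 1
  exact (Nat.find_eq_iff hex).2 ⟨h, hm⟩

theorem wait_not (β : ℝ) (v : List ℕ) (M W : ℕ) (x : ℝ)
    (h : ¬ ∃ j, j ≤ W ∧ (S β)^[M + j] x ∈ V β v) : wait β v M W x = M + W + 1 := by
  unfold wait
  rw [dif_neg h]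

theorem measurable_G (β : ℝ) (v : List ℕ) (M W : ℕ) (b : Bool) (hS : Measurable (S β)) :
    Measurable (G β v M W b) := by
  refine measurable_find (fun j x => j ≤ W ∧ (S β)^[M + j] x ∈ V β v) ?_
    (fun j x => K β v b ((S β)^[M + j] x)) (fun x => K β v b ((S β)^[M + W + 1] x)) ?_ ?_ _ ?_ ?_
  · intro j
    by_cases hj : j ≤ W
    · simp only [hj, true_and]
      exact (hS.iterate (M + j)) (measurableSet_V β v)
    · simp only [hj, false_and]
      exact MeasurableSet.empty
  · intro j
    exact (measurable_K β v b hS).comp (hS.iterate (M + j))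
  · exact (measurable_K β v b hS).comp (hS.iterate (M + W + 1))
  · intro x j h1 h2
    rw [G_eq, wait_of β v M W x j h1 h2]
  · intro x hx
    rw [G_eq, wait_not β v M W x hx]

theorem wait_mem (β : ℝ) (v : List ℕ) (M W : ℕ) (x : ℝ) :
    ∃ i < W + 2, wait β v M W x = M + i := by
  classical
  by_cases h : ∃ j, j ≤ W ∧ (S β)^[M + j] x ∈ V β v
  · refine ⟨Nat.find h, ?_, ?_⟩
    · have := (Nat.find_spec h).1
      omega
    · exact wait_of β v M W x _ (Nat.find_spec h) (fun i hi => Nat.find_min h hi)
  · exact ⟨W + 1, by omega, by rw [wait_not β v M W x h]; ring⟩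

/-- words shrink the measure -/
theorem vol_act (hscale : TaskScale) (β : ℝ) (hβ : 1 < β) (w : List ℕ) (B : Set ℝ)
    (hB : MeasurableSet B) :
    volume {x | act β w x ∈ B ∩ U β} = ENNReal.ofReal ((β ^ w.length)⁻¹) * mu β B := by
  rw [(hscale β hβ w (B ∩ U β) (hB.inter measurableSet_Ico)).2]
  unfold mu
  rw [Measure.restrict_apply hB]

theorem ofReal_le (β : ℝ) (hβ : 2 < β) (n : ℕ) :
    ENNReal.ofReal ((β ^ n)⁻¹) ≤ (2⁻¹ : ENNReal) ^ n := by
  have h2 : (2⁻¹ : ENNReal) = ENNReal.ofReal (2⁻¹) := by
    rw [ENNReal.ofReal_inv_of_pos (by norm_num)]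
    norm_num
  rw [h2, ← ENNReal.ofReal_pow (by norm_num)]
  refine ENNReal.ofReal_le_ofReal ?_
  rw [inv_pow]
  exact inv_anti₀ (by positivity) (pow_le_pow_left₀ (by norm_num) hβ.le n)

theorem mu_K (hscale : TaskScale) (hret : TaskRet) (β : ℝ) (hok : Ok β) (v : List ℕ)
    (hv : VOk β v) (b : Bool) (hSp : MeasurePreserving (S β) (mu β) (mu β)) (B : Set ℝ)
    (hB : MeasurableSet B) : mu β (K β v b ⁻¹' B) ≤ 2 * mu β B := by
  have hβ1 : 1 < β := by linarith [hok.1]
  have hsub : K β v b ⁻¹' B ⊆ (V β v ∩ K β v b ⁻¹' B) ∪ S β ⁻¹' B := by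
    intro y hy
    by_cases h : y ∈ V β v
    · exact Or.inl ⟨h, hy⟩
    · right
      rw [mem_preimage, K_not β v b y h] at hy
      exact hy
  have h1 : mu β (S β ⁻¹' B) = mu β B := hSp.measure_preimage hB.nullMeasurableSet
  have h2 : mu β (V β v ∩ K β v b ⁻¹' B) ≤ mu β B := by
    cases b with
    | false =>
      calc mu β (V β v ∩ K β v false ⁻¹' B) ≤ volume (V β v ∩ K β v false ⁻¹' B) :=
            Measure.restrict_apply_le _ _
        _ ≤ volume {x | act β (1 :: v) x ∈ B ∩ U β} := by
            refine measure_mono ?_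
            rintro y ⟨hy, hy2⟩
            rw [mem_preimage, K_V_false β v y hy] at hy2
            exact ⟨hy2, hy⟩
        _ = ENNReal.ofReal ((β ^ (1 :: v).length)⁻¹) * mu β B := vol_act hscale β hβ1 _ B hB
        _ ≤ 1 * mu β B := by
            gcongr
            refine (ofReal_le β hok.1 _).trans ?_
            exact pow_le_one₀ (by positivity) (by norm_num)
        _ = mu β B := one_mul _
    | true =>
      obtain ⟨-, ⟨η, hη, hvη⟩, -⟩ := hv
      obtain ⟨J, hJ⟩ := hret β hok η hη
      calc mu β (V β v ∩ K β v true ⁻¹' B) ≤ volume (V β v ∩ K β v true ⁻¹' B) :=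
            Measure.restrict_apply_le _ _
        _ ≤ volume (⋃ j : ℕ, {x | act β (0 :: List.replicate j (mm β)) x ∈ B ∩ U β}) := by
            refine measure_mono ?_
            rintro y ⟨hy, hy2⟩
            rw [mem_preimage, K_V_true β v y hy] at hy2
            have hz := hvη (β * y - 1) (by
              have h3 : act β (1 :: v) y ∈ U β := hy
              rw [act_cons] at h3
              exact_mod_cast h3)
            have hz2 := (hJ (β * y) (by linarith [hz.1]) (by linarith [hz.2])).2
            have hex : ∃ j, act β (List.replicate j (mm β)) (β * y) ∈ U β := by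
              by_contra hne
              unfold ret at hz2
              rw [dif_neg hne] at hz2
              exact hne ⟨0, hz2⟩
            classical
            have e := ret_of β (β * y) (Nat.find hex) (Nat.find_spec hex)
              (fun i hi => Nat.find_min hex hi)
            unfold R at hy2
            rw [e] at hy2 hz2
            rw [mem_iUnion]
            refine ⟨Nat.find hex, ?_⟩
            show act β (0 :: List.replicate (Nat.find hex) (mm β)) y ∈ B ∩ U β
            rw [act_cons]
            simp only [Nat.cast_zero, sub_zero]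
            exact ⟨hy2, hz2⟩
        _ ≤ ∑' j : ℕ, volume {x | act β (0 :: List.replicate j (mm β)) x ∈ B ∩ U β} :=
            measure_iUnion_le _
        _ ≤ ∑' j : ℕ, (2⁻¹ : ENNReal) ^ (j + 1) * mu β B := by
            refine ENNReal.tsum_le_tsum fun j => ?_
            rw [vol_act hscale β hβ1 _ B hB]
            gcongr
            have := ofReal_le β hok.1 (0 :: List.replicate j (mm β)).length
            simpa using this
        _ = mu β B := by
            rw [ENNReal.tsum_mul_right, ENNReal.tsum_geometric_add_one, ENNReal.one_sub_inv_two,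
              inv_inv, ENNReal.inv_mul_cancel (by norm_num) (by norm_num), one_mul]
  calc mu β (K β v b ⁻¹' B) ≤ mu β ((V β v ∩ K β v b ⁻¹' B) ∪ S β ⁻¹' B) := measure_mono hsub
    _ ≤ mu β (V β v ∩ K β v b ⁻¹' B) + mu β (S β ⁻¹' B) := measure_union_le _ _
    _ ≤ mu β B + mu β B := add_le_add h2 h1.le
    _ = 2 * mu β B := (two_mul _).symm

end Step

open Step in
theorem taskStep (hscale : TaskScale) (hS : TaskS) (hret : TaskRet) : TaskStep := by
  intro β hok v hv M W b
  obtain ⟨-, -, hSm, hSp, -⟩ := hS β hok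
  refine ⟨measurable_G β v M W b hSm, fun B hB => ?_⟩
  have hKm := measurable_K β v b hSm
  have hsub : G β v M W b ⁻¹' B ⊆
      ⋃ i ∈ Finset.range (W + 2), (S β)^[M + i] ⁻¹' (K β v b ⁻¹' B) := by
    intro x hx
    obtain ⟨i, hi, hw⟩ := wait_mem β v M W x
    simp only [mem_iUnion, Finset.mem_range, mem_preimage]
    refine ⟨i, hi, ?_⟩
    rw [mem_preimage, G_eq, hw] at hx
    exact hx
  calc mu β (G β v M W b ⁻¹' B) ≤
        mu β (⋃ i ∈ Finset.range (W + 2), (S β)^[M + i] ⁻¹' (K β v b ⁻¹' B)) := measure_mono hsub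
    _ ≤ ∑ i ∈ Finset.range (W + 2), mu β ((S β)^[M + i] ⁻¹' (K β v b ⁻¹' B)) :=
        measure_biUnion_finset_le _ _
    _ = ∑ i ∈ Finset.range (W + 2), mu β (K β v b ⁻¹' B) := by
        refine Finset.sum_congr rfl fun i _ => ?_
        exact (hSp.iterate (M + i)).measure_preimage (hKm hB).nullMeasurableSet
    _ ≤ ∑ i ∈ Finset.range (W + 2), 2 * mu β B :=
        Finset.sum_le_sum fun i _ => mu_K hscale hret β hok v hv b hSp B hB
    _ = ((2 * (W + 2) : ℕ) : ENNReal) * mu β B := by
        rw [Finset.sum_const, Finset.card_range, nsmul_eq_mul]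
        push_cast
        ring

end Pool.Agent.Q314.BE
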