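import Pool.Agent.Q314.BE.Stmts

set_option autoImplicit false

/-!
MP_d3ee63_an: TaskSym (reflection of the digits).
-/

namespace Pool.Agent.Q314.BE

open Set

namespace SymH

theorem act_affine (β : ℝ) (w : List ℕ) (x : ℝ) :
    act β w x = β ^ w.length * x + act β w 0 := by
  induction w generalizing x with
  | nil => simp [act_nil]
  | cons e w ih =>
    rw [act_cons, act_cons, ih (β * x - e), ih (β * 0 - e), List.length_cons, pow_succ]
    ring

theorem act_mono {β : ℝ} (hβ : 0 < β) (w : List ℕ) : StrictMono (act β w) := by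
  intro x y hxy
  rw [act_affine β w x, act_affine β w y]
  have : 0 < β ^ w.length := pow_pos hβ _
  have := mul_lt_mul_of_pos_left hxy this
  linarith

theorem act_surj {β : ℝ} (hβ : 0 < β) (w : List ℕ) (y : ℝ) : ∃ x, act β w x = y := by
  have h : β ^ w.length ≠ 0 := (pow_pos hβ _).ne'
  refine ⟨(y - act β w 0) / β ^ w.length, ?_⟩
  rw [act_affine]
  field_simp
  ring

theorem act_refl {β : ℝ} (hβ : 2 < β) (w : List ℕ) (hw : ∀ e ∈ w, e ≤ mm β) (x : ℝ) :
    act β (w.map (fun e => mm β - e)) (1 + 2 * cc β - x) = 1 + 2 * cc β - act β w x := by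
  induction w generalizing x with
  | nil => simp [act_nil]
  | cons e w ih =>
    rw [List.map_cons, act_cons, act_cons]
    have h1 : β * (1 + 2 * cc β - x) - ((mm β - e : ℕ) : ℝ) = 1 + 2 * cc β - (β * x - e) := by
      have he : e ≤ mm β := hw e (by simp)
      rw [Nat.cast_sub he]
      have hb : β - 1 ≠ 0 := by linarith
      have hm : (mm β : ℝ) = (β - 1) * (1 + 2 * cc β) := by
        unfold cc
        field_simp
        ring
      rw [hm]
      ring
    rw [h1]
    exact ih (fun e' he' => hw e' (by simp [he'])) (β * x - e)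

/-- the version of fullness for the reflected half-open intervals -/
theorem full_ioc {β : ℝ} (hβ : 0 < β) {w p : List ℕ} (hw : Full β w) (hp : p <+: w) {x : ℝ}
    (hx : act β w x ∈ Ioc (cc β) (cc β + 1)) : act β p x ∈ Ioc (cc β) (cc β + 1) := by
  obtain ⟨x0, hx0⟩ := act_surj hβ w (cc β)
  have hx0x : x0 < x := by
    by_contra h
    push Not at h
    have := (act_mono hβ w).monotone h
    linarith [hx.1]
  have hp0 : act β p x0 ∈ U β := hw x0 (by rw [hx0]; exact ⟨le_refl _, by linarith⟩) p hp
  constructor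
  · have := act_mono hβ p hx0x
    have h1 := hp0.1
    linarith
  · by_contra h
    push Not at h
    obtain ⟨x1, hx1⟩ := act_surj hβ p (cc β + 1)
    have hx1x : x1 < x := by
      by_contra h'
      push Not at h'
      have := (act_mono hβ p).monotone h'
      linarith
    have hy : max x0 x1 < x := max_lt hx0x hx1x
    have hy1 : act β w (max x0 x1) ∈ U β := by
      refine ⟨?_, ?_⟩
      · rw [← hx0]; exact (act_mono hβ w).monotone (le_max_left _ _)
      · have := act_mono hβ w hy
        linarith [hx.2]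
    have hy2 := (hw _ hy1 p hp).2
    have hy3 : act β p x1 ≤ act β p (max x0 x1) := (act_mono hβ p).monotone (le_max_right _ _)
    linarith

theorem prefix_map {α γ : Type} (f : α → γ) {w : List α} {q : List γ} (h : q <+: w.map f) :
    ∃ p, p <+: w ∧ q = p.map f := by
  obtain ⟨t, ht⟩ := h
  obtain ⟨l₁, l₂, h1, h2, h3⟩ := List.map_eq_append_iff.1 ht.symm
  exact ⟨l₁, ⟨l₂, h1.symm⟩, h2.symm⟩

theorem full_map {β : ℝ} (hβ : 2 < β) {w : List ℕ} (hd : ∀ e ∈ w, e ≤ mm β) (hw : Full β w) :
    Full β (w.map (fun e => mm β - e)) := by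
  intro x hx q hq
  obtain ⟨p, hp, rfl⟩ := prefix_map _ hq
  have hpd : ∀ e ∈ p, e ≤ mm β := fun e he => hd e (hp.subset he)
  have hx' : x = 1 + 2 * cc β - (1 + 2 * cc β - x) := by ring
  rw [hx', act_refl hβ w hd] at hx
  have h1 : act β w (1 + 2 * cc β - x) ∈ Ioc (cc β) (cc β + 1) := by
    obtain ⟨h1, h2⟩ := hx
    exact ⟨by linarith, by linarith⟩
  have h2 := full_ioc (by linarith) hw hp h1
  rw [hx', act_refl hβ p hpd]
  obtain ⟨h3, h4⟩ := h2
  exact ⟨by linarith, by linarith⟩

theorem map_map_refl {β : ℝ} {w : List ℕ} (hd : ∀ e ∈ w, e ≤ mm β) :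
    (w.map (fun e => mm β - e)).map (fun e => mm β - e) = w := by
  rw [List.map_map]
  conv_rhs => rw [← List.map_id w]
  apply List.map_congr_left
  intro e he
  have := hd e he
  simp only [Function.comp, id]
  omega

end SymH

open SymH in
theorem taskSym : TaskSym := by
  intro β hβ w hd hw
  obtain ⟨h0, h1, h2⟩ := hw
  refine ⟨?_, full_map hβ.1 hd h1, ?_⟩
  · intro h
    exact h0 (List.map_eq_nil_iff.1 h)
  · intro q hq hq0 hqf
    obtain ⟨p, hp, rfl⟩ := prefix_map _ hq
    have hpd : ∀ e ∈ p, e ≤ mm β := fun e he => hd e (hp.subset he)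
    have hp0 : p ≠ [] := by
      rintro rfl
      exact hq0 rfl
    have h3 : Full β p := by
      have := full_map hβ.1 (w := p.map (fun e => mm β - e)) (by
        intro e he
        obtain ⟨a, _, rfl⟩ := List.mem_map.1 he
        exact Nat.sub_le _ _) hqf
      rwa [map_map_refl hpd] at this
    rw [h2 p hp hp0 h3]

end Pool.Agent.Q314.BE
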