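import Pool.Agent.Q314.BE.Stmts

set_option autoImplicit false

namespace Pool.Agent.Q314.BE

open MeasureTheory Filter Topology Set

namespace Sym242

theorem mono {β : ℝ} (hβ : 0 < β) (w : List ℕ) : StrictMono (act β w) := by
  induction w with
  | nil => exact strictMono_id
  | cons e w ih =>
    intro x y h
    rw [act_cons, act_cons]
    apply ih
    have := mul_lt_mul_of_pos_left h hβ
    linarith

theorem surj {β : ℝ} (hβ : 0 < β) (w : List ℕ) (z : ℝ) : ∃ x, act β w x = z := by
  induction w with
  | nil => exact ⟨z, rfl⟩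
  | cons e w ih =>
    obtain ⟨y, hy⟩ := ih
    refine ⟨(y + e) / β, ?_⟩
    rw [act_cons, mul_div_cancel₀ _ hβ.ne', add_sub_cancel_right, hy]

theorem full_iff {β : ℝ} (hβ : 0 < β) (w : List ℕ) : Full β w ↔ ∀ p q, w = p ++ q →
    act β q (cc β) ≤ cc β ∧ cc β + 1 ≤ act β q (cc β + 1) := by
  constructor
  · intro h p q hw
    have key : ∀ y, act β q y ∈ U β → y ∈ U β := by
      intro y hy
      obtain ⟨x, rfl⟩ := surj hβ p y
      refine h x ?_ p ⟨q, hw.symm⟩
      rw [hw, act_append]
      exact hy
    constructor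
    · obtain ⟨y, hy⟩ := surj hβ q (cc β)
      have h1 : y ∈ U β := key y (by rw [hy]; exact ⟨le_rfl, by linarith⟩)
      rw [← hy]
      exact hy ▸ ((mono hβ q).monotone h1.1)
    · by_contra hc
      push Not at hc
      obtain ⟨y, hy⟩ := surj hβ q (max (act β q (cc β + 1)) (cc β))
      have h1 : y ∈ U β := by
        apply key
        rw [hy]
        exact ⟨le_max_right _ _, max_lt hc (by linarith)⟩
      have h2 := mono hβ q h1.2
      rw [hy] at h2
      exact absurd h2 (not_lt.2 (le_max_left _ _))
  · intro h x hx p hp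
    obtain ⟨q, hq⟩ := hp
    have h1 := h p q hq.symm
    rw [← hq, act_append] at hx
    constructor
    · by_contra hc
      push Not at hc
      have h2 := mono hβ q hc
      have := hx.1
      linarith [h1.1]
    · by_contra hc
      push Not at hc
      have h2 := (mono hβ q).monotone hc
      have := hx.2
      linarith [h1.2]

theorem reflect {β : ℝ} (hβ : 1 < β) (w : List ℕ) : (∀ e ∈ w, e ≤ mm β) → ∀ x : ℝ,
    act β (w.map (fun e => mm β - e)) (1 + 2 * cc β - x) = 1 + 2 * cc β - act β w x := by
  induction w with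
  | nil => intro _ x; rfl
  | cons e w ih =>
    intro hw x
    rw [List.map_cons, act_cons, act_cons, ← ih (fun e' he' => hw e' (List.mem_cons_of_mem _ he'))]
    congr 1
    rw [Nat.cast_sub (hw e List.mem_cons_self)]
    have h1 : (β - 1) * (1 + 2 * cc β) = mm β := by
      unfold cc
      have : β - 1 ≠ 0 := by linarith
      field_simp
      ring
    linear_combination h1

theorem full_map {β : ℝ} (hβ : 1 < β) (w : List ℕ) (hw : ∀ e ∈ w, e ≤ mm β) (h : Full β w) :
    Full β (w.map (fun e => mm β - e)) := by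
  rw [full_iff (by linarith)] at h ⊢
  intro p' q' hpq
  obtain ⟨p, q, rfl, rfl, rfl⟩ := List.map_eq_append_iff.1 hpq
  have h1 := h p q rfl
  have hq : ∀ e ∈ q, e ≤ mm β := fun e he => hw e (List.mem_append_right _ he)
  have e1 := reflect hβ q hq (cc β + 1)
  have e2 := reflect hβ q hq (cc β)
  have e3 : 1 + 2 * cc β - (cc β + 1) = cc β := by ring
  have e4 : 1 + 2 * cc β - cc β = cc β + 1 := by ring
  rw [e3] at e1
  rw [e4] at e2
  rw [e1, e2]
  constructor
  · linarith [h1.2]
  · linarith [h1.1]

theorem map_map {β : ℝ} (w : List ℕ) (hw : ∀ e ∈ w, e ≤ mm β) :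
    (w.map (fun e => mm β - e)).map (fun e => mm β - e) = w := by
  rw [List.map_map]
  conv_rhs => rw [← List.map_id w]
  refine List.map_congr_left fun e he => ?_
  have := hw e he
  simp only [Function.comp_apply, id_eq]
  omega

end Sym242

open Pool.Agent.Q314.BE.Sym242 in
theorem taskSym242 : TaskSym := by
  intro β hβ w hw h
  have hβ1 : 1 < β := by linarith [hβ.1]
  refine ⟨?_, full_map hβ1 w hw h.2.1, ?_⟩
  · intro h0
    exact h.1 (List.map_eq_nil_iff.1 h0)
  · intro p' hp' hne hfull
    obtain ⟨q', hq'⟩ := hp'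
    obtain ⟨p, q, hpq, rfl, rfl⟩ := List.map_eq_append_iff.1 hq'.symm
    have hp : ∀ e ∈ p, e ≤ mm β := fun e he => hw e (by rw [hpq]; exact List.mem_append_left _ he)
    have h1 := full_map hβ1 _ (by
      intro e he
      rw [List.mem_map] at he
      obtain ⟨a, _, rfl⟩ := he
      exact Nat.sub_le _ _) hfull
    rw [map_map p hp] at h1
    have h2 := h.2.2 p ⟨q, hpq.symm⟩ (by
      rintro rfl
      exact hne rfl) h1
    rw [h2]

end Pool.Agent.Q314.BE
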