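import Pool.Agent.Q314.BE.Stmts

set_option autoImplicit false

namespace Pool.Agent.Q314.BE

open MeasureTheory Filter Topology Set

theorem digit_unique {β y : ℝ} {e e' : ℕ} (h : β * y - e ∈ U β) (h' : β * y - e' ∈ U β) :
    e = e' := by
  have h1 := h.1
  have h2 := h.2
  have h3 := h'.1
  have h4 := h'.2
  have h5 : (e : ℝ) < e' + 1 := by linarith
  have h6 : (e' : ℝ) < e + 1 := by linarith
  have h7 : e < e' + 1 := by exact_mod_cast h5
  have h8 : e' < e + 1 := by exact_mod_cast h6
  omega

theorem prefix_or {β : ℝ} (w : List ℕ) : ∀ (w' : List ℕ) (x : ℝ),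
    (∀ p, p <+: w → act β p x ∈ U β) → (∀ p, p <+: w' → act β p x ∈ U β) →
    w <+: w' ∨ w' <+: w := by
  induction w with
  | nil => intro w' x _ _; exact Or.inl List.nil_prefix
  | cons e w ih =>
    intro w' x h h'
    cases w' with
    | nil => exact Or.inr List.nil_prefix
    | cons e' w' =>
      have h1 : act β [e] x ∈ U β := h [e] (by simp)
      have h2 : act β [e'] x ∈ U β := h' [e'] (by simp)
      rw [act_cons, act_nil] at h1 h2
      have he : e = e' := digit_unique h1 h2
      subst he
      rcases ih w' (β * x - e)
        (fun p hp => by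
          have := h (e :: p) (by simpa using hp)
          rwa [act_cons] at this)
        (fun p hp => by
          have := h' (e :: p) (by simpa using hp)
          rwa [act_cons] at this) with h3 | h3
      · exact Or.inl (by simpa using h3)
      · exact Or.inr (by simpa using h3)

theorem taskUniq : TaskUniq := by
  intro β _ w w' x hw hw' h h'
  rcases prefix_or w w' x (hw.2.1 x h) (hw'.2.1 x h') with h1 | h1
  · exact hw'.2.2 w h1 hw.1 hw.2.1
  · exact (hw.2.2 w' h1 hw'.1 hw'.2.1).symm

end Pool.Agent.Q314.BE
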