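import Pool.Agent.Q314.BE.Stmts

set_option autoImplicit false

namespace Pool.Agent.Q314.BE

open MeasureTheory Filter Topology Set

theorem tw_blk {β y : ℝ} (h : blk β y ≠ []) : FF β (blk β y) ∧ S β y ∈ U β := by
  have h1 : ∃ w, FF β w ∧ act β w y ∈ U β := by
    by_contra h2
    exact h (by rw [blk, dif_neg h2])
  have h3 : blk β y = Classical.choose h1 := by rw [blk, dif_pos h1]
  have h4 := Classical.choose_spec h1
  rw [S, h3]
  exact h4

theorem tw_iter {β x : ℝ} (t : ℕ) :
    act β ((List.range t).map (fun i => blk β ((S β)^[i] x))).flatten x = (S β)^[t] x := by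
  induction t with
  | zero => rfl
  | succ t ih =>
    rw [List.range_succ, List.map_append, List.flatten_append, act_append, ih,
      Function.iterate_succ_apply']
    simp [S]

theorem taskWords (hD : TaskDigits) (hR : TaskRet) : TaskWords := by
  intro β hβ v hv M W b x hx hblk
  obtain ⟨hv1, ⟨η, hη, hv2⟩, -⟩ := hv
  have hU : ∀ i, (S β)^[i] x ∈ U β := by
    intro i
    cases i with
    | zero => exact hx
    | succ i =>
      rw [Function.iterate_succ_apply']
      exact (tw_blk (hblk i)).2
  have hb : ∀ i, blk β ((S β)^[i] x) ≠ [] ∧ ∀ e ∈ blk β ((S β)^[i] x), e ≤ mm β := by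
    intro i
    obtain ⟨h1, h2⟩ := tw_blk (hblk i)
    exact ⟨hblk i, hD β hβ _ _ h1.2.1 h2⟩
  have hspec : ∀ i, (spec β v b ((S β)^[i] x) ≠ [] ∧
      ∀ e ∈ spec β v b ((S β)^[i] x), e ≤ mm β) ∧
      act β (spec β v b ((S β)^[i] x)) ((S β)^[i] x) ∈ U β := by
    intro i
    set y := (S β)^[i] x with hy
    rw [spec]
    split_ifs with h1 h2
    · have h3 : act β (1 :: v) y ∈ U β := h1
      rw [act_cons] at h3
      push_cast at h3
      obtain ⟨h4, h5⟩ := hv2 _ h3
      obtain ⟨J, hJ⟩ := hR β hβ η hη
      have h6 := (hJ (β * y) (by linarith) (by linarith)).2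
      refine ⟨⟨by simp, ?_⟩, ?_⟩
      · intro e he
        rcases List.mem_cons.1 he with rfl | he
        · exact Nat.zero_le _
        · rw [ret] at he
          split_ifs at he with h7
          · exact (List.eq_of_mem_replicate he).le
          · simp at he
      · rw [act_cons]
        push_cast
        rw [sub_zero]
        exact h6
    · have h3 : act β (1 :: v) y ∈ U β := h1
      exact ⟨⟨by simp, hD β hβ _ _ hv1 h3⟩, h3⟩
    · exact ⟨hb i, (tw_blk (hblk i)).2⟩
  refine ⟨?_, ?_, hU⟩
  · intro u hu
    rw [seg, List.mem_append] at hu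
    rcases hu with hu | hu
    · obtain ⟨i, -, rfl⟩ := List.mem_map.1 hu
      exact hb i
    · rw [List.mem_singleton] at hu
      rw [hu]
      exact (hspec _).1
  · rw [G, seg, List.flatten_append, act_append, tw_iter]
    have h1 : ([spec β v b ((S β)^[wait β v M W x] x)] : List (List ℕ)).flatten =
        spec β v b ((S β)^[wait β v M W x] x) := by simp
    rw [h1]
    exact (hspec _).2

end Pool.Agent.Q314.BE
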